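import Mathlib

namespace Pool.Agent.Helper16.FieldDep

open CategoryTheory MvPolynomial

/-- The monomial ideal of `k[x_0,…,x_{n-1}]` generated by the monomials with exponents in the
finite set `G`. -/
noncomputable def monomialIdeal (k : Type) [Field k] {n : ℕ} (G : Finset (Fin n →₀ ℕ)) :
    Ideal (MvPolynomial (Fin n) k) :=
  Ideal.span ((fun g => monomial g (1 : k)) '' (G : Set (Fin n →₀ ℕ)))

/-- The `i`-th Betti number of an ideal `I` of `S = k[x_0,…,x_{n-1}]`: the dimension over `k` of
`Tor_i(I, k)` over `S`, where `k = S / (x_0,…,x_{n-1})`. -/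
noncomputable def bettiNumber (k : Type) [Field k] {n : ℕ} (I : Ideal (MvPolynomial (Fin n) k))
    (i : ℕ) : ℕ :=
  Module.finrank k ((ModuleCat.restrictScalars (algebraMap k (MvPolynomial (Fin n) k))).obj
    (((Tor (ModuleCat.{0} (MvPolynomial (Fin n) k)) i).obj
      (ModuleCat.of (MvPolynomial (Fin n) k) I)).obj
        (ModuleCat.of (MvPolynomial (Fin n) k) (MvPolynomial (Fin n) k ⧸
          Ideal.span (Set.range (X : Fin n → MvPolynomial (Fin n) k))))))

/-- The Betti numbers of the `l`-th power of the monomial ideal given by `G` depend on the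
field. -/
def PowerDependsOnField {n : ℕ} (G : Finset (Fin n →₀ ℕ)) (l : ℕ) : Prop :=
  ∃ (k k' : Type) (_ : Field k) (_ : Field k') (i : ℕ),
    bettiNumber k (monomialIdeal k G ^ l) i ≠ bettiNumber k' (monomialIdeal k' G ^ l) i

end Pool.Agent.Helper16.FieldDep
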