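import Mathlib

set_option linter.unusedSectionVars false

namespace Pool.Agent.Helper16.Koszul

open Finset

variable {V : Type} [Fintype V] [LinearOrder V]

/-- The Koszul sign. -/
def sgn (j : V) (σ : Finset V) : ℤ := (-1) ^ (σ.filter (fun l => l < j)).card

lemma sgn_mul_self (j : V) (σ : Finset V) : sgn j σ * sgn j σ = 1 := by
  unfold sgn
  rw [← mul_pow]
  simp

lemma sgn_insert {j l : V} {σ : Finset V} (hj : j ∉ σ) :
    sgn l (insert j σ) = sgn l σ * (if j < l then -1 else 1) := by
  unfold sgn
  rw [Finset.filter_insert]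
  split_ifs with h
  · rw [Finset.card_insert_of_notMem (by simp [hj]), pow_succ]
  · simp

lemma sgn_swap {j l : V} {σ : Finset V} (hj : j ∉ σ) (hl : l ∉ σ) (hjl : j ≠ l) :
    sgn j σ * sgn l (insert j σ) = -(sgn l σ * sgn j (insert l σ)) := by
  rw [sgn_insert hj, sgn_insert hl]
  rcases lt_or_gt_of_ne hjl with h | h
  · simp [h, h.not_gt, mul_comm]
  · simp [h, h.not_gt, mul_comm]

section Total

variable {S : Type} [CommRing S] (x : V → S) (M : Type) [AddCommGroup M] [Module S M]

/-- The Koszul differential on all functions from finite sets to `M`. -/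
def kdT : (Finset V → M) →ₗ[S] (Finset V → M) where
  toFun F σ := ∑ j ∈ σᶜ, sgn j σ • (x j • F (insert j σ))
  map_add' F G := by
    ext σ
    simp only [Pi.add_apply, smul_add, Finset.sum_add_distrib]
  map_smul' s F := by
    ext σ
    simp only [Pi.smul_apply, RingHom.id_apply, Finset.smul_sum]
    refine Finset.sum_congr rfl fun j _ => ?_
    rw [smul_comm s (sgn j σ), smul_comm s (x j)]

variable {M}

lemma kdT_apply (F : Finset V → M) (σ : Finset V) :
    kdT x M F σ = ∑ j ∈ σᶜ, sgn j σ • (x j • F (insert j σ)) := rfl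

lemma antisymm_sum {A : Type} [AddCommGroup A] (s : Finset V) (f : V → V → A)
    (h : ∀ i ∈ s, ∀ j ∈ s, i ≠ j → f i j = -f j i) :
    ∑ i ∈ s, ∑ j ∈ s.erase i, f i j = 0 := by
  classical
  have key : ∑ i ∈ s, ∑ j ∈ s.erase i, f i j =
      ∑ p ∈ (s ×ˢ s).filter (fun p => p.1 ≠ p.2), f p.1 p.2 := by
    rw [Finset.sum_filter, Finset.sum_product]
    refine Finset.sum_congr rfl fun i hi => ?_
    rw [← Finset.sum_filter]
    refine Finset.sum_congr ?_ fun _ _ => rfl
    ext j
    simp only [Finset.mem_erase, Finset.mem_filter]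
    constructor
    · rintro ⟨h1, h2⟩; exact ⟨h2, fun e => h1 e.symm⟩
    · rintro ⟨h1, h2⟩; exact ⟨fun e => h2 e.symm, h1⟩
  rw [key]
  refine Finset.sum_involution (fun p _ => (p.2, p.1)) ?_ ?_ ?_ ?_
  · rintro ⟨i, j⟩ hp
    simp only [Finset.mem_filter, Finset.mem_product] at hp
    simp only
    rw [h i hp.1.1 j hp.1.2 hp.2]
    simp
  · rintro ⟨i, j⟩ hp _ hne
    simp only [Finset.mem_filter, Finset.mem_product] at hp
    exact hp.2 (Prod.ext_iff.1 hne).2
  · rintro ⟨i, j⟩ hp
    simp only [Finset.mem_filter, Finset.mem_product] at hp ⊢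
    exact ⟨⟨hp.1.2, hp.1.1⟩, fun e => hp.2 e.symm⟩
  · rintro ⟨i, j⟩ _
    rfl

lemma kdT_kdT (F : Finset V → M) : kdT x M (kdT x M F) = 0 := by
  ext σ
  rw [kdT_apply]
  have h1 : ∀ i ∈ σᶜ, sgn i σ • (x i • kdT x M F (insert i σ)) =
      ∑ j ∈ σᶜ.erase i, (sgn i σ * sgn j (insert i σ)) • ((x i * x j) • F (insert j (insert i σ))) := by
    intro i hi
    rw [kdT_apply, Finset.smul_sum, Finset.smul_sum]
    have : (insert i σ)ᶜ = σᶜ.erase i := by
      ext l; simp [Finset.mem_compl]
    rw [this]
    refine Finset.sum_congr rfl fun j _ => ?_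
    rw [smul_comm (x i) (sgn j (insert i σ)), smul_smul, smul_smul]
  rw [Finset.sum_congr rfl h1]
  refine antisymm_sum σᶜ (fun i j => (sgn i σ * sgn j (insert i σ)) •
    ((x i * x j) • F (insert j (insert i σ)))) ?_
  intro i hi j hj hij
  rw [Finset.mem_compl] at hi hj
  rw [sgn_swap hi hj hij, neg_smul, mul_comm (x i), Finset.insert_comm]

/-- Finite sets of a given size. -/
abbrev Sub (V : Type) [Fintype V] (i : ℕ) : Type := {τ : Finset V // τ.card = i}

/-- extension by zero -/
def extend (M : Type) [AddCommGroup M] (i : ℕ) (f : Sub V i → M) : Finset V → M :=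
  fun τ => if h : τ.card = i then f ⟨τ, h⟩ else 0

lemma extend_apply (i : ℕ) (f : Sub V i → M) (τ : Sub V i) : extend M i f τ.1 = f τ := by
  rw [extend, dif_pos τ.2]

lemma extend_of_ne {i : ℕ} (f : Sub V i → M) {τ : Finset V} (h : τ.card ≠ i) :
    extend M i f τ = 0 := by
  rw [extend, dif_neg h]

variable (M) in
/-- The Koszul differential. -/
def kd (i : ℕ) : (Sub V (i + 1) → M) →ₗ[S] (Sub V i → M) where
  toFun f σ := kdT x M (extend M (i + 1) f) σ.1
  map_add' f g := by
    ext σ
    have : extend M (i + 1) (f + g) = extend M (i + 1) f + extend M (i + 1) g := by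
      ext τ
      by_cases h : τ.card = i + 1 <;> simp [extend, h]
    rw [this, map_add]
    rfl
  map_smul' s f := by
    ext σ
    have : extend M (i + 1) (s • f) = s • extend M (i + 1) f := by
      ext τ
      by_cases h : τ.card = i + 1 <;> simp [extend, h]
    rw [this, map_smul]
    rfl

lemma kd_apply (i : ℕ) (f : Sub V (i + 1) → M) (σ : Sub V i) :
    kd x M i f σ = kdT x M (extend M (i + 1) f) σ.1 := rfl

lemma extend_kd (i : ℕ) (f : Sub V (i + 1) → M) :
    extend M i (kd x M i f) = kdT x M (extend M (i + 1) f) := by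
  ext τ
  by_cases h : τ.card = i
  · rw [extend, dif_pos h]
    rfl
  · rw [extend_of_ne _ h, kdT_apply]
    symm
    apply Finset.sum_eq_zero
    intro j hj
    rw [Finset.mem_compl] at hj
    rw [extend_of_ne, smul_zero, smul_zero]
    rw [Finset.card_insert_of_notMem hj]
    omega

lemma extend_injective (i : ℕ) : Function.Injective (extend (V := V) M i) := by
  intro f g h
  ext τ
  rw [← extend_apply i f τ, h, extend_apply]

lemma kd_kd (i : ℕ) (f : Sub V (i + 1 + 1) → M) : kd x M i (kd x M (i + 1) f) = 0 := by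
  apply extend_injective i
  rw [extend_kd, extend_kd, kdT_kdT]
  ext τ
  simp [extend]

end Total

section Complex

open CategoryTheory

variable {S : Type} [CommRing S] (x : V → S) (M : Type) [AddCommGroup M] [Module S M]

/-- The Koszul complex with coefficients in `M`. -/
noncomputable def KM : ChainComplex (ModuleCat.{0} S) ℕ :=
  ChainComplex.of (fun i => ModuleCat.of S (Sub V i → M)) (fun i => ModuleCat.ofHom (kd x M i))
    (by
      intro i
      apply ModuleCat.hom_ext
      apply LinearMap.ext
      intro f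
      exact kd_kd x i f)

lemma KM_d (i : ℕ) : (KM x M).d (i + 1) i = ModuleCat.ofHom (kd x M i) := by
  exact ChainComplex.of_d (fun i : ℕ => ModuleCat.of S (Sub V i → M))
    (fun i => ModuleCat.ofHom (kd x M i)) i

/-- Tensoring the Koszul complex with `M`. -/
noncomputable def tensorIso :
    (((MonoidalCategory.tensoringLeft (ModuleCat.{0} S)).obj (ModuleCat.of S M)).mapHomologicalComplex
      (ComplexShape.down ℕ)).obj (KM x S) ≅ KM x M :=
  HomologicalComplex.Hom.isoOfComponents
    (fun i => (TensorProduct.piScalarRight S S M (Sub V i)).toModuleIso)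
    (fun i j hij => by
      obtain rfl : j + 1 = i := hij
      rw [Functor.mapHomologicalComplex_obj_d, KM_d, KM_d]
      apply ModuleCat.hom_ext
      apply TensorProduct.ext'
      intro m f
      change kd x M j (TensorProduct.piScalarRight S S M (Sub V (j + 1)) (m ⊗ₜ f)) =
        TensorProduct.piScalarRight S S M (Sub V j) (m ⊗ₜ (kd x S j f))
      rw [TensorProduct.piScalarRight_apply, TensorProduct.piScalarRightHom_tmul,
        TensorProduct.piScalarRight_apply, TensorProduct.piScalarRightHom_tmul]
      funext σ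
      rw [kd_apply, kd_apply, kdT_apply, kdT_apply, Finset.sum_smul]
      refine Finset.sum_congr rfl fun l hl => ?_
      rw [smul_assoc, smul_assoc]
      congr 2
      rw [extend, extend]
      split_ifs
      · rfl
      · rw [zero_smul])

/-- `S / (x)`. -/
abbrev Res (x : V → S) : Type := S ⧸ Ideal.span (Set.range x)

/-- the augmentation -/
def aug : (Sub V 0 → S) →ₗ[S] Res x :=
  (Submodule.mkQ (Ideal.span (Set.range x))).comp (LinearMap.proj ⟨∅, rfl⟩)

lemma sub_zero_eq (σ : Sub V 0) : σ = ⟨∅, rfl⟩ := Subtype.ext (Finset.card_eq_zero.1 σ.2)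

lemma kd_zero_apply (f : Sub V (0 + 1) → M) (σ : Sub V 0) :
    kd x M 0 f σ = ∑ j : V, x j • f ⟨{j}, by simp⟩ := by
  rw [sub_zero_eq σ, kd_apply, kdT_apply]
  rw [Finset.compl_empty]
  refine Finset.sum_congr rfl fun j _ => ?_
  have h1 : sgn j (∅ : Finset V) = 1 := by simp [sgn]
  rw [h1, one_smul, extend, dif_pos (by simp)]
  rfl

lemma range_kd_zero : LinearMap.range (kd x S 0) = LinearMap.ker (aug x) := by
  ext f
  constructor
  · rintro ⟨g, rfl⟩
    rw [LinearMap.mem_ker, aug]
    simp only [LinearMap.comp_apply, LinearMap.proj_apply, Submodule.mkQ_apply,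
      Submodule.Quotient.mk_eq_zero]
    rw [kd_zero_apply]
    apply Ideal.sum_mem
    intro j _
    exact Ideal.mul_mem_right _ _ (Ideal.subset_span ⟨j, rfl⟩)
  · intro hf
    rw [LinearMap.mem_ker, aug] at hf
    simp only [LinearMap.comp_apply, LinearMap.proj_apply, Submodule.mkQ_apply,
      Submodule.Quotient.mk_eq_zero] at hf
    obtain ⟨c, hc⟩ := (Ideal.mem_span_range_iff_exists_fun).1 hf
    refine ⟨fun τ => if h : ∃ j, τ.1 = {j} then c h.choose else 0, ?_⟩
    funext σ
    rw [kd_zero_apply, sub_zero_eq σ, ← hc]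
    refine Finset.sum_congr rfl fun j _ => ?_
    have h : ∃ l, ({j} : Finset V) = {l} := ⟨j, rfl⟩
    have h1 : h.choose = j := (Finset.singleton_injective h.choose_spec).symm
    rw [dif_pos h, h1, smul_eq_mul, mul_comm]

lemma aug_kd : (aug x).comp (kd x S 0) = 0 := by
  apply LinearMap.ext
  intro f
  have : kd x S 0 f ∈ LinearMap.ker (aug x) := by
    rw [← range_kd_zero]; exact ⟨f, rfl⟩
  exact this

/-- The augmentation as a morphism of complexes. -/
noncomputable def augHom : KM x S ⟶ (ChainComplex.single₀ (ModuleCat.{0} S)).obj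
    (ModuleCat.of S (Res x)) :=
  ((KM x S).toSingle₀Equiv _).symm ⟨ModuleCat.ofHom (aug x), by
    rw [KM_d]
    apply ModuleCat.hom_ext
    exact aug_kd x⟩

lemma augHom_f_zero : (augHom x).f 0 = ModuleCat.ofHom (aug x) := by
  rw [augHom, ChainComplex.toSingle₀Equiv_symm_apply_f_zero]

/-- Exactness of the Koszul complex. -/
def KExact : Prop := ∀ i (f : Sub V (i + 1) → S), kd x S i f = 0 → ∃ g, kd x S (i + 1) g = f

lemma augHom_quasiIso (h : KExact x) : QuasiIso (augHom x) where
  quasiIsoAt m := by
    cases m with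
    | zero =>
      rw [ChainComplex.quasiIsoAt₀_iff, ShortComplex.quasiIso_iff_of_zeros' _ rfl rfl rfl]
      constructor
      · rw [ShortComplex.moduleCat_exact_iff_range_eq_ker]
        have h2 : (KM x S).d 1 0 = ModuleCat.ofHom (kd x S 0) := KM_d x S 0
        change LinearMap.range ((KM x S).d 1 0).hom = LinearMap.ker ((augHom x).f 0).hom
        rw [augHom_f_zero, h2]
        exact range_kd_zero x
      · rw [ModuleCat.epi_iff_surjective]
        change Function.Surjective ((augHom x).f 0)
        rw [augHom_f_zero]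
        intro y
        obtain ⟨s, rfl⟩ := Submodule.Quotient.mk_surjective _ y
        exact ⟨fun _ => s, rfl⟩
    | succ m =>
      rw [quasiIsoAt_iff_exactAt' (hL := ChainComplex.exactAt_succ_single_obj ..),
          HomologicalComplex.exactAt_iff' _ (m + 2) (m + 1) m (by simp) (by simp),
          ShortComplex.moduleCat_exact_iff]
      intro f hf
      change (KM x S).d (m + 1) m f = 0 at hf
      rw [KM_d] at hf
      obtain ⟨g, hg⟩ := h m f hf
      refine ⟨g, ?_⟩
      change (KM x S).d (m + 1 + 1) (m + 1) g = f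
      rw [KM_d]
      exact hg

instance (i : ℕ) : Projective ((KM x S).X i) :=
  inferInstanceAs (Projective (ModuleCat.of S (Sub V i → S)))

/-- The Koszul resolution. -/
noncomputable def kRes (h : KExact x) : ProjectiveResolution (ModuleCat.of S (Res x)) where
  complex := KM x S
  π := augHom x
  quasiIso := augHom_quasiIso x h

/-- Computation of Tor. -/
noncomputable def torIso (h : KExact x) (i : ℕ) :
    ((Tor (ModuleCat.{0} S) i).obj (ModuleCat.of S M)).obj (ModuleCat.of S (Res x)) ≅
      (KM x M).homology i :=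
  (kRes x h).isoLeftDerivedObj _ i ≪≫
    (HomologicalComplex.homologyFunctor _ _ i).mapIso (tensorIso x M)

end Complex

end Pool.Agent.Helper16.Koszul
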