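import Mathlib
import Pool.Agent.Helper16.Koszul

namespace Pool.Agent.Helper16.Koszul

open CategoryTheory

variable {k S : Type} [Field k] [CommRing S] [Algebra k S]

lemma finrank_iso {T T' : ModuleCat.{0} S} (e : T ≅ T') :
    Module.finrank k ((ModuleCat.restrictScalars (algebraMap k S)).obj T) =
      Module.finrank k ((ModuleCat.restrictScalars (algebraMap k S)).obj T') :=
  LinearEquiv.finrank_eq ((ModuleCat.restrictScalars (algebraMap k S)).mapIso e).toLinearEquiv

lemma finrank_homology (Q : ShortComplex (ModuleCat.{0} S)) {W : Type} [AddCommMonoid W] [Module k W]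
    (Φ : LinearMap.ker Q.g.hom →+ W)
    (hΦ : ∀ (c : k) z, Φ ((algebraMap k S c) • z) = c • Φ z)
    (hsurj : Function.Surjective Φ)
    (hker : ∀ z : LinearMap.ker Q.g.hom, Φ z = 0 ↔ ∃ w, Q.f w = z.1) :
    Module.finrank k ((ModuleCat.restrictScalars (algebraMap k S)).obj Q.homology) =
      Module.finrank k W := by
  rw [finrank_iso Q.moduleCatHomologyIso]
  have hle : (LinearMap.range Q.moduleCatToCycles).toAddSubgroup ≤ Φ.ker := by
    rintro _ ⟨w, rfl⟩
    rw [AddMonoidHom.mem_ker, hker]
    exact ⟨w, rfl⟩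
  let Ψ : (ModuleCat.restrictScalars (algebraMap k S)).obj
      (Q.moduleCatLeftHomologyData.H) →ₗ[k] W :=
    { toFun := QuotientAddGroup.lift _ Φ hle
      map_add' := map_add _
      map_smul' := by
        intro c y
        obtain ⟨z, rfl⟩ := Submodule.Quotient.mk_surjective _ y
        exact hΦ c z }
  refine LinearEquiv.finrank_eq (LinearEquiv.ofBijective Ψ ⟨?_, ?_⟩)
  · rw [injective_iff_map_eq_zero]
    intro y hy
    obtain ⟨z, rfl⟩ := Submodule.Quotient.mk_surjective _ y
    obtain ⟨w, hw⟩ := (hker z).1 hy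
    exact (Submodule.Quotient.mk_eq_zero _).2 ⟨w, Subtype.ext hw⟩
  · intro w
    obtain ⟨z, hz⟩ := hsurj w
    exact ⟨Submodule.Quotient.mk z, hz⟩

variable {V : Type} [Fintype V] [LinearOrder V] (x : V → S) (M : Type) [AddCommGroup M] [Module S M]

/-- Koszul cycles. -/
def ZK (i : ℕ) : Submodule S (Sub V i → M) where
  carrier := {f | kdT x M (extend M i f) = 0}
  add_mem' := by
    intro f g hf hg
    have : extend M i (f + g) = extend M i f + extend M i g := by
      ext τ
      by_cases h : τ.card = i <;> simp [extend, h]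
    change kdT x M (extend M i (f + g)) = 0
    rw [this, map_add, hf, hg, add_zero]
  zero_mem' := by
    have : extend (V := V) M i 0 = 0 := by
      ext τ
      by_cases h : τ.card = i <;> simp [extend, h]
    change kdT x M (extend M i 0) = 0
    rw [this, map_zero]
  smul_mem' := by
    intro s f hf
    have : extend M i (s • f) = s • extend M i f := by
      ext τ
      by_cases h : τ.card = i <;> simp [extend, h]
    change kdT x M (extend M i (s • f)) = 0
    rw [this, map_smul, hf, smul_zero]

variable {M}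

lemma mem_ZK {i : ℕ} {f : Sub V i → M} : f ∈ ZK x M i ↔ kdT x M (extend M i f) = 0 := Iff.rfl

lemma mem_ZK_zero (f : Sub V 0 → M) : f ∈ ZK x M 0 := by
  rw [mem_ZK]
  ext σ
  rw [kdT_apply]
  apply Finset.sum_eq_zero
  intro j hj
  rw [Finset.mem_compl] at hj
  rw [extend_of_ne, smul_zero, smul_zero]
  rw [Finset.card_insert_of_notMem hj]
  omega

lemma mem_ZK_succ {i : ℕ} (f : Sub V (i + 1) → M) : f ∈ ZK x M (i + 1) ↔ kd x M i f = 0 := by
  rw [mem_ZK, ← extend_kd]
  constructor
  · intro h
    apply extend_injective i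
    rw [h]
    ext τ
    simp [extend]
  · intro h
    rw [h]
    ext τ
    simp [extend]

variable (M) in
lemma finrank_KM (i : ℕ) {W : Type} [AddCommMonoid W] [Module k W]
    (Φ : ZK x M i →+ W)
    (hΦ : ∀ (c : k) z, Φ ((algebraMap k S c) • z) = c • Φ z)
    (hsurj : Function.Surjective Φ)
    (hker : ∀ z : ZK x M i, Φ z = 0 ↔ ∃ w, kd x M i w = z.1) :
    Module.finrank k ((ModuleCat.restrictScalars (algebraMap k S)).obj ((KM x M).homology i)) =
      Module.finrank k W := by
  obtain ⟨j, hj, hZ⟩ : ∃ j, (ComplexShape.down ℕ).next i = j ∧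
      ∀ f : Sub V i → M, f ∈ ZK x M i ↔ (KM x M).d i j f = 0 := by
    cases i with
    | zero =>
      refine ⟨0, by simp, fun f => ?_⟩
      rw [HomologicalComplex.shape _ _ _ (by simp)]
      exact ⟨fun _ => rfl, fun _ => mem_ZK_zero x f⟩
    | succ i =>
      refine ⟨i, by simp, fun f => ?_⟩
      rw [mem_ZK_succ, KM_d]
      rfl
  refine (finrank_iso (k := k) (ShortComplex.homologyMapIso
    ((KM x M).isoSc' (i + 1) i j (by simp) hj))).trans ?_
  let e : LinearMap.ker ((KM x M).sc' (i + 1) i j).g.hom ≃+ ZK x M i :=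
    { toFun := fun z => ⟨z.1, (hZ _).2 z.2⟩
      invFun := fun z => ⟨z.1, (hZ _).1 z.2⟩
      left_inv := fun _ => rfl
      right_inv := fun _ => rfl
      map_add' := fun _ _ => rfl }
  refine finrank_homology _ (Φ.comp e.toAddMonoidHom) ?_ ?_ ?_
  · intro c z
    exact hΦ c (e z)
  · exact hsurj.comp e.surjective
  · intro z
    refine (hker (e z)).trans ?_
    have : ∀ w, ((KM x M).sc' (i + 1) i j).f w = kd x M i w := by
      intro w
      change (KM x M).d (i + 1) i w = _
      rw [KM_d]
      rfl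
    constructor
    · rintro ⟨w, hw⟩
      exact ⟨w, (this w).trans hw⟩
    · rintro ⟨w, hw⟩
      exact ⟨w, (this w).symm.trans hw⟩

end Pool.Agent.Helper16.Koszul
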