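import Mathlib
import Pool.Agent.Helper16.KoszulRank

set_option linter.unusedSectionVars false

namespace Pool.Agent.Helper16.Koszul

open Finset MvPolynomial

variable {V : Type} [Fintype V] [LinearOrder V] {k : Type} [Field k]

/-! ### relative chain complexes of families of finite sets -/

variable (k) in
/-- chains of size `i` supported on `P` -/
def CC (P : Set (Finset V)) (i : ℕ) : Submodule k (Finset V → k) where
  carrier := {c | ∀ τ, c τ ≠ 0 → τ ∈ P ∧ τ.card = i}
  add_mem' := by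
    intro c e hc he τ h
    by_cases h1 : c τ = 0
    · exact he τ (fun h2 => h (by rw [Pi.add_apply, h1, h2, add_zero]))
    · exact hc τ h1
  zero_mem' := fun τ h => absurd rfl h
  smul_mem' := by
    intro a c hc τ h
    exact hc τ (fun h1 => h (by rw [Pi.smul_apply, h1, smul_zero]))

lemma mem_CC {P : Set (Finset V)} {i : ℕ} {c : Finset V → k} :
    c ∈ CC k P i ↔ ∀ τ, c τ ≠ 0 → τ ∈ P ∧ τ.card = i := Iff.rfl

variable (k V) in
/-- the total boundary -/
abbrev bdT : (Finset V → k) →ₗ[k] (Finset V → k) := kdT (fun _ : V => (1 : k)) k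

open Classical in
variable (k) in
/-- the relative boundary -/
noncomputable def bd (P : Set (Finset V)) : (Finset V → k) →ₗ[k] (Finset V → k) where
  toFun c σ := if σ ∈ P then bdT V k c σ else 0
  map_add' c e := by
    ext σ
    by_cases h : σ ∈ P <;> simp [h, map_add]
  map_smul' a c := by
    ext σ
    by_cases h : σ ∈ P <;> simp [h, map_smul]

lemma bd_of_mem {P : Set (Finset V)} {c : Finset V → k} {σ : Finset V} (h : σ ∈ P) :
    bd k P c σ = bdT V k c σ := if_pos h

lemma bd_of_notMem {P : Set (Finset V)} {c : Finset V → k} {σ : Finset V} (h : σ ∉ P) :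
    bd k P c σ = 0 := if_neg h

lemma bdT_apply (c : Finset V → k) (σ : Finset V) :
    bdT V k c σ = ∑ j ∈ σᶜ, sgn j σ • c (insert j σ) := by
  rw [kdT_apply]
  simp

lemma bdT_eq_zero_of {c : Finset V → k} {σ : Finset V}
    (h : ∀ j ∉ σ, c (insert j σ) = 0) : bdT V k c σ = 0 := by
  rw [bdT_apply]
  apply Finset.sum_eq_zero
  intro j hj
  rw [Finset.mem_compl] at hj
  rw [h j hj, smul_zero]

lemma exists_of_bdT_ne {c : Finset V → k} {σ : Finset V} (h : bdT V k c σ ≠ 0) :
    ∃ j ∉ σ, c (insert j σ) ≠ 0 := by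
  by_contra hn
  push Not at hn
  exact h (bdT_eq_zero_of hn)

lemma bd_mem_CC {P : Set (Finset V)} {i : ℕ} {c : Finset V → k} (hc : c ∈ CC k P (i + 1)) :
    bd k P c ∈ CC k P i := by
  intro σ h
  by_cases hσ : σ ∈ P
  · rw [bd_of_mem hσ] at h
    obtain ⟨j, hj, hne⟩ := exists_of_bdT_ne h
    have := (hc _ hne).2
    rw [Finset.card_insert_of_notMem hj] at this
    exact ⟨hσ, by omega⟩
  · exact absurd (bd_of_notMem hσ) h

lemma bd_zero_level {P : Set (Finset V)} {c : Finset V → k} (hc : c ∈ CC k P 0) :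
    bd k P c = 0 := by
  ext σ
  by_cases hσ : σ ∈ P
  · rw [bd_of_mem hσ]
    apply bdT_eq_zero_of
    intro j hj
    by_contra hne
    have := (hc _ hne).2
    rw [Finset.card_insert_of_notMem hj] at this
    omega
  · exact bd_of_notMem hσ

/-- For a down-closed family the relative boundary is the total boundary. -/
lemma bd_eq_bdT {P : Set (Finset V)} (hP : IsLowerSet P) {i : ℕ} {c : Finset V → k}
    (hc : c ∈ CC k P i) : bd k P c = bdT V k c := by
  ext σ
  by_cases hσ : σ ∈ P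
  · exact bd_of_mem hσ
  · rw [bd_of_notMem hσ]
    by_contra hne
    obtain ⟨j, hj, hne⟩ := exists_of_bdT_ne (Ne.symm hne)
    exact hσ (hP (Finset.subset_insert j σ) (hc _ hne).1)

lemma bd_bd {P : Set (Finset V)} (hP : P.OrdConnected) {i : ℕ} {c : Finset V → k}
    (hc : c ∈ CC k P i) : bd k P (bd k P c) = 0 := by
  ext σ
  by_cases hσ : σ ∈ P
  · rw [bd_of_mem hσ, bdT_apply]
    have h0 : bdT V k (bdT V k c) σ = 0 := by rw [kdT_kdT]; rfl
    rw [bdT_apply] at h0
    rw [Pi.zero_apply, ← h0]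
    refine Finset.sum_congr rfl fun j hj => ?_
    congr 1
    by_cases hj' : insert j σ ∈ P
    · exact bd_of_mem hj'
    · rw [bd_of_notMem hj']
      by_contra hne
      obtain ⟨l, hl, hne⟩ := exists_of_bdT_ne (Ne.symm hne)
      exact hj' (hP.out hσ (hc _ hne).1 ⟨Finset.subset_insert _ _, Finset.subset_insert _ _⟩)
  · rw [bd_of_notMem hσ]; rfl

variable (k) in
/-- Exactness at size `i`. -/
def Ex (P : Set (Finset V)) (i : ℕ) : Prop :=
  ∀ c ∈ CC k P i, bd k P c = 0 → ∃ e ∈ CC k P (i + 1), bd k P e = c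

variable (k) in
/-- cycles -/
noncomputable def ZZ (P : Set (Finset V)) (i : ℕ) : Submodule k (Finset V → k) :=
  CC k P i ⊓ LinearMap.ker (bd k P)

variable (k) in
/-- image of the boundary on chains of size `i` -/
noncomputable def BB (P : Set (Finset V)) (i : ℕ) : Submodule k (Finset V → k) :=
  (CC k P i).map (bd k P)

variable (k) in
/-- homology -/
abbrev HH (P : Set (Finset V)) (i : ℕ) : Type := ZZ k P i ⧸ (BB k P (i + 1)).submoduleOf (ZZ k P i)

/-! ### the multigraded strands -/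

/-- indicator exponent -/
noncomputable def ind (τ : Finset V) : V →₀ ℕ := ∑ j ∈ τ, Finsupp.single j 1

lemma ind_apply (τ : Finset V) (j : V) : ind τ j = if j ∈ τ then 1 else 0 := by
  rw [ind, Finsupp.finsetSum_apply]
  simp [Finsupp.single_apply]

lemma ind_insert {τ : Finset V} {j : V} (h : j ∉ τ) :
    ind (insert j τ) = Finsupp.single j 1 + ind τ := by
  rw [ind, Finset.sum_insert h, ind]

lemma ind_le_iff {τ : Finset V} {b : V →₀ ℕ} : ind τ ≤ b ↔ ∀ j ∈ τ, 1 ≤ b j := by
  constructor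
  · intro h j hj
    have := h j
    rw [ind_apply, if_pos hj] at this
    exact this
  · intro h j
    rw [ind_apply]
    split_ifs with hj
    · exact h j hj
    · exact Nat.zero_le _

lemma ind_mono {σ τ : Finset V} (h : σ ⊆ τ) : ind σ ≤ ind τ := by
  rw [ind_le_iff]
  intro j hj
  rw [ind_apply, if_pos (h hj)]

/-- the upper Koszul complex in degree `b` -/
def Kb (U : Set (V →₀ ℕ)) (b : V →₀ ℕ) : Set (Finset V) := {τ | ind τ ≤ b ∧ b - ind τ ∈ U}

lemma Kb_lower {U : Set (V →₀ ℕ)} (hU : IsUpperSet U) (b : V →₀ ℕ) : IsLowerSet (Kb U b) := by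
  intro τ σ h hτ
  refine ⟨(ind_mono h).trans hτ.1, hU ?_ hτ.2⟩
  exact tsub_le_tsub_left (ind_mono h) b

/-- degree `b` component -/
noncomputable def comp (b : V →₀ ℕ) (F : Finset V → MvPolynomial V k) : Finset V → k :=
  open Classical in fun τ => if ind τ ≤ b then coeff (b - ind τ) (F τ) else 0

lemma comp_add (b : V →₀ ℕ) (F G : Finset V → MvPolynomial V k) :
    comp b (F + G) = comp b F + comp b G := by
  ext τ
  by_cases h : ind τ ≤ b <;> simp [comp, h]

lemma comp_kdT (b : V →₀ ℕ) (F : Finset V → MvPolynomial V k) :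
    comp b (kdT (X : V → MvPolynomial V k) (MvPolynomial V k) F) = bdT V k (comp b F) := by
  ext σ
  rw [bdT_apply]
  by_cases h : ind σ ≤ b
  · rw [comp, if_pos h, kdT_apply, coeff_sum]
    refine Finset.sum_congr rfl fun j hj => ?_
    rw [Finset.mem_compl] at hj
    rw [coeff_smul, smul_eq_mul]
    congr 1
    rw [coeff_X_mul', comp]
    have h2 : (j ∈ (b - ind σ).support) ↔ ind (insert j σ) ≤ b := by
      rw [Finsupp.mem_support_iff, Finsupp.tsub_apply, ind_apply, if_neg hj, ind_le_iff]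
      constructor
      · intro h3 l hl
        rcases Finset.mem_insert.1 hl with rfl | hl
        · omega
        · exact ind_le_iff.1 h l hl
      · intro h3
        have := h3 j (Finset.mem_insert_self _ _)
        omega
    by_cases h3 : ind (insert j σ) ≤ b
    · rw [if_pos (h2.2 h3), if_pos h3, ind_insert hj, tsub_add_eq_tsub_tsub_swap]
    · rw [if_neg (fun h4 => h3 (h2.1 h4)), if_neg h3]
  · rw [comp, if_neg h]
    symm
    apply Finset.sum_eq_zero
    intro j hj
    rw [comp, if_neg, smul_zero]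
    intro h1
    exact h ((ind_mono (Finset.subset_insert j σ)).trans h1)

/-! ### monomial ideals -/

variable (k) in
/-- the monomial ideal of an upper set -/
noncomputable def IU (U : Set (V →₀ ℕ)) : Ideal (MvPolynomial V k) :=
  Ideal.span ((fun s => monomial s (1 : k)) '' U)

lemma mem_IU {U : Set (V →₀ ℕ)} (hU : IsUpperSet U) {p : MvPolynomial V k} :
    p ∈ IU k U ↔ ∀ a, coeff a p ≠ 0 → a ∈ U := by
  rw [IU, mem_ideal_span_monomial_image]
  constructor
  · intro h a ha
    obtain ⟨s, hs, hle⟩ := h a (mem_support_iff.2 ha)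
    exact hU hle hs
  · intro h a ha
    exact ⟨a, h a (mem_support_iff.1 ha), le_rfl⟩

variable {U : Set (V →₀ ℕ)}

/-- degree `b` component of a chain with values in the ideal -/
noncomputable def cmp (b : V →₀ ℕ) {i : ℕ} (f : Sub V i → IU k U) : Finset V → k :=
  comp b (fun τ => ((extend (IU k U) i f τ : IU k U) : MvPolynomial V k))

lemma cmp_apply (b : V →₀ ℕ) {i : ℕ} (f : Sub V i → IU k U) (τ : Sub V i) (h : ind τ.1 ≤ b) :
    cmp b f τ.1 = coeff (b - ind τ.1) (f τ : MvPolynomial V k) := by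
  rw [cmp, comp, if_pos h, extend_apply]

lemma cmp_apply_of_not (b : V →₀ ℕ) {i : ℕ} (f : Sub V i → IU k U) (τ : Finset V)
    (h : ¬ ind τ ≤ b) : cmp b f τ = 0 := by
  rw [cmp, comp, if_neg h]

lemma cmp_apply_of_ne (b : V →₀ ℕ) {i : ℕ} (f : Sub V i → IU k U) (τ : Finset V)
    (h : τ.card ≠ i) : cmp b f τ = 0 := by
  rw [cmp, comp]
  split_ifs
  · rw [extend_of_ne f h]; simp
  · rfl

lemma cmp_mem (hU : IsUpperSet U) (b : V →₀ ℕ) {i : ℕ} (f : Sub V i → IU k U) :
    cmp b f ∈ CC k (Kb U b) i := by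
  intro τ h
  have h1 : ind τ ≤ b := by
    by_contra h1; exact h (cmp_apply_of_not b f τ h1)
  have h2 : τ.card = i := by
    by_contra h2; exact h (cmp_apply_of_ne b f τ h2)
  refine ⟨⟨h1, ?_⟩, h2⟩
  rw [cmp_apply b f ⟨τ, h2⟩ h1] at h
  exact (mem_IU hU).1 (f ⟨τ, h2⟩).2 _ h

lemma coe_kdT (F : Finset V → IU k U) (σ : Finset V) :
    ((kdT (X : V → MvPolynomial V k) (IU k U) F σ : IU k U) : MvPolynomial V k) =
      kdT (X : V → MvPolynomial V k) (MvPolynomial V k) (fun τ => (F τ : MvPolynomial V k)) σ := by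
  rw [kdT_apply, kdT_apply]
  simp

lemma cmp_kd (hU : IsUpperSet U) (b : V →₀ ℕ) {i : ℕ} (f : Sub V (i + 1) → IU k U) :
    cmp b (kd (X : V → MvPolynomial V k) (IU k U) i f) = bd k (Kb U b) (cmp b f) := by
  rw [bd_eq_bdT (Kb_lower hU b) (cmp_mem hU b f), cmp, extend_kd, cmp, ← comp_kdT]
  congr 1
  ext σ : 1
  exact coe_kdT _ σ

lemma cmp_cycle (hU : IsUpperSet U) (b : V →₀ ℕ) {i : ℕ} {f : Sub V i → IU k U}
    (hf : f ∈ ZK (X : V → MvPolynomial V k) (IU k U) i) :
    cmp b f ∈ ZZ k (Kb U b) i := by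
  refine ⟨cmp_mem hU b f, ?_⟩
  change bd k (Kb U b) (cmp b f) = 0
  rw [bd_eq_bdT (Kb_lower hU b) (cmp_mem hU b f), cmp, ← comp_kdT]
  have h : (kdT (X : V → MvPolynomial V k) (MvPolynomial V k)
      fun τ => ((extend (IU k U) i f τ : IU k U) : MvPolynomial V k)) = 0 := by
    ext1 σ
    rw [← coe_kdT, (mem_ZK _).1 hf]
    rfl
  rw [h]
  ext τ
  simp [comp]

lemma cmp_add (b : V →₀ ℕ) {i : ℕ} (f g : Sub V i → IU k U) :
    cmp b (f + g) = cmp b f + cmp b g := by
  ext τ
  by_cases h : τ.card = i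
  · by_cases h1 : ind τ ≤ b
    · rw [Pi.add_apply, cmp_apply b _ ⟨τ, h⟩ h1, cmp_apply b _ ⟨τ, h⟩ h1, cmp_apply b _ ⟨τ, h⟩ h1]
      simp
    · rw [Pi.add_apply, cmp_apply_of_not _ _ _ h1, cmp_apply_of_not _ _ _ h1,
        cmp_apply_of_not _ _ _ h1, add_zero]
  · rw [Pi.add_apply, cmp_apply_of_ne _ _ _ h, cmp_apply_of_ne _ _ _ h, cmp_apply_of_ne _ _ _ h,
      add_zero]

lemma cmp_smul (b : V →₀ ℕ) {i : ℕ} (c : k) (f : Sub V i → IU k U) :
    cmp b ((algebraMap k (MvPolynomial V k) c) • f) = c • cmp b f := by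
  ext τ
  by_cases h : τ.card = i
  · by_cases h1 : ind τ ≤ b
    · rw [Pi.smul_apply, cmp_apply b _ ⟨τ, h⟩ h1, cmp_apply b _ ⟨τ, h⟩ h1]
      simp [algebraMap_eq]
    · rw [Pi.smul_apply, cmp_apply_of_not _ _ _ h1, cmp_apply_of_not _ _ _ h1, smul_zero]
  · rw [Pi.smul_apply, cmp_apply_of_ne _ _ _ h, cmp_apply_of_ne _ _ _ h, smul_zero]

/-- assembling a chain from its component -/
noncomputable def asm (hU : IsUpperSet U) (b : V →₀ ℕ) {i : ℕ} (c : CC k (Kb U b) i) :
    Sub V i → IU k U :=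
  fun τ => ⟨monomial (b - ind τ.1) (c.1 τ.1), by
    rw [mem_IU hU]
    intro a ha
    rw [coeff_monomial] at ha
    split_ifs at ha with h
    · rw [← h]
      exact (c.2 _ ha).1.2
    · exact absurd rfl ha⟩

lemma cmp_asm (hU : IsUpperSet U) (b b' : V →₀ ℕ) {i : ℕ} (c : CC k (Kb U b) i) :
    cmp b' (asm hU b c) = if b = b' then c.1 else 0 := by
  classical
  ext τ
  by_cases h : τ.card = i
  · by_cases h1 : ind τ ≤ b'
    · rw [cmp_apply b' _ ⟨τ, h⟩ h1, asm]
      simp only [coeff_monomial]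
      by_cases hb : b = b'
      · subst hb
        simp
      · rw [if_neg hb]
        by_cases hc : c.1 τ = 0
        · rw [hc]; simp
        · rw [if_neg]
          · rfl
          · intro h2
            apply hb
            rw [← tsub_add_cancel_of_le (c.2 _ hc).1.1, h2, tsub_add_cancel_of_le h1]
    · rw [cmp_apply_of_not _ _ _ h1]
      by_cases hb : b = b'
      · subst hb
        rw [if_pos rfl]
        by_contra hne
        exact h1 (c.2 _ (Ne.symm hne)).1.1
      · rw [if_neg hb]; rfl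
  · rw [cmp_apply_of_ne _ _ _ h]
    by_cases hb : b = b'
    · rw [if_pos hb]
      by_contra hne
      exact h (c.2 _ (Ne.symm hne)).2
    · rw [if_neg hb]; rfl

lemma ext_cmp {i : ℕ} {f g : Sub V i → IU k U} (h : ∀ b, cmp b f = cmp b g) : f = g := by
  funext τ
  apply Subtype.ext
  ext a
  have h1 := congrFun (h (a + ind τ.1)) τ.1
  have h2 : ind τ.1 ≤ a + ind τ.1 := by simp
  rwa [cmp_apply _ _ _ h2, cmp_apply _ _ _ h2, add_tsub_cancel_right] at h1

/-- the finitely many degrees in which a chain lives -/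
lemma exists_support {i : ℕ} (f : Sub V i → IU k U) :
    ∃ T : Finset (V →₀ ℕ), ∀ b, b ∉ T → cmp b f = 0 := by
  classical
  refine ⟨Finset.univ.biUnion (fun τ : Sub V i => (f τ : MvPolynomial V k).support.image
    (fun a => a + ind τ.1)), fun b hb => ?_⟩
  ext τ
  by_contra hne
  have hne' : cmp b f τ ≠ 0 := hne
  have h1 : ind τ ≤ b := by
    by_contra h1; exact hne' (cmp_apply_of_not b f τ h1)
  have h2 : τ.card = i := by
    by_contra h2; exact hne' (cmp_apply_of_ne b f τ h2)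
  rw [cmp_apply b f ⟨τ, h2⟩ h1] at hne'
  apply hb
  rw [Finset.mem_biUnion]
  refine ⟨⟨τ, h2⟩, Finset.mem_univ _, ?_⟩
  rw [Finset.mem_image]
  exact ⟨b - ind τ, mem_support_iff.2 hne', tsub_add_cancel_of_le h1⟩

lemma cmp_sum {ι : Type} (T : Finset ι) {i : ℕ} (f : ι → Sub V i → IU k U) (b : V →₀ ℕ) :
    cmp b (∑ t ∈ T, f t) = ∑ t ∈ T, cmp b (f t) := by
  classical
  induction T using Finset.induction_on with
  | empty =>
    rw [Finset.sum_empty, Finset.sum_empty]
    ext τ
    by_cases h : τ.card = i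
    · by_cases h1 : ind τ ≤ b
      · rw [cmp_apply b _ ⟨τ, h⟩ h1]; simp
      · rw [cmp_apply_of_not _ _ _ h1]; rfl
    · rw [cmp_apply_of_ne _ _ _ h]; rfl
  | insert a T ha ih => rw [Finset.sum_insert ha, Finset.sum_insert ha, cmp_add, ih]

lemma cmp_sum_asm (hU : IsUpperSet U) (T : Finset (V →₀ ℕ)) {i : ℕ}
    (c : ∀ b, CC k (Kb U b) i) (b : V →₀ ℕ) :
    cmp b (∑ t ∈ T, asm hU t (c t)) = if b ∈ T then (c b).1 else 0 := by
  classical
  rw [cmp_sum]
  simp only [cmp_asm]
  by_cases hb : b ∈ T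
  · rw [if_pos hb, Finset.sum_eq_single b]
    · rw [if_pos rfl]
    · intro t _ hne
      rw [if_neg hne]
    · intro h; exact absurd hb h
  · rw [if_neg hb]
    apply Finset.sum_eq_zero
    intro t ht
    rw [if_neg]
    rintro rfl
    exact hb ht

/-- A chain is a boundary iff all its components are. -/
lemma exists_kd_iff (hU : IsUpperSet U) {i : ℕ} (f : Sub V i → IU k U) :
    (∃ w, kd (X : V → MvPolynomial V k) (IU k U) i w = f) ↔ ∀ b, cmp b f ∈ BB k (Kb U b) (i + 1) := by
  constructor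
  · rintro ⟨w, rfl⟩ b
    rw [cmp_kd hU]
    exact ⟨_, cmp_mem hU b w, rfl⟩
  · intro h
    choose e he hbe using h
    obtain ⟨T, hT⟩ := exists_support f
    refine ⟨∑ t ∈ T, asm hU t ⟨e t, he t⟩, ?_⟩
    apply ext_cmp
    intro b
    rw [cmp_kd hU, cmp_sum_asm hU T (fun t => ⟨e t, he t⟩) b]
    by_cases hb : b ∈ T
    · rw [if_pos hb]
      exact hbe b
    · rw [if_neg hb, hT b hb, map_zero]

lemma kd_cycle_iff (hU : IsUpperSet U) {i : ℕ} (f : Sub V i → IU k U) :
    f ∈ ZK (X : V → MvPolynomial V k) (IU k U) i ↔ ∀ b, cmp b f ∈ ZZ k (Kb U b) i := by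
  constructor
  · intro h b
    exact cmp_cycle hU b h
  · intro h
    rw [mem_ZK]
    cases i with
    | zero => exact mem_ZK_zero _ f
    | succ i =>
      have h1 : kd (X : V → MvPolynomial V k) (IU k U) i f = 0 := by
        apply ext_cmp
        intro b
        rw [cmp_kd hU, LinearMap.mem_ker.1 (h b).2]
        have := cmp_sum (∅ : Finset (Fin 0)) (fun _ => (0 : Sub V i → IU k U)) b
        simpa using this.symm
      exact (mem_ZK_succ _ f).2 h1

end Pool.Agent.Helper16.Koszul
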