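import Mathlib
import Pool.Agent.Helper16.KoszulStrand

set_option linter.unusedSectionVars false

namespace Pool.Agent.Helper16.Koszul

open Finset MvPolynomial CategoryTheory

variable {V : Type} [Fintype V] [LinearOrder V] {k : Type} [Field k]

/-! ### the homology of the Koszul complex of a monomial ideal -/

theorem finrank_homology_KM {U : Set (V →₀ ℕ)} (hU : IsUpperSet U) (i : ℕ) (B : Finset (V →₀ ℕ))
    (hB : ∀ b ∉ B, Ex k (Kb U b) i) :
    Module.finrank k ((ModuleCat.restrictScalars (algebraMap k (MvPolynomial V k))).obj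
      ((KM (X : V → MvPolynomial V k) (IU k U)).homology i)) =
      ∑ b ∈ B, Module.finrank k (HH k (Kb U b) i) := by
  classical
  let Φ : ZK (X : V → MvPolynomial V k) (IU k U) i →+ (∀ b : B, HH k (Kb U b.1) i) :=
    { toFun := fun z b => Submodule.Quotient.mk ⟨cmp b.1 z.1, cmp_cycle hU b.1 z.2⟩
      map_zero' := by
        funext b
        rw [Pi.zero_apply, Submodule.Quotient.mk_eq_zero]
        have : (⟨cmp b.1 (0 : ZK (X : V → MvPolynomial V k) (IU k U) i).1,
          cmp_cycle hU b.1 (0 : ZK (X : V → MvPolynomial V k) (IU k U) i).2⟩ :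
            ZZ k (Kb U b.1) i) = 0 := by
          apply Subtype.ext
          have := cmp_sum (∅ : Finset (Fin 0)) (fun _ => (0 : Sub V i → IU k U)) b.1
          simpa using this
        rw [this]
        exact zero_mem _
      map_add' := by
        intro z w
        funext b
        rw [Pi.add_apply, ← Submodule.Quotient.mk_add]
        congr 1
        apply Subtype.ext
        exact cmp_add _ _ _ }
  have h1 := finrank_KM (k := k) (X : V → MvPolynomial V k) (IU k U) i
    (W := ∀ b : B, HH k (Kb U b.1) i) Φ ?_ ?_ ?_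
  · have hfree : ∀ b : B, Module.Free k (HH k (Kb U b.1) i) :=
      fun b => Module.Free.of_divisionRing k _
    have hfin : ∀ b : B, Module.Finite k (HH k (Kb U b.1) i) := fun b => inferInstance
    rw [h1, Module.finrank_pi_fintype]
    rw [Finset.sum_coe_sort B (fun b => Module.finrank k (HH k (Kb U b) i))]
  · intro c z
    funext b
    rw [Pi.smul_apply]
    change Submodule.Quotient.mk _ = c • Submodule.Quotient.mk _
    rw [← Submodule.Quotient.mk_smul]
    congr 1
    apply Subtype.ext
    exact cmp_smul _ _ _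
  · intro w
    choose y hy using fun b : B => Submodule.Quotient.mk_surjective _ (w b)
    let c : ∀ b, CC k (Kb U b) i := fun b => if h : b ∈ B then ⟨(y ⟨b, h⟩).1, (y ⟨b, h⟩).2.1⟩ else 0
    have hc : ∀ b (h : b ∈ B), (c b).1 = (y ⟨b, h⟩).1 := by
      intro b h
      simp only [c, dif_pos h]
    have hcyc : (∑ t ∈ B, asm hU t (c t)) ∈ ZK (X : V → MvPolynomial V k) (IU k U) i := by
      rw [kd_cycle_iff hU]
      intro b
      rw [cmp_sum_asm]
      by_cases hb : b ∈ B
      · rw [if_pos hb, hc b hb]
        exact (y ⟨b, hb⟩).2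
      · rw [if_neg hb]
        exact zero_mem _
    refine ⟨⟨_, hcyc⟩, ?_⟩
    funext b
    rw [← hy b]
    change Submodule.Quotient.mk _ = Submodule.Quotient.mk _
    congr 1
    apply Subtype.ext
    change cmp b.1 (∑ t ∈ B, asm hU t (c t)) = _
    rw [cmp_sum_asm, if_pos b.2, hc b.1 b.2]
  · intro z
    rw [exists_kd_iff hU]
    constructor
    · intro h b
      by_cases hb : b ∈ B
      · have h2 := congrFun h ⟨b, hb⟩
        have h3 := (Submodule.Quotient.mk_eq_zero _).1 h2
        exact h3
      · obtain ⟨e, he, hbe⟩ := hB b hb _ (cmp_cycle hU b z.2).1 (cmp_cycle hU b z.2).2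
        exact ⟨e, he, hbe⟩
    · intro h
      funext b
      exact (Submodule.Quotient.mk_eq_zero _).2 (h b.1)

/-! ### exactness criteria -/

lemma Ex_of_empty {P : Set (Finset V)} {i : ℕ} (h : ∀ τ ∈ P, τ.card ≠ i) : Ex k P i := by
  intro c hc _
  refine ⟨0, zero_mem _, ?_⟩
  rw [map_zero]
  ext τ
  by_contra hne
  exact h τ (hc τ (Ne.symm hne)).1 (hc τ (Ne.symm hne)).2

lemma Ex_of_toggle {P : Set (Finset V)} (v : V)
    (h : ∀ τ ∈ P, insert v τ ∈ P ∧ τ.erase v ∈ P) (i : ℕ) : Ex k P i := by
  intro c hc hbd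
  let e : Finset V → k := fun τ => if v ∈ τ then sgn v (τ.erase v) • c (τ.erase v) else 0
  have he1 : ∀ τ, v ∈ τ → e τ = sgn v (τ.erase v) • c (τ.erase v) := fun τ hτ => if_pos hτ
  have he2 : ∀ τ, v ∉ τ → e τ = 0 := fun τ hτ => if_neg hτ
  refine ⟨e, ?_, ?_⟩
  · intro τ hτ
    by_cases hv : v ∈ τ
    · rw [he1 τ hv] at hτ
      have h1 : c (τ.erase v) ≠ 0 := fun h0 => hτ (by rw [h0, smul_zero])
      have h2 := hc _ h1
      have h3 := (h _ h2.1).1
      rw [Finset.insert_erase hv] at h3
      refine ⟨h3, ?_⟩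
      rw [← h2.2, Finset.card_erase_of_mem hv]
      have := Finset.card_pos.2 ⟨v, hv⟩
      omega
    · exact absurd (he2 τ hv) hτ
  · ext σ
    by_cases hσ : σ ∈ P
    · rw [bd_of_mem hσ, bdT_apply]
      by_cases hv : v ∈ σ
      · have hσ' := (h σ hσ).2
        have h0 : bd k P c (σ.erase v) = 0 := by rw [hbd]; rfl
        rw [bd_of_mem hσ', bdT_apply] at h0
        have hcompl : (σ.erase v)ᶜ = insert v σᶜ := by
          ext l
          simp only [Finset.mem_compl, Finset.mem_erase, Finset.mem_insert, not_and]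
          tauto
        have hvn : v ∉ σᶜ := by simpa using hv
        rw [hcompl, Finset.sum_insert hvn, Finset.insert_erase hv] at h0
        have h1 : ∑ j ∈ σᶜ, sgn j σ • e (insert j σ) =
            ∑ j ∈ σᶜ, (-sgn v (σ.erase v)) • (sgn j (σ.erase v) • c (insert j (σ.erase v))) := by
          refine Finset.sum_congr rfl fun j hj => ?_
          rw [Finset.mem_compl] at hj
          have hjv : j ≠ v := fun e => hj (e ▸ hv)
          rw [he1 _ (Finset.mem_insert_of_mem hv), Finset.erase_insert_of_ne hjv, smul_smul,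
            smul_smul]
          congr 1
          have h2 := sgn_swap (σ := σ.erase v) (j := v) (l := j) (by simp)
            (by simp [hj]) hjv.symm
          rw [Finset.insert_erase hv] at h2
          have h3 := sgn_mul_self v (σ.erase v)
          have h4 := sgn_mul_self v (insert j (σ.erase v))
          linear_combination (sgn v (σ.erase v) * sgn v (insert j (σ.erase v))) * h2 -
            (sgn j σ * sgn v (insert j (σ.erase v))) * h3 -
            (sgn v (σ.erase v) * sgn j (σ.erase v)) * h4
        rw [h1, ← Finset.smul_sum]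
        have h5 : ∑ j ∈ σᶜ, sgn j (σ.erase v) • c (insert j (σ.erase v)) =
            -(sgn v (σ.erase v) • c σ) := by
          rw [eq_neg_iff_add_eq_zero, add_comm]
          exact h0
        rw [h5, smul_neg, neg_smul, neg_neg, smul_smul, sgn_mul_self, one_smul]
      · rw [Finset.sum_eq_single v]
        · rw [he1 _ (Finset.mem_insert_self _ _), Finset.erase_insert hv, smul_smul, sgn_mul_self,
            one_smul]
        · intro j hj hjv
          rw [he2, smul_zero]
          simp [hv, Ne.symm hjv]
        · intro hn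
          exact absurd (Finset.mem_compl.2 hv) hn
    · rw [bd_of_notMem hσ]
      by_contra hne
      exact hσ (hc σ (Ne.symm hne)).1

/-- Truncation of a toggled family. -/
lemma Ex_of_trunc {Q : Set (Finset V)} (v : V)
    (h : ∀ τ ∈ Q, insert v τ ∈ Q ∧ τ.erase v ∈ Q) {i N : ℕ} (hi : i ≠ N) :
    Ex k {τ | τ ∈ Q ∧ τ.card ≤ N} i := by
  rcases lt_or_gt_of_ne hi with hi | hi
  · intro c hc hbd
    have hc' : c ∈ CC k Q i := fun τ hτ => ⟨(hc τ hτ).1.1, (hc τ hτ).2⟩
    have hbd' : bd k Q c = 0 := by
      ext σ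
      by_cases hσ : σ ∈ Q
      · rw [bd_of_mem hσ]
        by_cases hσN : σ.card ≤ N
        · rw [← bd_of_mem (P := {τ | τ ∈ Q ∧ τ.card ≤ N}) ⟨hσ, hσN⟩, hbd]
        · apply bdT_eq_zero_of
          intro j hj
          by_contra hne
          have := (hc _ hne).2
          rw [Finset.card_insert_of_notMem hj] at this
          omega
      · rw [bd_of_notMem hσ]; rfl
    obtain ⟨e, he, hbe⟩ := Ex_of_toggle v h i c hc' hbd'
    refine ⟨e, fun τ hτ => ⟨⟨(he τ hτ).1, by rw [(he τ hτ).2]; omega⟩, (he τ hτ).2⟩, ?_⟩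
    ext σ
    by_cases hσ : σ ∈ {τ | τ ∈ Q ∧ τ.card ≤ N}
    · rw [bd_of_mem hσ, ← bd_of_mem hσ.1, hbe]
    · rw [bd_of_notMem hσ]
      by_contra hne
      exact hσ (hc σ (Ne.symm hne)).1
  · apply Ex_of_empty
    rintro τ ⟨_, hτ⟩
    omega

/-- Exactness from the exactness of the fibres of a monotone function. -/
lemma Ex_of_fibres {P : Set (Finset V)} (hP : P.OrdConnected) (φ : Finset V → ℕ)
    (hφ : ∀ σ ∈ P, ∀ τ ∈ P, σ ⊆ τ → φ σ ≤ φ τ) {i : ℕ}
    (h : ∀ r, Ex k {τ | τ ∈ P ∧ φ τ = r} i) : Ex k P i := by
  have key : ∀ R, ∀ c ∈ CC k P i, bd k P c = 0 → (∀ τ, c τ ≠ 0 → φ τ < R) →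
      ∃ e ∈ CC k P (i + 1), bd k P e = c := by
    intro R
    induction R with
    | zero =>
      intro c _ _ h0
      refine ⟨0, zero_mem _, ?_⟩
      rw [map_zero]
      ext τ
      by_contra hne
      exact absurd (h0 τ (Ne.symm hne)) (Nat.not_lt_zero _)
    | succ R ih =>
      intro c hc hbd hR
      classical
      set PR : Set (Finset V) := {τ | τ ∈ P ∧ φ τ = R} with hPR
      let cR : Finset V → k := fun τ => if φ τ = R then c τ else 0
      have hcR : cR ∈ CC k PR i := by
        intro τ hτ
        by_cases h1 : φ τ = R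
        · have h2 : c τ ≠ 0 := by simpa [cR, h1] using hτ
          exact ⟨⟨(hc τ h2).1, h1⟩, (hc τ h2).2⟩
        · simp [cR, h1] at hτ
      have hbR : bd k PR cR = 0 := by
        ext σ
        by_cases hσ : σ ∈ PR
        · rw [bd_of_mem hσ]
          have h0 : bd k P c σ = 0 := by rw [hbd]; rfl
          rw [bd_of_mem hσ.1] at h0
          rw [Pi.zero_apply, ← h0, bdT_apply, bdT_apply]
          refine Finset.sum_congr rfl fun j _ => ?_
          congr 1
          by_cases hz : c (insert j σ) = 0
          · simp [cR, hz]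
          · have h1 := hR _ hz
            have h2 := hφ σ hσ.1 _ (hc _ hz).1 (Finset.subset_insert j σ)
            have h3 : φ (insert j σ) = R := by
              have := hσ.2
              omega
            simp [cR, h3]
        · rw [bd_of_notMem hσ]; rfl
      obtain ⟨e, he, hbe⟩ := h R cR hcR hbR
      have he' : e ∈ CC k P (i + 1) := fun τ hτ => ⟨(he τ hτ).1.1, (he τ hτ).2⟩
      have hval : ∀ σ, R ≤ φ σ → bd k P e σ = c σ := by
        intro σ hσR
        by_cases hσ : σ ∈ P
        · rcases hσR.eq_or_lt with h1 | h1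
          · have h2 : σ ∈ PR := ⟨hσ, h1.symm⟩
            rw [bd_of_mem hσ, ← bd_of_mem h2, hbe]
            simp [cR, ← h1]
          · have h2 : c σ = 0 := by
              by_contra hne
              have := hR σ hne
              omega
            rw [h2, bd_of_mem hσ]
            apply bdT_eq_zero_of
            intro j hj
            by_contra hne
            have h3 := (he _ hne).1
            have h4 := hφ σ hσ _ h3.1 (Finset.subset_insert j σ)
            have h5 := h3.2
            omega
        · rw [bd_of_notMem hσ]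
          by_contra hne
          exact hσ (hc σ (Ne.symm hne)).1
      obtain ⟨e', he', hbe'⟩ := ih (c - bd k P e) (Submodule.sub_mem _ hc (bd_mem_CC he'))
        (by rw [map_sub, hbd, bd_bd hP he', sub_zero]) (by
          intro σ hσ
          by_contra hlt
          push Not at hlt
          apply hσ
          rw [Pi.sub_apply, hval σ hlt, sub_self])
      refine ⟨e' + e, Submodule.add_mem _ he' ‹_›, ?_⟩
      rw [map_add, hbe']
      abel
  intro c hc hbd
  classical
  obtain ⟨R, hR⟩ : ∃ R, ∀ τ : Finset V, φ τ < R := by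
    refine ⟨(Finset.univ.sup φ) + 1, fun τ => ?_⟩
    exact Nat.lt_succ_of_le (Finset.le_sup (Finset.mem_univ τ))
  exact key R c hc hbd (fun τ _ => hR τ)

end Pool.Agent.Helper16.Koszul
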