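import Mathlib
import Pool.Agent.Helper16.KoszulExact

set_option linter.unusedSectionVars false

namespace Pool.Agent.Helper16.Koszul

open Finset MvPolynomial CategoryTheory

variable {V : Type} [Fintype V] [LinearOrder V] {k : Type} [Field k]

/-! ### ranks -/

variable (k) in
/-- rank of the boundary on chains of size `i` -/
noncomputable def rk (P : Set (Finset V)) (i : ℕ) : ℕ := Module.finrank k (BB k P i)

variable (k) in
/-- dimension of the homology -/
noncomputable def hd (P : Set (Finset V)) (i : ℕ) : ℕ := Module.finrank k (HH k P i)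

lemma finrank_CC_eq (k k' : Type) [Field k] [Field k'] (P : Set (Finset V)) (i : ℕ) :
    Module.finrank k (CC k P i) = Module.finrank k' (CC k' P i) := by
  classical
  have key : ∀ (F : Type) [Field F], Module.finrank F (CC F P i) =
      Fintype.card {τ : Finset V // τ ∈ P ∧ τ.card = i} := by
    intro F _
    let e : CC F P i ≃ₗ[F] ({τ : Finset V // τ ∈ P ∧ τ.card = i} → F) :=
      { toFun := fun c τ => c.1 τ.1
        invFun := fun g => ⟨fun τ => if h : τ ∈ P ∧ τ.card = i then g ⟨τ, h⟩ else 0, by
          intro τ hτ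
          by_contra h
          exact hτ (dif_neg h)⟩
        left_inv := by
          intro c
          apply Subtype.ext
          funext τ
          by_cases h : τ ∈ P ∧ τ.card = i
          · simp [h]
          · have h0 : c.1 τ = 0 := by
              by_contra hne
              exact h (c.2 τ hne)
            simp [h, h0]
        right_inv := by
          intro g
          funext τ
          exact dif_pos τ.2
        map_add' := fun _ _ => rfl
        map_smul' := fun _ _ => rfl }
    rw [e.finrank_eq, Module.finrank_fintype_fun_eq_card]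
  rw [key k, key k']

lemma BB_le_ZZ {P : Set (Finset V)} (hP : P.OrdConnected) (i : ℕ) :
    BB k P (i + 1) ≤ ZZ k P i := by
  rintro _ ⟨c, hc, rfl⟩
  exact ⟨bd_mem_CC hc, bd_bd hP hc⟩

lemma finrank_ZZ_add (P : Set (Finset V)) (i : ℕ) :
    rk k P i + Module.finrank k (ZZ k P i) = Module.finrank k (CC k P i) := by
  have h := LinearMap.finrank_range_add_finrank_ker ((bd k P).domRestrict (CC k P i))
  rw [← h]
  congr 1
  · rw [rk, BB, LinearMap.range_domRestrict]
  · rw [LinearMap.ker_domRestrict]
    have : ZZ k P i = Submodule.map (CC k P i).subtype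
        (Submodule.comap (CC k P i).subtype (LinearMap.ker (bd k P))) := by
      rw [Submodule.map_comap_subtype, ZZ]
    rw [this]
    exact Submodule.finrank_map_subtype_eq (CC k P i)
      (Submodule.comap (CC k P i).subtype (LinearMap.ker (bd k P)))

lemma hd_add {P : Set (Finset V)} (hP : P.OrdConnected) (i : ℕ) :
    hd k P i + rk k P (i + 1) + rk k P i = Module.finrank k (CC k P i) := by
  have h1 := finrank_ZZ_add (k := k) P i
  have h2 := Submodule.finrank_quotient_add_finrank ((BB k P (i + 1)).submoduleOf (ZZ k P i))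
  have h3 : Module.finrank k ((BB k P (i + 1)).submoduleOf (ZZ k P i)) = rk k P (i + 1) := by
    rw [rk]
    exact LinearEquiv.finrank_eq (Submodule.submoduleOfEquivOfLe (BB_le_ZZ hP i))
  rw [h3] at h2
  have h4 : hd k P i = Module.finrank k (HH k P i) := rfl
  rw [← h1, ← h2, h4]
  ring

lemma hd_eq_zero_of_Ex {P : Set (Finset V)} {i : ℕ} (h : Ex k P i) : hd k P i = 0 := by
  have : Subsingleton (HH k P i) := by
    rw [Submodule.Quotient.subsingleton_iff, eq_top_iff]
    rintro ⟨z, hz⟩ -
    obtain ⟨e, he, hbe⟩ := h z hz.1 hz.2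
    exact ⟨e, he, hbe⟩
  exact Module.finrank_zero_of_subsingleton

lemma rk_zero (P : Set (Finset V)) : rk k P 0 = 0 := by
  have : BB k P 0 = ⊥ := by
    rw [eq_bot_iff]
    rintro _ ⟨c, hc, rfl⟩
    exact bd_zero_level hc
  rw [rk, this, finrank_bot]

lemma rk_eq_zero_of_large {P : Set (Finset V)} {i : ℕ} (h : ∀ τ ∈ P, τ.card ≠ i) :
    rk k P i = 0 := by
  have : BB k P i = ⊥ := by
    rw [eq_bot_iff]
    rintro _ ⟨c, hc, rfl⟩
    have : c = 0 := by
      ext τ
      by_contra hne
      exact h τ (hc τ hne).1 (hc τ hne).2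
    rw [this, map_zero]
    exact zero_mem _
  rw [rk, this, finrank_bot]

/-- Field independence when the homology is concentrated in one degree. -/
lemma rk_eq_of_concentrated {P : Set (Finset V)} (hP : P.OrdConnected) (i₀ : ℕ)
    (k k' : Type) [Field k] [Field k']
    (h : ∀ i, i ≠ i₀ → Ex k P i) (h' : ∀ i, i ≠ i₀ → Ex k' P i) (i : ℕ) :
    rk k P i = rk k' P i := by
  have up : ∀ i, i ≤ i₀ → rk k P i = rk k' P i := by
    intro i
    induction i with
    | zero => intro _; rw [rk_zero, rk_zero]
    | succ i ih =>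
      intro hi
      have h1 := hd_add (k := k) hP i
      have h2 := hd_add (k := k') hP i
      have h3 := hd_eq_zero_of_Ex (h i (by omega))
      have h4 := hd_eq_zero_of_Ex (h' i (by omega))
      have h5 := finrank_CC_eq k k' P i
      have h6 := ih (by omega)
      omega
  have down : ∀ j i, i + j = Fintype.card V + 1 → i₀ < i → rk k P i = rk k' P i := by
    intro j
    induction j with
    | zero =>
      intro i hij _
      have hlarge : ∀ τ ∈ P, τ.card ≠ i := by
        intro τ _ hτ
        have := Finset.card_le_univ τ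
        omega
      rw [rk_eq_zero_of_large hlarge, rk_eq_zero_of_large hlarge]
    | succ j ih =>
      intro i hij hi
      have h1 := hd_add (k := k) hP i
      have h2 := hd_add (k := k') hP i
      have h3 := hd_eq_zero_of_Ex (h i (by omega))
      have h4 := hd_eq_zero_of_Ex (h' i (by omega))
      have h5 := finrank_CC_eq k k' P i
      have h6 := ih (i + 1) (by omega) (by omega)
      omega
  rcases le_or_gt i i₀ with hi | hi
  · exact up i hi
  · rcases le_or_gt i (Fintype.card V + 1) with h1 | h1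
    · exact down (Fintype.card V + 1 - i) i (by omega) hi
    · have hlarge : ∀ τ ∈ P, τ.card ≠ i := by
        intro τ _ hτ
        have := Finset.card_le_univ τ
        omega
      rw [rk_eq_zero_of_large hlarge, rk_eq_zero_of_large hlarge]

/-- Field independence of the homology from field independence of the ranks. -/
lemma hd_eq_of_rk_eq {P : Set (Finset V)} (hP : P.OrdConnected) {k k' : Type} [Field k] [Field k']
    (h : ∀ i, rk k P i = rk k' P i) (i : ℕ) : hd k P i = hd k' P i := by
  have h1 := hd_add (k := k) hP i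
  have h2 := hd_add (k := k') hP i
  have h5 := finrank_CC_eq k k' P i
  have h6 := h i
  have h7 := h (i + 1)
  omega

open Classical in
/-- Additivity of ranks. -/
lemma rk_add {P P₀ P₁ : Set (Finset V)} (hP : P.OrdConnected)
    (hunion : ∀ τ, τ ∈ P ↔ τ ∈ P₀ ∨ τ ∈ P₁) (hdisj : ∀ τ ∈ P₀, τ ∉ P₁)
    (hlow : ∀ σ ∈ P, ∀ τ ∈ P₀, σ ⊆ τ → σ ∈ P₀) (i : ℕ)
    (h : Ex k P₁ i ∨ ∃ j, j + 1 = i ∧ Ex k P₀ j) :
    rk k P i = rk k P₀ i + rk k P₁ i := by
  -- restriction to `P₁`
  let ρ : (Finset V → k) →ₗ[k] (Finset V → k) :=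
    { toFun := fun c τ => if τ ∈ P₁ then c τ else 0
      map_add' := by
        intro c e
        funext τ
        by_cases hτ : τ ∈ P₁ <;> simp [hτ]
      map_smul' := by
        intro a c
        funext τ
        by_cases hτ : τ ∈ P₁ <;> simp [hτ] }
  have hρ : ∀ (c : Finset V → k) τ, ρ c τ = if τ ∈ P₁ then c τ else 0 := fun _ _ => rfl
  have hρC : ∀ {i} {c}, c ∈ CC k P i → ρ c ∈ CC k P₁ i := by
    intro i c hc τ hτ
    by_cases h1 : τ ∈ P₁
    · rw [hρ, if_pos h1] at hτ
      exact ⟨h1, (hc τ hτ).2⟩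
    · rw [hρ, if_neg h1] at hτ
      exact absurd rfl hτ
  have hC1 : ∀ {i} {c}, c ∈ CC k P₁ i → c ∈ CC k P i := fun hc τ hτ =>
    ⟨(hunion τ).2 (Or.inr (hc τ hτ).1), (hc τ hτ).2⟩
  have hC0 : ∀ {i} {c}, c ∈ CC k P₀ i → c ∈ CC k P i := fun hc τ hτ =>
    ⟨(hunion τ).2 (Or.inl (hc τ hτ).1), (hc τ hτ).2⟩
  have hρ1 : ∀ {i} {c}, c ∈ CC k P₁ i → ρ c = c := by
    intro i c hc
    funext τ
    rw [hρ]
    split_ifs with h1
    · rfl
    · by_contra hne
      exact h1 (hc τ (Ne.symm hne)).1
  have hcomm : ∀ {i} {c}, c ∈ CC k P i → ρ (bd k P c) = bd k P₁ (ρ c) := by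
    intro i c hc
    funext σ
    by_cases h1 : σ ∈ P₁
    · have h2 : σ ∈ P := (hunion σ).2 (Or.inr h1)
      rw [hρ, if_pos h1, bd_of_mem h2, bd_of_mem h1, bdT_apply, bdT_apply]
      refine Finset.sum_congr rfl fun j _ => ?_
      congr 1
      by_cases hz : c (insert j σ) = 0
      · rw [hρ, hz]; simp
      · have h3 := (hc _ hz).1
        have h4 : insert j σ ∈ P₁ := by
          rcases (hunion _).1 h3 with h4 | h4
          · exact absurd h1 (hdisj σ (hlow σ h2 _ h4 (Finset.subset_insert j σ)))
          · exact h4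
        rw [hρ, if_pos h4]
    · rw [hρ, if_neg h1, bd_of_notMem h1]
  have hbd0 : ∀ {i} {c}, c ∈ CC k P₀ i → bd k P c = bd k P₀ c := by
    intro i c hc
    funext σ
    by_cases h0 : σ ∈ P₀
    · rw [bd_of_mem h0, bd_of_mem ((hunion σ).2 (Or.inl h0))]
    · rw [bd_of_notMem h0]
      by_cases hσ : σ ∈ P
      · rw [bd_of_mem hσ]
        apply bdT_eq_zero_of
        intro j _
        by_contra hne
        exact h0 (hlow σ hσ _ (hc _ hne).1 (Finset.subset_insert j σ))
      · exact bd_of_notMem hσ
  have hker : ∀ {i} {c}, c ∈ CC k P i → ρ c = 0 → c ∈ CC k P₀ i := by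
    intro i c hc h0 τ hτ
    have h1 := hc τ hτ
    rcases (hunion τ).1 h1.1 with h2 | h2
    · exact ⟨h2, h1.2⟩
    · have := congrFun h0 τ
      rw [hρ, if_pos h2] at this
      exact absurd this hτ
  have hn := LinearMap.finrank_range_add_finrank_ker (ρ.domRestrict (BB k P i))
  rw [rk, ← hn, add_comm]
  congr 1
  · rw [LinearMap.ker_domRestrict, rk]
    have : BB k P₀ i = Submodule.map (BB k P i).subtype
        (Submodule.comap (BB k P i).subtype (LinearMap.ker ρ)) := by
      rw [Submodule.map_comap_subtype]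
      apply le_antisymm
      · rintro _ ⟨c, hc, rfl⟩
        refine ⟨⟨c, hC0 hc, hbd0 hc⟩, ?_⟩
        change ρ (bd k P₀ c) = 0
        funext σ
        rw [hρ]
        split_ifs with h1
        · rw [bd_of_notMem (fun h0 => hdisj σ h0 h1)]; rfl
        · rfl
      · rintro b ⟨⟨c, hc, rfl⟩, hb⟩
        have hb' : ρ (bd k P c) = 0 := hb
        have hcyc : bd k P₁ (ρ c) = 0 := by rw [← hcomm hc, hb']
        rcases h with h | ⟨j, rfl, h⟩
        · obtain ⟨e, he, hbe⟩ := h _ (hρC hc) hcyc
          have he' := bd_mem_CC (hC1 he)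
          refine ⟨c - bd k P e, ?_, ?_⟩
          · apply hker (Submodule.sub_mem _ hc he')
            rw [map_sub, hcomm (hC1 he), hρ1 he, hbe, sub_self]
          · have h5 : c - bd k P e ∈ CC k P₀ i := by
              apply hker (Submodule.sub_mem _ hc he')
              rw [map_sub, hcomm (hC1 he), hρ1 he, hbe, sub_self]
            rw [← hbd0 h5, map_sub, bd_bd hP (hC1 he), sub_zero]
        · have h5 : bd k P c ∈ CC k P₀ j := hker (bd_mem_CC hc) hb'
          obtain ⟨e, he, hbe⟩ := h _ h5 (by rw [← hbd0 h5, bd_bd hP hc])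
          exact ⟨e, he, hbe⟩
    rw [this]
    exact (Submodule.finrank_map_subtype_eq _ _).symm
  · rw [LinearMap.range_domRestrict, rk]
    have : Submodule.map ρ (BB k P i) = BB k P₁ i := by
      apply le_antisymm
      · rintro _ ⟨_, ⟨c, hc, rfl⟩, rfl⟩
        exact ⟨ρ c, hρC hc, (hcomm hc).symm⟩
      · rintro _ ⟨c, hc, rfl⟩
        refine ⟨bd k P c, ⟨c, hC1 hc, rfl⟩, ?_⟩
        rw [hcomm (hC1 hc), hρ1 hc]
    rw [this]

end Pool.Agent.Helper16.Koszul
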