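import Mathlib
import Pool.Agent.Helper16.KoszulRk
import Pool.Agent.Helper16.FieldDepDefs

set_option linter.unusedSectionVars false

namespace Pool.Agent.Helper16.Koszul

open Finset MvPolynomial CategoryTheory

variable {V : Type} [Fintype V] [LinearOrder V] {k : Type} [Field k]

/-! ### the Koszul complex of the polynomial ring is exact -/

lemma Kb_univ_eq (b : V →₀ ℕ) : Kb Set.univ b = {τ : Finset V | ∀ j ∈ τ, 1 ≤ b j} := by
  ext τ
  simp [Kb, ind_le_iff]

lemma Ex_univ (b : V →₀ ℕ) (i : ℕ) : Ex k (Kb Set.univ b) (i + 1) := by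
  rw [Kb_univ_eq]
  by_cases h : ∃ v, 1 ≤ b v
  · obtain ⟨v, hv⟩ := h
    apply Ex_of_toggle v
    intro τ hτ
    refine ⟨?_, ?_⟩
    · intro j hj
      rcases Finset.mem_insert.1 hj with rfl | hj
      · exact hv
      · exact hτ j hj
    · intro j hj
      exact hτ j (Finset.mem_of_mem_erase hj)
  · push Not at h
    apply Ex_of_empty
    intro τ hτ hc
    obtain ⟨j, hj⟩ := Finset.card_pos.1 (by omega : 0 < τ.card)
    have := hτ j hj
    have := h j
    omega

lemma IU_univ_eq_top : IU k (Set.univ : Set (V →₀ ℕ)) = ⊤ := by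
  rw [Ideal.eq_top_iff_one, mem_IU isUpperSet_univ]
  intro a _
  trivial

lemma kexact_X : KExact (X : V → MvPolynomial V k) := by
  intro i f hf
  have hmem : ∀ p : MvPolynomial V k, p ∈ IU k (Set.univ : Set (V →₀ ℕ)) := by
    intro p; rw [IU_univ_eq_top]; trivial
  let f' : Sub V (i + 1) → IU k (Set.univ : Set (V →₀ ℕ)) := fun τ => ⟨f τ, hmem _⟩
  have key : ∀ (j : ℕ) (g : Sub V (j + 1) → IU k (Set.univ : Set (V →₀ ℕ))) (σ : Sub V j),
      ((kd (X : V → MvPolynomial V k) (IU k (Set.univ : Set (V →₀ ℕ))) j g σ :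
        IU k (Set.univ : Set (V →₀ ℕ))) : MvPolynomial V k) =
      kd (X : V → MvPolynomial V k) (MvPolynomial V k) j (fun τ => (g τ : MvPolynomial V k)) σ := by
    intro j g σ
    rw [kd_apply, kd_apply, coe_kdT]
    have h1 : (fun τ => ((extend (IU k (Set.univ : Set (V →₀ ℕ))) (j + 1) g τ :
        IU k (Set.univ : Set (V →₀ ℕ))) : MvPolynomial V k)) =
        extend (MvPolynomial V k) (j + 1) (fun τ => (g τ : MvPolynomial V k)) := by
      funext τ
      by_cases h : τ.card = j + 1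
      · simp [extend, h]
      · simp [extend, h]
    rw [h1]
  have hf' : kd (X : V → MvPolynomial V k) (IU k (Set.univ : Set (V →₀ ℕ))) i f' = 0 := by
    funext σ
    apply Subtype.ext
    rw [key]
    exact congrFun hf σ
  have h1 := (kd_cycle_iff isUpperSet_univ f').1 ((mem_ZK_succ _ f').2 hf')
  obtain ⟨w, hw⟩ := (exists_kd_iff isUpperSet_univ f').2 (fun b => by
    obtain ⟨e, he, hbe⟩ := Ex_univ b i _ (h1 b).1 (h1 b).2
    exact ⟨e, he, hbe⟩)
  refine ⟨fun τ => (w τ : MvPolynomial V k), ?_⟩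
  funext σ
  rw [← key, hw]

/-! ### Betti numbers -/

open Pool.Agent.Helper16.FieldDep in
theorem bettiNumber_eq {n : ℕ} {U : Set (Fin n →₀ ℕ)} (hU : IsUpperSet U) (i : ℕ)
    (B : Finset (Fin n →₀ ℕ)) (hB : ∀ b ∉ B, Ex k (Kb U b) i) :
    bettiNumber k (IU k U) i = ∑ b ∈ B, hd k (Kb U b) i := by
  rw [bettiNumber]
  exact (finrank_iso (k := k) (torIso (X : Fin n → MvPolynomial (Fin n) k) (IU k U)
    kexact_X i)).trans (finrank_homology_KM hU i B hB)

/-- the degrees bounded by `N` -/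
noncomputable def box (V : Type) [Fintype V] [LinearOrder V] (N : ℕ) : Finset (V →₀ ℕ) :=
  Finset.Icc 0 (∑ j : V, Finsupp.single j N)

lemma mem_box {N : ℕ} {b : V →₀ ℕ} : b ∈ box V N ↔ ∀ j, b j ≤ N := by
  rw [box, Finset.mem_Icc]
  have h : ∀ j, (∑ j : V, Finsupp.single j N) j = N := by
    intro j
    rw [Finsupp.finsetSum_apply]
    simp [Finsupp.single_apply]
  constructor
  · rintro ⟨_, h1⟩ j
    rw [← h j]
    exact h1 j
  · intro h1
    refine ⟨fun j => Nat.zero_le _, fun j => ?_⟩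
    rw [h j]
    exact h1 j

lemma Ex_outside_box {U : Set (V →₀ ℕ)} (hU : IsUpperSet U) {N : ℕ}
    (hN : ∀ a ∈ U, ∃ g ∈ U, g ≤ a ∧ ∀ j, g j ≤ N) {b : V →₀ ℕ} (hb : b ∉ box V N) (i : ℕ) :
    Ex k (Kb U b) i := by
  rw [mem_box] at hb
  push Not at hb
  obtain ⟨v, hv⟩ := hb
  apply Ex_of_toggle v
  rintro τ ⟨h1, h2⟩
  refine ⟨?_, Kb_lower hU b (Finset.erase_subset v τ) ⟨h1, h2⟩⟩
  refine ⟨?_, ?_⟩
  · rw [ind_le_iff] at h1 ⊢
    intro j hj
    rcases Finset.mem_insert.1 hj with rfl | hj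
    · omega
    · exact h1 j hj
  · obtain ⟨g, hg, hga, hgN⟩ := hN _ h2
    refine hU ?_ hg
    intro j
    by_cases hj : j = v
    · subst hj
      rw [Finsupp.tsub_apply, ind_apply, if_pos (Finset.mem_insert_self _ _)]
      have := hgN j
      omega
    · have h3 := hga j
      rw [Finsupp.tsub_apply, ind_apply] at h3 ⊢
      simpa [Finset.mem_insert, hj] using h3

/-! ### semicontinuity -/

lemma int_independent {κ J : Type} [Fintype κ] (n : κ → J → ℤ) {p : ℕ} [Fact p.Prime]
    (h : LinearIndependent (ZMod p) (fun i => (fun j => (n i j : ZMod p) : J → ZMod p))) :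
    ∀ (N : ℕ) (g : κ → ℤ), ∑ i, (g i).natAbs ≤ N → (∀ j, ∑ i, g i * n i j = 0) → g = 0 := by
  intro N
  induction N using Nat.strong_induction_on with
  | _ N ih =>
  intro g hg h0
  by_contra hne
  have hmod : ∀ i, (g i : ZMod p) = 0 := by
    rw [Fintype.linearIndependent_iff] at h
    apply h
    funext j
    have := congrArg (Int.cast : ℤ → ZMod p) (h0 j)
    simpa using this
  have hdvd : ∀ i, (p : ℤ) ∣ g i := fun i => (ZMod.intCast_zmod_eq_zero_iff_dvd _ _).1 (hmod i)
  choose g' hg' using hdvd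
  have hp : 1 < p := (Fact.out : p.Prime).one_lt
  have h1 : ∀ i, (g' i).natAbs ≤ (g i).natAbs := by
    intro i
    rw [hg' i, Int.natAbs_mul]
    simp only [Int.natAbs_natCast]
    nlinarith [Nat.zero_le (g' i).natAbs]
  obtain ⟨i₀, hi₀⟩ : ∃ i, g i ≠ 0 := by
    by_contra hn
    push Not at hn
    exact hne (funext hn)
  have h2 : (g' i₀).natAbs < (g i₀).natAbs := by
    have hg0 : g' i₀ ≠ 0 := fun e => hi₀ (by rw [hg' i₀, e, mul_zero])
    have := Int.natAbs_pos.2 hg0
    conv_rhs => rw [hg' i₀, Int.natAbs_mul]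
    simp only [Int.natAbs_natCast]
    nlinarith
  have h3 : ∑ i, (g' i).natAbs < ∑ i, (g i).natAbs :=
    Finset.sum_lt_sum (fun i _ => h1 i) ⟨i₀, Finset.mem_univ _, h2⟩
  have h4 := ih _ (lt_of_lt_of_le h3 hg) g' le_rfl (by
    intro j
    have hp0 : (p : ℤ) ≠ 0 := by exact_mod_cast (by omega : p ≠ 0)
    apply mul_left_cancel₀ hp0
    rw [mul_zero, ← h0 j, Finset.mul_sum]
    refine Finset.sum_congr rfl fun i _ => ?_
    rw [hg' i]
    ring)
  apply hi₀
  rw [hg' i₀, h4]
  simp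

lemma rat_independent {κ J : Type} [Fintype κ] (n : κ → J → ℤ) {p : ℕ} [Fact p.Prime]
    (h : LinearIndependent (ZMod p) (fun i => (fun j => (n i j : ZMod p) : J → ZMod p))) :
    LinearIndependent ℚ (fun i => (fun j => (n i j : ℚ) : J → ℚ)) := by
  rw [← LinearIndependent.iff_fractionRing ℤ ℚ, Fintype.linearIndependent_iff]
  intro g hg
  have := int_independent n h _ g le_rfl (by
    intro j
    have h1 := congrFun hg j
    rw [Finset.sum_apply] at h1
    have h2 : ((∑ i, g i * n i j : ℤ) : ℚ) = 0 := by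
      rw [← Pi.zero_apply (M := fun _ => ℚ) j, ← h1]
      push_cast
      refine Finset.sum_congr rfl fun i _ => ?_
      simp
    exact_mod_cast h2)
  intro i
  rw [this]; rfl

variable (P : Set (Finset V)) (i : ℕ)

open Classical in
/-- integral boundary vectors -/
noncomputable def vec (P : Set (Finset V)) (i : ℕ) (τ : {τ : Finset V // τ ∈ P ∧ τ.card = i})
    (σ : Finset V) : ℤ :=
  if σ ∈ P then ∑ j ∈ σᶜ, if insert j σ = τ.1 then sgn j σ else 0 else 0

lemma vec_eq (F : Type) [Field F] (τ : {τ : Finset V // τ ∈ P ∧ τ.card = i}) :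
    (fun σ => (vec P i τ σ : F)) = bd F P (Pi.single τ.1 (1 : F)) := by
  classical
  funext σ
  by_cases hσ : σ ∈ P
  · rw [bd_of_mem hσ, bdT_apply, vec, if_pos hσ]
    push_cast
    refine Finset.sum_congr rfl fun j _ => ?_
    by_cases h : insert j σ = τ.1
    · rw [if_pos h, h]
      simp
    · rw [if_neg h]
      simp [h]
  · rw [bd_of_notMem hσ, vec, if_neg hσ]
    simp

lemma BB_eq_span (F : Type) [Field F] :
    BB F P i = Submodule.span F (Set.range fun τ : {τ : Finset V // τ ∈ P ∧ τ.card = i} =>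
      (fun σ => (vec P i τ σ : F))) := by
  classical
  have hC : CC F P i = Submodule.span F
      (Set.range fun τ : {τ : Finset V // τ ∈ P ∧ τ.card = i} => Pi.single τ.1 (1 : F)) := by
    apply le_antisymm
    · intro c hc
      have : c = ∑ τ : Finset V, c τ • Pi.single τ (1 : F) := by
        funext σ
        rw [Finset.sum_apply]
        simp [Pi.single_apply]
      rw [this]
      apply Submodule.sum_mem
      intro τ _
      by_cases h : c τ = 0
      · rw [h, zero_smul]; exact zero_mem _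
      · exact Submodule.smul_mem _ _ (Submodule.subset_span ⟨⟨τ, hc τ h⟩, rfl⟩)
    · rw [Submodule.span_le]
      rintro _ ⟨τ, rfl⟩ σ hσ
      simp only [Pi.single_apply] at hσ
      split_ifs at hσ with h
      · rw [h]; exact τ.2
      · exact absurd rfl hσ
  rw [BB, hC, Submodule.map_span]
  congr 1
  ext x
  constructor
  · rintro ⟨_, ⟨τ, rfl⟩, rfl⟩
    exact ⟨τ, vec_eq P i F τ⟩
  · rintro ⟨τ, rfl⟩
    exact ⟨_, ⟨τ, rfl⟩, (vec_eq P i F τ).symm⟩

theorem rk_le_rat (p : ℕ) [Fact p.Prime] : rk (ZMod p) P i ≤ rk ℚ P i := by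
  classical
  rw [rk, rk, BB_eq_span P i (ZMod p), BB_eq_span P i ℚ]
  obtain ⟨κ, a, ha, hspan, hli⟩ := exists_linearIndependent' (ZMod p)
    (fun τ : {τ : Finset V // τ ∈ P ∧ τ.card = i} => (fun σ => (vec P i τ σ : ZMod p)))
  have : Fintype κ := Fintype.ofInjective a ha
  rw [← hspan, finrank_span_eq_card hli]
  have h2 := rat_independent (fun t : κ => vec P i (a t)) (p := p) hli
  rw [← finrank_span_eq_card h2]
  apply Submodule.finrank_mono
  apply Submodule.span_mono
  rintro _ ⟨t, rfl⟩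
  exact ⟨a t, rfl⟩

theorem hd_rat_le (hP : P.OrdConnected) (p : ℕ) [Fact p.Prime] : hd ℚ P i ≤ hd (ZMod p) P i := by
  have h1 := hd_add (k := ℚ) hP i
  have h2 := hd_add (k := ZMod p) hP i
  have h5 := finrank_CC_eq ℚ (ZMod p) P i
  have h6 := rk_le_rat P i p
  have h7 := rk_le_rat P (i + 1) p
  omega

end Pool.Agent.Helper16.Koszul
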