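import Mathlib
import Pool.Agent.Helper16.KoszulBetti

set_option linter.unusedSectionVars false

namespace Pool.Agent.Helper16.Koszul

open Finset MvPolynomial CategoryTheory
open Pool.Agent.Helper16.FieldDep

section General

variable {V : Type} [Fintype V] [LinearOrder V] {k : Type} [Field k]

/-- the exponents of the monomials in the `l`-th power -/
def UU (G : Set (V →₀ ℕ)) : ℕ → Set (V →₀ ℕ)
  | 0 => Set.univ
  | l + 1 => {b | ∃ g ∈ G, g ≤ b ∧ b - g ∈ UU G l}

lemma mem_UU_succ {G : Set (V →₀ ℕ)} {l : ℕ} {b : V →₀ ℕ} :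
    b ∈ UU G (l + 1) ↔ ∃ g ∈ G, g ≤ b ∧ b - g ∈ UU G l := Iff.rfl

lemma UU_upper (G : Set (V →₀ ℕ)) (l : ℕ) : IsUpperSet (UU G l) := by
  induction l with
  | zero => exact isUpperSet_univ
  | succ l ih =>
    rintro a b hab ⟨g, hg, hga, h⟩
    exact ⟨g, hg, hga.trans hab, ih (tsub_le_tsub_right hab g) h⟩

lemma UU_bounded {G : Set (V →₀ ℕ)} {M : ℕ} (hM : ∀ g ∈ G, ∀ j, g j ≤ M) (l : ℕ) :
    ∀ a ∈ UU G l, ∃ g ∈ UU G l, g ≤ a ∧ ∀ j, g j ≤ l * M := by
  induction l with
  | zero => exact fun a _ => ⟨0, trivial, fun _ => Nat.zero_le _, fun j => Nat.zero_le _⟩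
  | succ l ih =>
    rintro a ⟨g, hg, hga, h⟩
    obtain ⟨g', hg', hle, hb⟩ := ih _ h
    refine ⟨g + g', ⟨g, hg, fun j => by simp, ?_⟩, ?_, ?_⟩
    · rwa [add_tsub_cancel_left]
    · calc g + g' ≤ g + (a - g) := by gcongr
        _ = a := add_tsub_cancel_of_le hga
    · intro j
      rw [Finsupp.add_apply, add_mul, one_mul]
      have h1 := hM g hg j
      have h2 := hb j
      omega

lemma span_mul_IU (G : Set (V →₀ ℕ)) (l : ℕ) :
    Ideal.span ((fun g => monomial g (1 : k)) '' G) * IU k (UU G l) = IU k (UU G (l + 1)) := by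
  rw [IU, IU, Ideal.span_mul_span']
  congr 1
  ext p
  constructor
  · rintro ⟨_, ⟨g, hg, rfl⟩, _, ⟨a, ha, rfl⟩, rfl⟩
    refine ⟨g + a, ⟨g, hg, fun j => by simp, by rwa [add_tsub_cancel_left]⟩, ?_⟩
    simp [monomial_mul]
  · rintro ⟨b, ⟨g, hg, hgb, h⟩, rfl⟩
    refine ⟨_, ⟨g, hg, rfl⟩, _, ⟨b - g, h, rfl⟩, ?_⟩
    simp [monomial_mul, add_tsub_cancel_of_le hgb]

lemma monomialIdeal_pow {n : ℕ} (G : Finset (Fin n →₀ ℕ)) (l : ℕ) :
    monomialIdeal k G ^ l = IU k (UU (G : Set (Fin n →₀ ℕ)) l) := by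
  induction l with
  | zero =>
    rw [pow_zero, UU, IU_univ_eq_top, Ideal.one_eq_top]
  | succ l ih =>
    rw [pow_succ', ih, ← span_mul_IU]
    rfl

end General

/-! ### digits -/

lemma digits_zero (K : ℤ) (hK : 0 < K) (n : ℕ) : ∀ d : ℕ → ℤ, (∀ i < n, |d i| < K) →
    ∑ i ∈ Finset.range n, d i * K ^ i = 0 → ∀ i < n, d i = 0 := by
  induction n with
  | zero => intro d _ _ i hi; omega
  | succ n ih =>
    intro d hd h i hi
    rw [Finset.sum_range_succ'] at h
    have h1 : ∑ i ∈ Finset.range n, d (i + 1) * K ^ (i + 1) =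
        K * ∑ i ∈ Finset.range n, d (i + 1) * K ^ i := by
      rw [Finset.mul_sum]
      refine Finset.sum_congr rfl fun i _ => ?_
      ring
    rw [h1, pow_zero, mul_one] at h
    have h0 : d 0 = 0 := by
      apply Int.eq_zero_of_abs_lt_dvd _ (hd 0 (by omega))
      exact ⟨-∑ i ∈ Finset.range n, d (i + 1) * K ^ i, by linear_combination h⟩
    rw [h0, add_zero] at h
    have h2 : ∑ i ∈ Finset.range n, d (i + 1) * K ^ i = 0 := by
      rcases mul_eq_zero.1 h with h3 | h3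
      · omega
      · exact h3
    have h3 := ih (fun i => d (i + 1)) (fun i hi => hd (i + 1) (by omega)) h2
    cases i with
    | zero => exact h0
    | succ i => exact h3 i (by omega)

/-! ### the ideal -/

/-- degree in the first seven variables -/
def xdeg (b : Fin 10 →₀ ℕ) : ℕ := b 0 + b 1 + b 2 + b 3 + b 4 + b 5 + b 6

/-- degree in the next two variables -/
def zdeg (b : Fin 10 →₀ ℕ) : ℕ := b 7 + b 8

/-- the minimal non-faces of the six vertex projective plane -/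
def Tset : Fin 10 → Finset (Fin 10) :=
  ![{4, 5, 6}, {3, 5, 6}, {2, 4, 6}, {2, 3, 5}, {2, 3, 4}, {1, 4, 5}, {1, 3, 6}, {1, 3, 4},
    {1, 2, 6}, {1, 2, 5}]

/-- its facets -/
def Fset : Fin 10 → Finset (Fin 10) :=
  ![{1, 2, 3}, {1, 2, 4}, {1, 3, 5}, {1, 4, 6}, {1, 5, 6}, {2, 3, 6}, {2, 4, 5}, {2, 5, 6},
    {3, 4, 5}, {3, 4, 6}]

variable (h : ℕ)

/-- base -/
def bK : ℕ := 2 * (h + 1) ^ 2

/-- weight of the full letters -/
def bD : ℕ := bK h ^ 11

/-- weight of `x_0 ^ 3` -/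
def wc (q : Fin 10) : ℕ := bK h ^ (q : ℕ)

/-- weight of the cubics -/
def wa (q : Fin 10) : ℕ := bK h ^ 10 - (h - 1) * bK h ^ (q : ℕ)

/-- letters of full degree in the first seven variables -/
def Special (g : Fin 10 →₀ ℕ) : Prop :=
  g 7 = 0 ∨ g 7 = bD h ∨
    (∃ q, (∀ j : Fin 10, j < 7 → g j = if j ∈ Tset q then 1 else 0) ∧ g 7 = wa h q) ∨
    (∃ q, (∀ j : Fin 10, j < 7 → g j = if j = 0 then 3 else 0) ∧ g 7 = wc h q)

/-- the generators of `H` -/
def HG : Set (Fin 10 →₀ ℕ) :=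
  {g | g 9 = 0 ∧ xdeg g + zdeg g = bD h + 3 ∧ xdeg g ≤ 3 ∧ (xdeg g = 3 → Special h g)}

/-- the generators of the ideal `H + (y)` -/
def GG : Set (Fin 10 →₀ ℕ) := HG h ∪ {Finsupp.single 9 1}

lemma xdeg_sub {b g : Fin 10 →₀ ℕ} (hg : g ≤ b) : xdeg (b - g) = xdeg b - xdeg g := by
  have := fun j => hg j
  simp only [xdeg, Finsupp.tsub_apply]
  have h0 := this 0
  have h1 := this 1
  have h2 := this 2
  have h3 := this 3
  have h4 := this 4
  have h5 := this 5
  have h6 := this 6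
  omega

lemma xdeg_mono {b g : Fin 10 →₀ ℕ} (hg : g ≤ b) : xdeg g ≤ xdeg b := by
  have := fun j => hg j
  simp only [xdeg]
  have h0 := this 0
  have h1 := this 1
  have h2 := this 2
  have h3 := this 3
  have h4 := this 4
  have h5 := this 5
  have h6 := this 6
  omega

lemma zdeg_sub {b g : Fin 10 →₀ ℕ} (hg : g ≤ b) : zdeg (b - g) = zdeg b - zdeg g := by
  have := fun j => hg j
  simp only [zdeg, Finsupp.tsub_apply]
  have h0 := this 7
  have h1 := this 8
  omega

lemma zdeg_mono {b g : Fin 10 →₀ ℕ} (hg : g ≤ b) : zdeg g ≤ zdeg b := by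
  have := fun j => hg j
  simp only [zdeg]
  have h0 := this 7
  have h1 := this 8
  omega

lemma bD_pos : 0 < bD h := by
  unfold bD bK
  positivity

lemma low_bound (l : ℕ) : ∀ b ∈ UU (HG h) l, bD h * l ≤ zdeg b ∧
    (bD h + 3) * l ≤ xdeg b + zdeg b := by
  induction l with
  | zero => intro b _; simp
  | succ l ih =>
    rintro b ⟨g, hg, hgb, hb⟩
    obtain ⟨h1, h2⟩ := ih _ hb
    rw [xdeg_sub hgb, zdeg_sub hgb] at h2
    rw [zdeg_sub hgb] at h1
    have h3 := zdeg_mono hgb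
    have h4 := xdeg_mono hgb
    obtain ⟨h5, h6, h7, h8⟩ := hg
    rw [mul_add, mul_one, mul_add, mul_one]
    constructor
    · omega
    · omega

/-- build an exponent from a function -/
noncomputable def mkE (f : Fin 10 → ℕ) : Fin 10 →₀ ℕ := Finsupp.equivFunOnFinite.symm f

lemma mkE_apply (f : Fin 10 → ℕ) (j : Fin 10) : mkE f j = f j := rfl

lemma exists_xpart (b : Fin 10 →₀ ℕ) (n : ℕ) (hn : n ≤ xdeg b) :
    ∃ p : Fin 10 →₀ ℕ, p ≤ b ∧ xdeg p = n ∧ p 7 = 0 ∧ p 8 = 0 ∧ p 9 = 0 := by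
  induction n with
  | zero => exact ⟨0, fun _ => Nat.zero_le _, by simp [xdeg], rfl, rfl, rfl⟩
  | succ n ih =>
    obtain ⟨p, hp, hx, h7, h8, h9⟩ := ih (by omega)
    have hex : ∃ j : Fin 10, j < 7 ∧ p j < b j := by
      by_contra hcon
      push Not at hcon
      have h0 := hcon 0 (by decide)
      have h1 := hcon 1 (by decide)
      have h2 := hcon 2 (by decide)
      have h3 := hcon 3 (by decide)
      have h4 := hcon 4 (by decide)
      have h5 := hcon 5 (by decide)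
      have h6 := hcon 6 (by decide)
      simp only [xdeg] at hx hn
      omega
    obtain ⟨j, hj, hlt⟩ := hex
    refine ⟨p + Finsupp.single j 1, ?_, ?_, ?_, ?_, ?_⟩
    · intro i
      rw [Finsupp.add_apply, Finsupp.single_apply]
      split_ifs with hij
      · subst hij; omega
      · have := hp i; omega
    · have : xdeg (p + Finsupp.single j 1) = xdeg p + 1 := by
        simp only [xdeg, Finsupp.add_apply, Finsupp.single_apply]
        fin_cases j <;> simp_all <;> omega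
      omega
    · rw [Finsupp.add_apply, h7, Finsupp.single_apply,
        if_neg (by rintro rfl; exact absurd hj (by decide)), add_zero]
    · rw [Finsupp.add_apply, h8, Finsupp.single_apply,
        if_neg (by rintro rfl; exact absurd hj (by decide)), add_zero]
    · rw [Finsupp.add_apply, h9, Finsupp.single_apply,
        if_neg (by rintro rfl; exact absurd hj (by decide)), add_zero]

/-- combine an `x`-part with a `z`-part -/
lemma exists_comb (b p : Fin 10 →₀ ℕ) (hp : p ≤ b) (_h7 : p 7 = 0) (_h8 : p 8 = 0) (h9 : p 9 = 0)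
    (u v : ℕ) (hu : u ≤ b 7) (hv : v ≤ b 8) :
    ∃ g : Fin 10 →₀ ℕ, g ≤ b ∧ (∀ j : Fin 10, j < 7 → g j = p j) ∧ g 7 = u ∧ g 8 = v ∧ g 9 = 0 ∧
      xdeg g = xdeg p ∧ zdeg g = u + v := by
  refine ⟨mkE (fun j => if j = 7 then u else if j = 8 then v else p j), ?_, ?_, rfl, rfl, h9, rfl,
    rfl⟩
  · intro j
    rw [mkE_apply]
    split_ifs with h1 h2
    · rw [h1]; exact hu
    · rw [h2]; exact hv
    · exact hp j
  · intro j hj
    rw [mkE_apply]
    rw [if_neg, if_neg]
    · rintro rfl; exact absurd hj (by decide)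
    · rintro rfl; exact absurd hj (by decide)

lemma mem_of_big (l : ℕ) (hl : 1 ≤ l) : ∀ b : Fin 10 →₀ ℕ, bD h * l < zdeg b →
    (bD h + 3) * l ≤ xdeg b + zdeg b → b ∈ UU (HG h) l := by
  induction l, hl using Nat.le_induction with
  | base =>
    intro b h1 h2
    rw [mul_one] at h1 h2
    obtain ⟨p, hp, hx, h7, h8, h9⟩ := exists_xpart b (bD h + 3 - zdeg b) (by omega)
    obtain ⟨g, hg, hgj, hg7, hg8, hg9, hgx, hgz⟩ := exists_comb b p hp h7 h8 h9
      (min (b 7) (bD h + 3 - xdeg p)) (bD h + 3 - xdeg p - min (b 7) (bD h + 3 - xdeg p))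
      (min_le_left _ _) (by
        have : zdeg b = b 7 + b 8 := rfl
        rcases le_total (b 7) (bD h + 3 - xdeg p) with h3 | h3
        · rw [min_eq_left h3]; omega
        · rw [min_eq_right h3]; omega)
    refine ⟨g, ⟨hg9, ?_, ?_, ?_⟩, hg, trivial⟩
    · rw [hgx, hgz]
      have := min_le_right (b 7) (bD h + 3 - xdeg p)
      omega
    · omega
    · intro h3; omega
  | succ l hl ih =>
    intro b h1 h2
    rw [mul_add, mul_one] at h1 h2
    have hDl : bD h ≤ bD h * l := Nat.le_mul_of_pos_right _ (by omega)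
    have hDl' : bD h + 3 ≤ (bD h + 3) * l := Nat.le_mul_of_pos_right _ (by omega)
    have hz : zdeg b = b 7 + b 8 := rfl
    have hexp : (bD h + 3) * l = bD h * l + 3 * l := by ring
    rcases lt_or_ge (xdeg b) 3 with hx | hx
    · obtain ⟨p, hp, hpx, h7, h8, h9⟩ := exists_xpart b (xdeg b) le_rfl
      obtain ⟨g, hg, hgj, hg7, hg8, hg9, hgx, hgz⟩ := exists_comb b p hp h7 h8 h9
        (min (b 7) (bD h + 3 - xdeg p)) (bD h + 3 - xdeg p - min (b 7) (bD h + 3 - xdeg p))
        (min_le_left _ _) (by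
          rcases le_total (b 7) (bD h + 3 - xdeg p) with h3 | h3
          · rw [min_eq_left h3]; omega
          · rw [min_eq_right h3]; omega)
      have hzg : zdeg g = bD h + 3 - xdeg p := by
        rw [hgz]
        have := min_le_right (b 7) (bD h + 3 - xdeg p)
        omega
      refine ⟨g, ⟨hg9, ?_, ?_, ?_⟩, hg, ih _ ?_ ?_⟩
      · omega
      · omega
      · intro h3; omega
      · rw [zdeg_sub hg]; omega
      · rw [zdeg_sub hg, xdeg_sub hg]; omega
    · obtain ⟨p, hp, hpx, h7, h8, h9⟩ := exists_xpart b 3 hx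
      rcases le_or_gt (bD h) (b 7) with h3 | h3
      · obtain ⟨g, hg, hgj, hg7, hg8, hg9, hgx, hgz⟩ := exists_comb b p hp h7 h8 h9
          (bD h) 0 h3 (Nat.zero_le _)
        refine ⟨g, ⟨hg9, by omega, by omega, fun _ => Or.inr (Or.inl hg7)⟩, hg, ih _ ?_ ?_⟩
        · rw [zdeg_sub hg]; omega
        · rw [zdeg_sub hg, xdeg_sub hg]; omega
      · obtain ⟨g, hg, hgj, hg7, hg8, hg9, hgx, hgz⟩ := exists_comb b p hp h7 h8 h9
          0 (bD h) (Nat.zero_le _) (by omega)
        refine ⟨g, ⟨hg9, by omega, by omega, fun _ => Or.inl hg7⟩, hg, ih _ ?_ ?_⟩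
        · rw [zdeg_sub hg]; omega
        · rw [zdeg_sub hg, xdeg_sub hg]; omega

end Pool.Agent.Helper16.Koszul
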