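import Mathlib
import Pool.Agent.Helper16.FieldDepIdeal

set_option linter.unusedSectionVars false

namespace Pool.Agent.Helper16.Koszul

open Finset MvPolynomial CategoryTheory
open Pool.Agent.Helper16.FieldDep

variable (h : ℕ)

/-- profiles of products of letters -/
def IsProf (l α : ℕ) (m : ℕ) (A C : Fin 10 → ℕ) : Prop :=
  m + ∑ q, A q + ∑ q, C q ≤ l ∧ α = bD h * m + ∑ q, A q * wa h q + ∑ q, C q * wc h q

/-- the forced part -/
def rho (A C : Fin 10 → ℕ) (j : Fin 10) : ℕ :=
  (∑ q, A q * if j ∈ Tset q then 1 else 0) + (∑ q, C q) * (if j = 0 then 3 else 0)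

/-- unit vectors -/
def e1 (q : Fin 10) : Fin 10 → ℕ := fun i => if i = q then 1 else 0

lemma e1_apply (q i : Fin 10) : e1 q i = if i = q then 1 else 0 := rfl

lemma sum_add_single (A : Fin 10 → ℕ) (q : Fin 10) (f : Fin 10 → ℕ) :
    ∑ i, (A + e1 q) i * f i = (∑ i, A i * f i) + f q := by
  simp [add_mul, Finset.sum_add_distrib, e1_apply]

lemma sum_add_single' (A : Fin 10 → ℕ) (q : Fin 10) :
    ∑ i, (A + e1 q) i = (∑ i, A i) + 1 := by
  have := sum_add_single A q (fun _ => 1)
  simpa using this

lemma exists_sub_single (A : Fin 10 → ℕ) (q : Fin 10) (hq : 0 < A q) :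
    ∃ A', A = A' + e1 q := by
  refine ⟨fun i => A i - e1 q i, ?_⟩
  funext i
  rw [Pi.add_apply, e1_apply]
  split_ifs with hi
  · subst hi; omega
  · omega

lemma bK_pos : 0 < bK h := by unfold bK; positivity

lemma wc_le (q : Fin 10) : wc h q ≤ bD h := by
  unfold wc bD
  exact Nat.pow_le_pow_right (bK_pos h) (by omega)

lemma wa_le (q : Fin 10) : wa h q ≤ bD h := by
  unfold wa bD
  exact (Nat.sub_le _ _).trans (Nat.pow_le_pow_right (bK_pos h) (by omega))

lemma prof_le {l α m : ℕ} {A C : Fin 10 → ℕ} (hp : IsProf h l α m A C) : α ≤ bD h * l := by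
  obtain ⟨h1, h2⟩ := hp
  have h3 : ∑ q, A q * wa h q ≤ bD h * ∑ q, A q := by
    rw [Finset.mul_sum]
    refine Finset.sum_le_sum fun q _ => ?_
    rw [mul_comm]
    exact Nat.mul_le_mul_right _ (wa_le h q)
  have h4 : ∑ q, C q * wc h q ≤ bD h * ∑ q, C q := by
    rw [Finset.mul_sum]
    refine Finset.sum_le_sum fun q _ => ?_
    rw [mul_comm]
    exact Nat.mul_le_mul_right _ (wc_le h q)
  calc α ≤ bD h * (m + ∑ q, A q + ∑ q, C q) := by rw [h2, mul_add, mul_add]; omega
    _ ≤ bD h * l := Nat.mul_le_mul_left _ h1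

lemma Tset_lt (q j : Fin 10) (hj : j ∈ Tset q) : j < 7 ∧ j ≠ 0 := by
  revert hj
  revert q j
  decide

lemma xdeg_T (q : Fin 10) (p : Fin 10 →₀ ℕ)
    (hp : ∀ j : Fin 10, j < 7 → p j = if j ∈ Tset q then 1 else 0) : xdeg p = 3 := by
  unfold xdeg
  rw [hp 0 (by decide), hp 1 (by decide), hp 2 (by decide), hp 3 (by decide), hp 4 (by decide),
    hp 5 (by decide), hp 6 (by decide)]
  clear hp
  revert q
  decide

lemma xdeg_C (p : Fin 10 →₀ ℕ)
    (hp : ∀ j : Fin 10, j < 7 → p j = if j = 0 then 3 else 0) : xdeg p = 3 := by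
  unfold xdeg
  rw [hp 0 (by decide), hp 1 (by decide), hp 2 (by decide), hp 3 (by decide), hp 4 (by decide),
    hp 5 (by decide), hp 6 (by decide)]
  decide

lemma rho_add_A (A C : Fin 10 → ℕ) (q j : Fin 10) :
    rho (A + e1 q) C j = rho A C j + if j ∈ Tset q then 1 else 0 := by
  unfold rho
  rw [sum_add_single A q (fun q => if j ∈ Tset q then 1 else 0)]
  ring

lemma rho_add_C (A C : Fin 10 → ℕ) (q j : Fin 10) :
    rho A (C + e1 q) j = rho A C j + if j = 0 then 3 else 0 := by
  unfold rho
  rw [sum_add_single']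
  ring

lemma mem_exact (l : ℕ) : ∀ b : Fin 10 →₀ ℕ, zdeg b = bD h * l →
    (b ∈ UU (HG h) l ↔ ∃ m A C, IsProf h l (b 7) m A C ∧
      (∀ j : Fin 10, j < 7 → rho A C j ≤ b j) ∧ 3 * l ≤ xdeg b) := by
  induction l with
  | zero =>
    intro b hb
    have hz : zdeg b = b 7 + b 8 := rfl
    constructor
    · intro _
      exact ⟨0, 0, 0, ⟨by simp, by simp; omega⟩, fun j _ => by simp [rho], by simp⟩
    · intro _; trivial
  | succ l ih =>
    intro b hb
    rw [mul_add, mul_one] at hb
    have hz : zdeg b = b 7 + b 8 := rfl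
    constructor
    · rintro ⟨g, ⟨hg9, hg1, hg2, hg3⟩, hgb, hmem⟩
      have h1 := (low_bound h l _ hmem).1
      have h2 := zdeg_sub hgb
      have h3 := xdeg_sub hgb
      have h4 := zdeg_mono hgb
      have h5 := xdeg_mono hgb
      have hg7 := hgb 7
      have hxg : xdeg g = 3 := by omega
      obtain ⟨m, A, C, ⟨hp1, hp2⟩, hρ, hx⟩ := (ih _ (by omega)).1 hmem
      rw [Finsupp.tsub_apply] at hp2
      have hsub : ∀ j, (b - g) j + g j = b j := fun j => by
        rw [Finsupp.tsub_apply]; exact Nat.sub_add_cancel (hgb j)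
      rcases hg3 hxg with hs | hs | ⟨q, hq, hs⟩ | ⟨q, hq, hs⟩
      · exact ⟨m, A, C, ⟨by omega, by omega⟩, fun j hj => by
          have := hρ j hj; have := hsub j; omega, by omega⟩
      · refine ⟨m + 1, A, C, ⟨by omega, ?_⟩, fun j hj => by
          have := hρ j hj; have := hsub j; omega, by omega⟩
        rw [mul_add, mul_one]
        omega
      · refine ⟨m, A + e1 q, C, ⟨?_, ?_⟩, fun j hj => ?_, by omega⟩
        · rw [sum_add_single']; omega
        · rw [sum_add_single]; omega
        · rw [rho_add_A]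
          have h6 := hρ j hj
          have h7 := hsub j
          have h8 := hq j hj
          omega
      · refine ⟨m, A, C + e1 q, ⟨?_, ?_⟩, fun j hj => ?_, by omega⟩
        · rw [sum_add_single']; omega
        · rw [sum_add_single]; omega
        · rw [rho_add_C]
          have h6 := hρ j hj
          have h7 := hsub j
          have h8 := hq j hj
          omega
    · rintro ⟨m, A, C, ⟨hp1, hp2⟩, hρ, hx⟩
      by_cases hA : ∃ q, 0 < A q
      · obtain ⟨q, hq⟩ := hA
        obtain ⟨A', rfl⟩ := exists_sub_single A q hq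
        rw [sum_add_single'] at hp1
        rw [sum_add_single] at hp2
        have hprof : IsProf h l (b 7 - wa h q) m A' C := ⟨by omega, by omega⟩
        have hle := prof_le h hprof
        have hwa := wa_le h q
        obtain ⟨g, hg, hgj, hg7, hg8, hg9, hgx, hgz⟩ := exists_comb b
          (mkE (fun j => if j ∈ Tset q then 1 else 0)) (by
            intro j
            rw [mkE_apply]
            by_cases hj : j < 7
            · have := hρ j hj
              rw [rho_add_A] at this
              omega
            · rw [if_neg (fun hj' => hj (Tset_lt q j hj').1)]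
              exact Nat.zero_le _) (by
            rw [mkE_apply, if_neg (fun hj' => absurd (Tset_lt q 7 hj').1 (by decide))]) (by
            rw [mkE_apply, if_neg (fun hj' => absurd (Tset_lt q 8 hj').1 (by decide))]) (by
            rw [mkE_apply, if_neg (fun hj' => absurd (Tset_lt q 9 hj').1 (by decide))])
          (wa h q) (bD h - wa h q) (by omega) (by omega)
        have hgT : ∀ j : Fin 10, j < 7 → g j = if j ∈ Tset q then 1 else 0 := hgj
        have hxg := xdeg_T q g hgT
        have h2 := zdeg_sub hg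
        have h3 := xdeg_sub hg
        refine ⟨g, ⟨hg9, by omega, by omega, fun _ => Or.inr (Or.inr (Or.inl ⟨q, hgT, hg7⟩))⟩, hg,
          (ih _ (by omega)).2 ⟨m, A', C, ?_, fun j hj => ?_, by omega⟩⟩
        · rw [Finsupp.tsub_apply, hg7]; exact hprof
        · have h6 := hρ j hj
          rw [rho_add_A] at h6
          rw [Finsupp.tsub_apply, hgT j hj]
          omega
      by_cases hC : ∃ q, 0 < C q
      · obtain ⟨q, hq⟩ := hC
        obtain ⟨C', rfl⟩ := exists_sub_single C q hq
        rw [sum_add_single'] at hp1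
        rw [sum_add_single] at hp2
        have hprof : IsProf h l (b 7 - wc h q) m A C' := ⟨by omega, by omega⟩
        have hle := prof_le h hprof
        have hwa := wc_le h q
        obtain ⟨g, hg, hgj, hg7, hg8, hg9, hgx, hgz⟩ := exists_comb b
          (mkE (fun j => if j = 0 then 3 else 0)) (by
            intro j
            rw [mkE_apply]
            by_cases hj : j = 0
            · subst hj
              have := hρ 0 (by decide)
              rw [rho_add_C] at this
              omega
            · rw [if_neg hj]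
              exact Nat.zero_le _) rfl rfl rfl
          (wc h q) (bD h - wc h q) (by omega) (by omega)
        have hgT : ∀ j : Fin 10, j < 7 → g j = if j = 0 then 3 else 0 := hgj
        have hxg := xdeg_C g hgT
        have h2 := zdeg_sub hg
        have h3 := xdeg_sub hg
        refine ⟨g, ⟨hg9, by omega, by omega, fun _ => Or.inr (Or.inr (Or.inr ⟨q, hgT, hg7⟩))⟩, hg,
          (ih _ (by omega)).2 ⟨m, A, C', ?_, fun j hj => ?_, by omega⟩⟩
        · rw [Finsupp.tsub_apply, hg7]; exact hprof
        · have h6 := hρ j hj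
          rw [rho_add_C] at h6
          rw [Finsupp.tsub_apply, hgT j hj]
          omega
      push Not at hA hC
      have hA0 : A = 0 := funext fun q => Nat.le_zero.1 (hA q)
      have hC0 : C = 0 := funext fun q => Nat.le_zero.1 (hC q)
      subst hA0 hC0
      simp only [Pi.zero_apply, zero_mul, Finset.sum_const_zero, add_zero] at hp1 hp2
      obtain ⟨p, hp, hpx, h7, h8, h9⟩ := exists_xpart b 3 (by omega)
      rcases Nat.eq_zero_or_pos m with rfl | hm
      · rw [mul_zero] at hp2
        obtain ⟨g, hg, hgj, hg7, hg8, hg9, hgx, hgz⟩ := exists_comb b p hp h7 h8 h9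
          0 (bD h) (Nat.zero_le _) (by omega)
        have h2 := zdeg_sub hg
        have h3 := xdeg_sub hg
        refine ⟨g, ⟨hg9, by omega, by omega, fun _ => Or.inl hg7⟩, hg,
          (ih _ (by omega)).2 ⟨0, 0, 0, ⟨by simp, ?_⟩, fun j _ => by simp [rho], by omega⟩⟩
        rw [Finsupp.tsub_apply, hg7, hp2]; simp
      · obtain ⟨m, rfl⟩ : ∃ m', m = m' + 1 := ⟨m - 1, by omega⟩
        rw [mul_add, mul_one] at hp2
        obtain ⟨g, hg, hgj, hg7, hg8, hg9, hgx, hgz⟩ := exists_comb b p hp h7 h8 h9
          (bD h) 0 (by omega) (Nat.zero_le _)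
        have h2 := zdeg_sub hg
        have h3 := xdeg_sub hg
        refine ⟨g, ⟨hg9, by omega, by omega, fun _ => Or.inr (Or.inl hg7)⟩, hg,
          (ih _ (by omega)).2 ⟨m, 0, 0, ⟨by simp; omega, ?_⟩, fun j _ => by simp [rho],
            by omega⟩⟩
        rw [Finsupp.tsub_apply, hg7, hp2]; simp

end Pool.Agent.Helper16.Koszul
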