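import Mathlib
import Pool.Agent.Helper16.FieldDepProf

set_option linter.unusedSectionVars false

namespace Pool.Agent.Helper16.Koszul

open Finset MvPolynomial CategoryTheory
open Pool.Agent.Helper16.FieldDep

variable (h : ℕ)

lemma H_mul_le (q : Fin 10) : (h - 1) * bK h ^ (q : ℕ) ≤ bK h ^ 10 := by
  have h1 : h - 1 ≤ bK h := by unfold bK; nlinarith [Nat.sub_le h 1]
  calc (h - 1) * bK h ^ (q : ℕ) ≤ bK h * bK h ^ (q : ℕ) := Nat.mul_le_mul_right _ h1
    _ = bK h ^ ((q : ℕ) + 1) := by ring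
    _ ≤ bK h ^ 10 := Nat.pow_le_pow_right (bK_pos h) (by omega)

lemma prof_cast {l α m : ℕ} {A C : Fin 10 → ℕ} (hp : IsProf h l α m A C) :
    (α : ℤ) = (bK h : ℤ) ^ 11 * m + (bK h : ℤ) ^ 10 * (∑ q, (A q : ℤ)) +
      ∑ q : Fin 10, ((C q : ℤ) - ((h - 1 : ℕ) : ℤ) * A q) * (bK h : ℤ) ^ (q : ℕ) := by
  rw [hp.2]
  push_cast
  have h1 : ∀ q : Fin 10, (wa h q : ℤ) = (bK h : ℤ) ^ 10 - ((h - 1 : ℕ) : ℤ) * (bK h : ℤ) ^ (q : ℕ) := by
    intro q
    rw [wa, Nat.cast_sub (H_mul_le h q)]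
    push_cast
    ring
  have h2 : ∀ q : Fin 10, (wc h q : ℤ) = (bK h : ℤ) ^ (q : ℕ) := by
    intro q; rw [wc]; push_cast; ring
  simp only [h1, h2, bD]
  push_cast
  rw [Finset.mul_sum]
  have h3 : ∑ x : Fin 10, (A x : ℤ) * ((bK h : ℤ) ^ 10 - ((h - 1 : ℕ) : ℤ) * (bK h : ℤ) ^ (x : ℕ)) +
      ∑ x : Fin 10, (C x : ℤ) * (bK h : ℤ) ^ (x : ℕ) =
      ∑ i : Fin 10, (bK h : ℤ) ^ 10 * (A i : ℤ) +
      ∑ q : Fin 10, ((C q : ℤ) - ((h - 1 : ℕ) : ℤ) * A q) * (bK h : ℤ) ^ (q : ℕ) := by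
    rw [← Finset.sum_add_distrib, ← Finset.sum_add_distrib]
    refine Finset.sum_congr rfl fun q _ => ?_
    ring
  linarith

lemma prof_bounds {l α m : ℕ} {A C : Fin 10 → ℕ} (hp : IsProf h l α m A C) :
    m ≤ l ∧ (∑ q, A q) ≤ l ∧ (∀ q, A q ≤ l) ∧ ∀ q, C q ≤ l := by
  obtain ⟨h1, -⟩ := hp
  refine ⟨by omega, by omega, fun q => ?_, fun q => ?_⟩
  · have := Finset.single_le_sum (f := A) (fun _ _ => Nat.zero_le _) (Finset.mem_univ q)
    omega
  · have := Finset.single_le_sum (f := C) (fun _ _ => Nat.zero_le _) (Finset.mem_univ q)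
    omega

lemma prof_diff {l α m m' : ℕ} {A C A' C' : Fin 10 → ℕ} (hl : l ≤ h)
    (hp : IsProf h l α m A C) (hp' : IsProf h l α m' A' C') :
    m = m' ∧ (∑ q, A q = ∑ q, A' q) ∧
      ∀ q, (C q : ℤ) - ((h - 1 : ℕ) : ℤ) * A q = (C' q : ℤ) - ((h - 1 : ℕ) : ℤ) * A' q := by
  have e1 := prof_cast h hp
  have e2 := prof_cast h hp'
  obtain ⟨b1, b2, b3, b4⟩ := prof_bounds h hp
  obtain ⟨b1', b2', b3', b4'⟩ := prof_bounds h hp'
  let d : ℕ → ℤ := fun i => if hi : i < 10 then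
    (((C ⟨i, hi⟩ : ℤ) - ((h - 1 : ℕ) : ℤ) * A ⟨i, hi⟩) -
      ((C' ⟨i, hi⟩ : ℤ) - ((h - 1 : ℕ) : ℤ) * A' ⟨i, hi⟩))
    else if i = 10 then (∑ q, (A q : ℤ)) - ∑ q, (A' q : ℤ) else (m : ℤ) - m'
  have hd1 : ∀ q : Fin 10, d q = (((C q : ℤ) - ((h - 1 : ℕ) : ℤ) * A q) -
      ((C' q : ℤ) - ((h - 1 : ℕ) : ℤ) * A' q)) := by
    intro q
    simp only [d, dif_pos q.2]
  have hd10 : d 10 = (∑ q, (A q : ℤ)) - ∑ q, (A' q : ℤ) := by simp [d]
  have hd11 : d 11 = (m : ℤ) - m' := by simp [d]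
  have hK : (bK h : ℤ) = 2 * ((h : ℤ) + 1) ^ 2 := by unfold bK; push_cast; ring
  have hz := digits_zero (bK h : ℤ) (by exact_mod_cast bK_pos h) 12 d (by
    intro i hi
    have hl' : (l : ℤ) ≤ h := by exact_mod_cast hl
    by_cases h10 : i < 10
    · have h1 := hd1 ⟨i, h10⟩
      simp only at h1
      rw [h1, hK, abs_lt]
      have c1 : (C ⟨i, h10⟩ : ℤ) ≤ l := by exact_mod_cast b4 _
      have c2 : (C' ⟨i, h10⟩ : ℤ) ≤ l := by exact_mod_cast b4' _
      have c3 : (A ⟨i, h10⟩ : ℤ) ≤ l := by exact_mod_cast b3 _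
      have c4 : (A' ⟨i, h10⟩ : ℤ) ≤ l := by exact_mod_cast b3' _
      have c5 : (0 : ℤ) ≤ C ⟨i, h10⟩ := by positivity
      have c6 : (0 : ℤ) ≤ C' ⟨i, h10⟩ := by positivity
      have c7 : (0 : ℤ) ≤ A ⟨i, h10⟩ := by positivity
      have c8 : (0 : ℤ) ≤ A' ⟨i, h10⟩ := by positivity
      have c9 : ((h - 1 : ℕ) : ℤ) ≤ h := by exact_mod_cast Nat.sub_le h 1
      have c10 : (0 : ℤ) ≤ ((h - 1 : ℕ) : ℤ) := by positivity
      have m1 : ((h - 1 : ℕ) : ℤ) * A ⟨i, h10⟩ ≤ h * h := by nlinarith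
      have m2 : ((h - 1 : ℕ) : ℤ) * A' ⟨i, h10⟩ ≤ h * h := by nlinarith
      have m3 : 0 ≤ ((h - 1 : ℕ) : ℤ) * A ⟨i, h10⟩ := by positivity
      have m4 : 0 ≤ ((h - 1 : ℕ) : ℤ) * A' ⟨i, h10⟩ := by positivity
      constructor <;> nlinarith
    · rcases (show i = 10 ∨ i = 11 by omega) with rfl | rfl
      · rw [hd10, hK, abs_lt]
        have c1 : (∑ q, (A q : ℤ)) ≤ l := by exact_mod_cast b2
        have c2 : (∑ q, (A' q : ℤ)) ≤ l := by exact_mod_cast b2'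
        have c3 : 0 ≤ (∑ q, (A q : ℤ)) := by positivity
        have c4 : 0 ≤ (∑ q, (A' q : ℤ)) := by positivity
        constructor <;> nlinarith
      · rw [hd11, hK, abs_lt]
        have c1 : (m : ℤ) ≤ l := by exact_mod_cast b1
        have c2 : (m' : ℤ) ≤ l := by exact_mod_cast b1'
        have c3 : (0 : ℤ) ≤ m := by positivity
        have c4 : (0 : ℤ) ≤ m' := by positivity
        constructor <;> nlinarith) (by
    rw [Finset.sum_range_succ, Finset.sum_range_succ, hd10, hd11, Finset.sum_range]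
    have : ∑ i : Fin 10, d i * (bK h : ℤ) ^ (i : ℕ) =
        ∑ q : Fin 10, ((C q : ℤ) - ((h - 1 : ℕ) : ℤ) * A q) * (bK h : ℤ) ^ (q : ℕ) -
        ∑ q : Fin 10, ((C' q : ℤ) - ((h - 1 : ℕ) : ℤ) * A' q) * (bK h : ℤ) ^ (q : ℕ) := by
      rw [← Finset.sum_sub_distrib]
      refine Finset.sum_congr rfl fun q _ => ?_
      rw [hd1]; ring
    rw [this]
    linear_combination e2 - e1)
  refine ⟨?_, ?_, ?_⟩
  · have := hz 11 (by omega)
    rw [hd11] at this
    omega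
  · have := hz 10 (by omega)
    rw [hd10] at this
    have h2 : (∑ q, (A q : ℤ)) = ∑ q, (A' q : ℤ) := by linarith
    exact_mod_cast h2
  · intro q
    have := hz q (by omega)
    rw [hd1] at this
    linarith

/-- Profiles are unique in low degree. -/
lemma prof_unique {l α m m' : ℕ} {A C A' C' : Fin 10 → ℕ} (hl : l < h)
    (hp : IsProf h l α m A C) (hp' : IsProf h l α m' A' C') :
    m = m' ∧ A = A' ∧ C = C' := by
  obtain ⟨h1, h2, h3⟩ := prof_diff h hl.le hp hp'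
  have key : ∀ (m m' : ℕ) (A C A' C' : Fin 10 → ℕ), IsProf h l α m A C →
      IsProf h l α m' A' C' →
      (∀ q, (C q : ℤ) - ((h - 1 : ℕ) : ℤ) * A q = (C' q : ℤ) - ((h - 1 : ℕ) : ℤ) * A' q) →
      ∀ q, A q ≤ A' q := by
    intro m m' A C A' C' hp hp' h3 q
    by_contra hlt
    push Not at hlt
    have h4 := h3 q
    have h5 : (C q : ℤ) = C' q + ((h - 1 : ℕ) : ℤ) * (A q - A' q) := by linear_combination h4
    have h6 : (1 : ℤ) ≤ A q - A' q := by
      have : (A' q : ℤ) < A q := by exact_mod_cast hlt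
      linarith
    have h7 : ((h - 1 : ℕ) : ℤ) ≤ C q := by
      rw [h5]
      have : (0 : ℤ) ≤ C' q := by positivity
      have : (0 : ℤ) ≤ ((h - 1 : ℕ) : ℤ) := by positivity
      nlinarith
    have h8 : h - 1 ≤ C q := by exact_mod_cast h7
    have h9 := Finset.single_le_sum (f := A) (fun _ _ => Nat.zero_le _) (Finset.mem_univ q)
    have h10 := Finset.single_le_sum (f := C) (fun _ _ => Nat.zero_le _) (Finset.mem_univ q)
    have h11 := hp.1
    omega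
  have hA : A = A' := by
    funext q
    exact le_antisymm (key m m' A C A' C' hp hp' h3 q)
      (key m' m A' C' A C hp' hp (fun q => (h3 q).symm) q)
  refine ⟨h1, hA, ?_⟩
  funext q
  have := h3 q
  rw [hA] at this
  have h4 : (C q : ℤ) = C' q := by linarith
  exact_mod_cast h4

/-- The profiles of the special weight. -/
lemma prof_special (hh : 1 ≤ h) {m : ℕ} {A C : Fin 10 → ℕ} :
    IsProf h h (bK h ^ 10) m A C ↔ m = 0 ∧ ∃ q, A = e1 q ∧ C = fun i => (h - 1) * e1 q i := by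
  have hsum1 : ∀ q : Fin 10, ∑ i, e1 q i = 1 := by
    intro q; simp [e1_apply]
  have hback : ∀ q : Fin 10, IsProf h h (bK h ^ 10) 0 (e1 q) (fun i => (h - 1) * e1 q i) := by
    intro q
    refine ⟨?_, ?_⟩
    · rw [← Finset.mul_sum, hsum1]; omega
    · have h1 : ∑ i, e1 q i * wa h i = wa h q := by simp [e1_apply]
      have h2 : ∑ i, (h - 1) * e1 q i * wc h i = (h - 1) * wc h q := by simp [e1_apply]
      rw [h1, h2, wa, wc]
      have := H_mul_le h q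
      omega
  constructor
  · intro hp
    obtain ⟨h1, h2, h3⟩ := prof_diff h le_rfl hp (hback 0)
    rw [hsum1] at h2
    refine ⟨h1, ?_⟩
    have hex : ∃ q, A q ≠ 0 := by
      by_contra hn
      push Not at hn
      rw [Finset.sum_eq_zero (fun q _ => hn q)] at h2
      exact absurd h2 (by norm_num)
    obtain ⟨q, hq⟩ := hex
    have hA : A = e1 q := by
      obtain ⟨A', rfl⟩ := exists_sub_single A q (Nat.pos_of_ne_zero hq)
      rw [sum_add_single'] at h2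
      have : ∀ i, A' i = 0 := by
        intro i
        have := Finset.single_le_sum (f := A') (fun _ _ => Nat.zero_le _) (Finset.mem_univ i)
        omega
      funext i
      rw [Pi.add_apply, this i, zero_add]
    refine ⟨q, hA, ?_⟩
    funext i
    have h4 := h3 i
    have h5 : ((fun i => (h - 1) * e1 (0 : Fin 10) i) i : ℤ) =
        ((h - 1 : ℕ) : ℤ) * (e1 (0 : Fin 10) i : ℤ) := by push_cast; ring
    have h6 : (C i : ℤ) = ((h - 1 : ℕ) : ℤ) * A i := by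
      have h7 : (((h - 1) * e1 (0 : Fin 10) i : ℕ) : ℤ) =
        ((h - 1 : ℕ) : ℤ) * (e1 (0 : Fin 10) i : ℤ) := by push_cast; ring
      rw [h7] at h4
      linarith
    rw [hA] at h6
    exact_mod_cast h6
  · rintro ⟨rfl, q, rfl, rfl⟩
    exact hback q

end Pool.Agent.Helper16.Koszul
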