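import Mathlib
import Pool.Agent.Helper16.FieldDepDigits

set_option linter.unusedSectionVars false

namespace Pool.Agent.Helper16.Koszul

open Finset MvPolynomial CategoryTheory
open Pool.Agent.Helper16.FieldDep

variable (h : ℕ) {k : Type} [Field k]

lemma Ex_block (Y E : Finset (Fin 10)) (c : Fin 10 → ℕ) (N : ℕ)
    (hcond : (∃ v, v ∉ Y ∧ 1 ≤ c v) ∨ N ≤ E.card) {i : ℕ} (hi : i ≠ N) :
    Ex k {τ : Finset (Fin 10) | (τ ∩ Y = E ∧ ∀ j ∈ τ, j ∉ Y → 1 ≤ c j) ∧ τ.card ≤ N} i := by
  by_cases hv : ∃ v, v ∉ Y ∧ 1 ≤ c v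
  · obtain ⟨v, hvY, hvc⟩ := hv
    refine Ex_of_trunc (Q := {τ : Finset (Fin 10) | τ ∩ Y = E ∧ ∀ j ∈ τ, j ∉ Y → 1 ≤ c j}) v ?_ hi
    rintro τ ⟨h1, h2⟩
    refine ⟨⟨?_, ?_⟩, ?_, ?_⟩
    · rw [Finset.insert_inter_of_notMem hvY, h1]
    · intro j hj hjY
      rcases Finset.mem_insert.1 hj with rfl | hj
      · exact hvc
      · exact h2 j hj hjY
    · rw [Finset.erase_inter, h1, Finset.erase_eq_of_notMem]
      intro hvE
      rw [← h1] at hvE
      exact hvY (Finset.mem_inter.1 hvE).2
    · intro j hj hjY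
      exact h2 j (Finset.mem_of_mem_erase hj) hjY
  · have hN := hcond.resolve_left hv
    apply Ex_of_empty
    rintro τ ⟨⟨h1, -⟩, h2⟩ h3
    have h4 : E.card ≤ τ.card := by
      rw [← h1]; exact Finset.card_le_card Finset.inter_subset_left
    omega

lemma card_eq (τ : Finset (Fin 10)) : τ.card = xdeg (ind τ) + zdeg (ind τ) + ind τ 9 := by
  have h1 : τ.card = ∑ j : Fin 10, ind τ j := by
    simp [ind_apply]
  rw [h1]
  simp only [Fin.sum_univ_succ, Fin.sum_univ_zero, xdeg, zdeg]
  simp only [Fin.isValue, Fin.succ_zero_eq_one]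
  ring_nf
  rfl

/-- the part of the strand with a fixed `y`-component -/
def PP (l : ℕ) (b : Fin 10 →₀ ℕ) (E : Finset (Fin 10)) : Set (Finset (Fin 10)) :=
  {τ | τ ∩ {9} = E ∧ ind τ ≤ b ∧ b - ind τ ∈ UU (HG h) l}

lemma PP_ordConnected (l : ℕ) (b : Fin 10 →₀ ℕ) (E : Finset (Fin 10)) :
    (PP h l b E).OrdConnected := by
  constructor
  rintro σ ⟨h1, h2, h3⟩ ρ ⟨h4, h5, h6⟩ τ ⟨hστ, hτρ⟩
  refine ⟨?_, (ind_mono hτρ).trans h5, UU_upper _ l (tsub_le_tsub_left (ind_mono hτρ) b) h6⟩
  apply le_antisymm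
  · rw [← h4]; exact Finset.inter_subset_inter_right hτρ
  · rw [← h1]; exact Finset.inter_subset_inter_right hστ

lemma ind_nine {τ E : Finset (Fin 10)} (hE : τ ∩ {9} = E) : ind τ 9 = E.card := by
  rw [← hE, ind_apply]
  by_cases h9 : (9 : Fin 10) ∈ τ
  · rw [if_pos h9, Finset.inter_singleton_of_mem h9, Finset.card_singleton]
  · rw [if_neg h9, Finset.inter_singleton_of_notMem h9, Finset.card_empty]

lemma PP_bound {l : ℕ} {b : Fin 10 →₀ ℕ} {E τ : Finset (Fin 10)} (hτ : τ ∈ PP h l b E) :
    τ.card + (bD h + 3) * l ≤ E.card + xdeg b + zdeg b := by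
  obtain ⟨h1, h2, h3⟩ := hτ
  have h4 := (low_bound h l _ h3).2
  rw [xdeg_sub h2, zdeg_sub h2] at h4
  have h5 := xdeg_mono h2
  have h6 := zdeg_mono h2
  have h7 := card_eq τ
  have h8 := ind_nine h1
  omega

lemma xdeg_rho (A C : Fin 10 → ℕ) :
    rho A C 0 + rho A C 1 + rho A C 2 + rho A C 3 + rho A C 4 + rho A C 5 + rho A C 6 =
      3 * ∑ q, A q + 3 * ∑ q, C q := by
  unfold rho
  have h1 : ∀ j : Fin 10, (∑ q, A q * if j ∈ Tset q then 1 else 0) =
    ∑ q, if j ∈ Tset q then A q else 0 := by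
    intro j
    refine Finset.sum_congr rfl fun q _ => ?_
    split_ifs <;> simp
  simp only [h1]
  have h2 : ∑ q, (3 * A q) = ∑ q : Fin 10, ((if (0 : Fin 10) ∈ Tset q then A q else 0) +
      (if (1 : Fin 10) ∈ Tset q then A q else 0) + (if (2 : Fin 10) ∈ Tset q then A q else 0) +
      (if (3 : Fin 10) ∈ Tset q then A q else 0) + (if (4 : Fin 10) ∈ Tset q then A q else 0) +
      (if (5 : Fin 10) ∈ Tset q then A q else 0) + (if (6 : Fin 10) ∈ Tset q then A q else 0)) := by
    refine Finset.sum_congr rfl fun q _ => ?_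
    have h3 : ∀ q : Fin 10, (if (0 : Fin 10) ∈ Tset q then 1 else 0) +
      (if (1 : Fin 10) ∈ Tset q then 1 else 0) + (if (2 : Fin 10) ∈ Tset q then 1 else 0) +
      (if (3 : Fin 10) ∈ Tset q then 1 else 0) + (if (4 : Fin 10) ∈ Tset q then 1 else 0) +
      (if (5 : Fin 10) ∈ Tset q then 1 else 0) + (if (6 : Fin 10) ∈ Tset q then 1 else 0) = 3 := by
      decide
    have h4 := h3 q
    split_ifs at h4 ⊢ <;> omega
  rw [← Finset.mul_sum] at h2
  simp only [Finset.sum_add_distrib] at h2
  simp only [Fin.isValue, if_true, show ((1 : Fin 10) = 0) = False by decide,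
    show ((2 : Fin 10) = 0) = False by decide, show ((3 : Fin 10) = 0) = False by decide,
    show ((4 : Fin 10) = 0) = False by decide, show ((5 : Fin 10) = 0) = False by decide,
    show ((6 : Fin 10) = 0) = False by decide, if_false, mul_zero, add_zero]
  omega

lemma inter_eq_iff {τ τ₀ : Finset (Fin 10)} :
    τ ∩ {7, 8, 9} = τ₀ ∩ {7, 8, 9} ↔
      ind τ 7 = ind τ₀ 7 ∧ ind τ 8 = ind τ₀ 8 ∧ ind τ 9 = ind τ₀ 9 := by
  have key : ∀ j : Fin 10, ind τ j = ind τ₀ j ↔ (j ∈ τ ↔ j ∈ τ₀) := by
    intro j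
    rw [ind_apply, ind_apply]
    by_cases h1 : j ∈ τ <;> by_cases h2 : j ∈ τ₀ <;> simp [h1, h2]
  rw [key, key, key]
  constructor
  · intro h1
    have h2 := fun j => (Finset.ext_iff.1 h1 j)
    refine ⟨?_, ?_, ?_⟩
    · simpa using h2 7
    · simpa using h2 8
    · simpa using h2 9
  · rintro ⟨h7, h8, h9⟩
    ext j
    simp only [Finset.mem_inter, Finset.mem_insert, Finset.mem_singleton]
    constructor
    · rintro ⟨h1, h2⟩
      refine ⟨?_, h2⟩
      rcases h2 with rfl | rfl | rfl
      · exact h7.1 h1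
      · exact h8.1 h1
      · exact h9.1 h1
    · rintro ⟨h1, h2⟩
      refine ⟨?_, h2⟩
      rcases h2 with rfl | rfl | rfl
      · exact h7.2 h1
      · exact h8.2 h1
      · exact h9.2 h1

/-- Concentration of the homology of the strands of `H ^ l`, `1 ≤ l < h`. -/
theorem Ex_PP {l : ℕ} (hl1 : 1 ≤ l) (hlh : l < h) (b : Fin 10 →₀ ℕ) (E : Finset (Fin 10))
    {i : ℕ} (hi : i + (bD h + 3) * l ≠ E.card + xdeg b + zdeg b) : Ex k (PP h l b E) i := by
  classical
  -- we may assume that the family is nonempty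
  by_cases hne : ∃ τ₀, τ₀ ∈ PP h l b E
  swap
  · apply Ex_of_empty
    intro τ hτ
    exact absurd ⟨τ, hτ⟩ hne
  obtain ⟨τ₁, hτ₁⟩ := hne
  have hS := PP_bound h hτ₁
  have hDpos := bD_pos h
  obtain ⟨N, hN⟩ : ∃ N, N + (bD h + 3) * l = E.card + xdeg b + zdeg b :=
    ⟨E.card + xdeg b + zdeg b - (bD h + 3) * l, by omega⟩
  have hiN : i ≠ N := by rintro rfl; exact hi hN
  have hexp : (bD h + 3) * l = bD h * l + 3 * l := by ring
  have hDl : 0 < bD h * l := Nat.mul_pos hDpos hl1
  rcases Nat.eq_zero_or_pos (xdeg b) with hx | hx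
  · -- no `x`-variables
    have h1 : PP h l b E = {τ : Finset (Fin 10) |
        (τ ∩ {9} = E ∧ ∀ j ∈ τ, j ∉ ({9} : Finset (Fin 10)) → 1 ≤ b j) ∧ τ.card ≤ N} := by
      ext τ
      constructor
      · intro hτ
        have h2 := PP_bound h hτ
        refine ⟨⟨hτ.1, fun j hj _ => ind_le_iff.1 hτ.2.1 j hj⟩, by omega⟩
      · rintro ⟨⟨h2, h3⟩, h4⟩
        have hle : ind τ ≤ b := by
          rw [ind_le_iff]
          intro j hj
          by_cases hj9 : j = 9
          · subst hj9
            have h5 := ind_nine hτ₁.1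
            have h6 := ind_nine h2
            have h7 : ind τ 9 = 1 := by rw [ind_apply, if_pos hj]
            have h8 := hτ₁.2.1 9
            omega
          · exact h3 j hj (by simpa using hj9)
        refine ⟨h2, hle, mem_of_big h l hl1 _ ?_ ?_⟩
        · have h5 := card_eq τ
          have h6 := ind_nine h2
          have h7 := xdeg_mono hle
          have h8 := zdeg_mono hle
          rw [zdeg_sub hle]
          omega
        · have h5 := card_eq τ
          have h6 := ind_nine h2
          have h7 := xdeg_mono hle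
          have h8 := zdeg_mono hle
          rw [zdeg_sub hle, xdeg_sub hle]
          omega
    rw [h1]
    refine Ex_block {9} E b N (Or.inl ?_) hiN
    have hτ₁' := low_bound h l _ hτ₁.2.2
    have h8 := zdeg_mono (tsub_le_self : b - ind τ₁ ≤ b)
    have h9 : 0 < zdeg b := by omega
    have h10 : zdeg b = b 7 + b 8 := rfl
    rcases Nat.eq_zero_or_pos (b 7) with h11 | h11
    · exact ⟨8, by decide, by omega⟩
    · exact ⟨7, by decide, h11⟩
  · -- fibres over the `z`-part
    refine Ex_of_fibres (PP_ordConnected h l b E) (fun τ => ind τ 7 + 2 * ind τ 8) ?_ ?_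
    · intro σ _ τ _ hle
      have h1 := ind_mono hle 7
      have h2 := ind_mono hle 8
      omega
    intro r
    by_cases hne : ∃ τ₀, τ₀ ∈ PP h l b E ∧ ind τ₀ 7 + 2 * ind τ₀ 8 = r
    swap
    · apply Ex_of_empty
      rintro τ ⟨hτ, hr⟩
      exact absurd ⟨τ, hτ, hr⟩ hne
    obtain ⟨τ₀, hτ₀, hr⟩ := hne
    have hind : ∀ (τ : Finset (Fin 10)) j, ind τ j ≤ 1 := by
      intro τ j; rw [ind_apply]; split_ifs <;> omega
    have hiff : ∀ τ : Finset (Fin 10), (τ ∩ {9} = E ∧ ind τ 7 + 2 * ind τ 8 = r) ↔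
        τ ∩ {7, 8, 9} = τ₀ ∩ {7, 8, 9} := by
      intro τ
      rw [inter_eq_iff]
      have h1 := hind τ 7
      have h2 := hind τ 8
      have h3 := hind τ₀ 7
      have h4 := hind τ₀ 8
      constructor
      · rintro ⟨h5, h6⟩
        have h7 := ind_nine h5
        have h8 := ind_nine hτ₀.1
        omega
      · rintro ⟨h5, h6, h7⟩
        refine ⟨?_, by omega⟩
        rw [← hτ₀.1]
        rw [ind_apply, ind_apply] at h7
        by_cases h8 : (9 : Fin 10) ∈ τ
        · rw [if_pos h8] at h7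
          have h9 : (9 : Fin 10) ∈ τ₀ := by
            by_contra h9; rw [if_neg h9] at h7; omega
          rw [Finset.inter_singleton_of_mem h8, Finset.inter_singleton_of_mem h9]
        · rw [if_neg h8] at h7
          have h9 : (9 : Fin 10) ∉ τ₀ := by
            intro h9; rw [if_pos h9] at h7; omega
          rw [Finset.inter_singleton_of_notMem h8, Finset.inter_singleton_of_notMem h9]
    have hz0 : zdeg (b - ind τ₀) = zdeg b - (ind τ₀ 7 + ind τ₀ 8) := zdeg_sub hτ₀.2.1
    have hz1 := (low_bound h l _ hτ₀.2.2)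
    have hb7 := hτ₀.2.1 7
    have hb8 := hτ₀.2.1 8
    have hb9 := hτ₀.2.1 9
    have hle_of : ∀ τ : Finset (Fin 10), τ ∩ {7, 8, 9} = τ₀ ∩ {7, 8, 9} →
        (∀ j ∈ τ, j ∉ ({7, 8, 9} : Finset (Fin 10)) → 1 ≤ b j) → ind τ ≤ b := by
      intro τ h1 h2 j
      rw [inter_eq_iff] at h1
      by_cases h7 : j = 7
      · subst h7; rw [h1.1]; exact hb7
      by_cases h8 : j = 8
      · subst h8; rw [h1.2.1]; exact hb8
      by_cases h9 : j = 9
      · subst h9; rw [h1.2.2]; exact hb9
      rw [ind_apply]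
      split_ifs with hj
      · exact h2 j hj (by simp [h7, h8, h9])
      · exact Nat.zero_le _
    have hzτ : ∀ τ : Finset (Fin 10), τ ∩ {7, 8, 9} = τ₀ ∩ {7, 8, 9} → zdeg (ind τ) =
        zdeg (ind τ₀) := by
      intro τ h1
      rw [inter_eq_iff] at h1
      unfold zdeg
      rw [h1.1, h1.2.1]
    have hzdef : zdeg (ind τ₀) = ind τ₀ 7 + ind τ₀ 8 := rfl
    have hzb : zdeg b = b 7 + b 8 := rfl
    rcases Nat.lt_or_ge (bD h * l) (zdeg (b - ind τ₀)) with hcase | hcase
    · -- generic case
      have h1 : {τ | τ ∈ PP h l b E ∧ ind τ 7 + 2 * ind τ 8 = r} = {τ : Finset (Fin 10) |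
          (τ ∩ {7, 8, 9} = τ₀ ∩ {7, 8, 9} ∧
            ∀ j ∈ τ, j ∉ ({7, 8, 9} : Finset (Fin 10)) → 1 ≤ b j) ∧ τ.card ≤ N} := by
        ext τ
        constructor
        · rintro ⟨hτ, hrτ⟩
          have h2 := PP_bound h hτ
          refine ⟨⟨(hiff τ).1 ⟨hτ.1, hrτ⟩, fun j hj _ => ind_le_iff.1 hτ.2.1 j hj⟩, by omega⟩
        · rintro ⟨⟨h2, h3⟩, h4⟩
          obtain ⟨h5, h6⟩ := (hiff τ).2 h2
          have hle := hle_of τ h2 h3
          refine ⟨⟨h5, hle, mem_of_big h l hl1 _ ?_ ?_⟩, h6⟩
          · have h8 := hzτ τ h2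
            rw [zdeg_sub hle]
            omega
          · have h9 := card_eq τ
            have h10 := ind_nine h5
            have h11 := xdeg_mono hle
            have h12 := zdeg_mono hle
            rw [zdeg_sub hle, xdeg_sub hle]
            omega
      rw [h1]
      refine Ex_block _ _ b N (Or.inl ?_) hiN
      by_contra hcon
      push Not at hcon
      have c0 := hcon 0 (by decide)
      have c1 := hcon 1 (by decide)
      have c2 := hcon 2 (by decide)
      have c3 := hcon 3 (by decide)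
      have c4 := hcon 4 (by decide)
      have c5 := hcon 5 (by decide)
      have c6 := hcon 6 (by decide)
      simp only [xdeg] at hx
      omega
    · -- exact case
      have hz2 : zdeg (b - ind τ₀) = bD h * l := by omega
      obtain ⟨m, A, C, hprof, hρ, hx3⟩ := (mem_exact h l _ hz2).1 hτ₀.2.2
      have h7 : (b - ind τ₀) 7 = b 7 - ind τ₀ 7 := rfl
      have h1 : {τ | τ ∈ PP h l b E ∧ ind τ 7 + 2 * ind τ 8 = r} = {τ : Finset (Fin 10) |
          (τ ∩ {7, 8, 9} = τ₀ ∩ {7, 8, 9} ∧
            ∀ j ∈ τ, j ∉ ({7, 8, 9} : Finset (Fin 10)) → 1 ≤ b j - rho A C j) ∧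
              τ.card ≤ N} := by
        ext τ
        constructor
        · rintro ⟨hτ, hrτ⟩
          have h2 := PP_bound h hτ
          have h3 := (hiff τ).1 ⟨hτ.1, hrτ⟩
          have h4 := inter_eq_iff.1 h3
          refine ⟨⟨h3, fun j hj hjY => ?_⟩, by omega⟩
          have hz3 : zdeg (b - ind τ) = bD h * l := by
            rw [zdeg_sub hτ.2.1, hzτ τ h3]
            rw [hzdef]
            omega
          obtain ⟨m', A', C', hprof', hρ', -⟩ := (mem_exact h l _ hz3).1 hτ.2.2
          have h8 : (b - ind τ) 7 = (b - ind τ₀) 7 := by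
            rw [Finsupp.tsub_apply, Finsupp.tsub_apply, h4.1]
          rw [h8] at hprof'
          obtain ⟨-, hA, hC⟩ := prof_unique h hlh hprof hprof'
          have hj7 : j < 7 := by
            simp only [Finset.mem_insert, Finset.mem_singleton, not_or] at hjY
            obtain ⟨q1, q2, q3⟩ := hjY
            omega
          have h9 := hρ' j hj7
          rw [← hA, ← hC, Finsupp.tsub_apply, ind_apply, if_pos hj] at h9
          have h10 := ind_le_iff.1 hτ.2.1 j hj
          omega
        · rintro ⟨⟨h2, h3⟩, h4⟩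
          obtain ⟨h5, h6⟩ := (hiff τ).2 h2
          have hle := hle_of τ h2 (fun j hj hjY => by have := h3 j hj hjY; omega)
          have h8' := hzτ τ h2
          have hz3 : zdeg (b - ind τ) = bD h * l := by
            rw [zdeg_sub hle, h8', hzdef]; omega
          refine ⟨⟨h5, hle, (mem_exact h l _ hz3).2 ⟨m, A, C, ?_, ?_, ?_⟩⟩, h6⟩
          · have h8 : (b - ind τ) 7 = (b - ind τ₀) 7 := by
              rw [Finsupp.tsub_apply, Finsupp.tsub_apply, (inter_eq_iff.1 h2).1]
            rw [h8]; exact hprof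
          · intro j hj
            rw [Finsupp.tsub_apply, ind_apply]
            have h9 := hρ j hj
            rw [Finsupp.tsub_apply] at h9
            split_ifs with hjτ
            · have h10 := h3 j hjτ (by
                simp only [Finset.mem_insert, Finset.mem_singleton, not_or]
                refine ⟨?_, ?_, ?_⟩ <;> (rintro rfl; exact absurd hj (by decide)))
              omega
            · omega
          · have h9 := card_eq τ
            have h10 := ind_nine h5
            have h11 := xdeg_mono hle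
            rw [xdeg_sub hle]
            omega
      rw [h1]
      refine Ex_block _ _ (fun j => b j - rho A C j) N ?_ hiN
      by_cases hv : ∃ v, v ∉ ({7, 8, 9} : Finset (Fin 10)) ∧ 1 ≤ b v - rho A C v
      · exact Or.inl hv
      · right
        push Not at hv
        have c0 := hv 0 (by decide)
        have c1 := hv 1 (by decide)
        have c2 := hv 2 (by decide)
        have c3 := hv 3 (by decide)
        have c4 := hv 4 (by decide)
        have c5 := hv 5 (by decide)
        have c6 := hv 6 (by decide)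
        have hxr := xdeg_rho A C
        have hcard : (τ₀ ∩ {7, 8, 9}).card = zdeg (ind τ₀) + ind τ₀ 9 := by
          have e1 := card_eq (τ₀ ∩ {7, 8, 9})
          have e2 : xdeg (ind (τ₀ ∩ {7, 8, 9})) = 0 := by
            have e0 : ∀ j : Fin 10, j < 7 → ind (τ₀ ∩ {7, 8, 9}) j = 0 := by
              intro j hj
              rw [ind_apply, if_neg]
              intro hc
              have hc2 := (Finset.mem_inter.1 hc).2
              simp only [Finset.mem_insert, Finset.mem_singleton] at hc2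
              rcases hc2 with rfl | rfl | rfl <;> exact absurd hj (by decide)
            unfold xdeg
            rw [e0 0 (by decide), e0 1 (by decide), e0 2 (by decide), e0 3 (by decide),
              e0 4 (by decide), e0 5 (by decide), e0 6 (by decide)]
          have e3 : ∀ j : Fin 10, j ∈ ({7, 8, 9} : Finset (Fin 10)) →
              ind (τ₀ ∩ {7, 8, 9}) j = ind τ₀ j := by
            intro j hj
            rw [ind_apply, ind_apply]
            simp [Finset.mem_inter, hj]
          have e4 : zdeg (ind (τ₀ ∩ {7, 8, 9})) = zdeg (ind τ₀) := by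
            unfold zdeg
            rw [e3 7 (by decide), e3 8 (by decide)]
          rw [e1, e2, e4, e3 9 (by decide), zero_add]
        rw [hcard, ind_nine hτ₀.1, hzdef]
        have hp1 := hprof.1
        have hxb : xdeg b = b 0 + b 1 + b 2 + b 3 + b 4 + b 5 + b 6 := rfl
        omega

end Pool.Agent.Helper16.Koszul
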