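import Mathlib
import Pool.Agent.Helper16.FieldDepStrand

set_option linter.unusedSectionVars false

namespace Pool.Agent.Helper16.Koszul

open Finset MvPolynomial CategoryTheory
open Pool.Agent.Helper16.FieldDep

variable (h : ℕ) {k : Type} [Field k]

/-! ### powers of `H + (y)` -/

lemma HG_insens (l : ℕ) : ∀ a b : Fin 10 →₀ ℕ, (∀ j, j ≠ 9 → a j = b j) →
    a ∈ UU (HG h) l → b ∈ UU (HG h) l := by
  induction l with
  | zero => intro _ _ _ _; trivial
  | succ l ih =>
    rintro a b hab ⟨g, hg, hga, hmem⟩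
    refine ⟨g, hg, ?_, ih (a - g) (b - g) ?_ hmem⟩
    · intro j
      by_cases hj : j = 9
      · subst hj; rw [hg.1]; exact Nat.zero_le _
      · rw [← hab j hj]; exact hga j
    · intro j hj
      rw [Finsupp.tsub_apply, Finsupp.tsub_apply, hab j hj]

lemma GG_iff (l : ℕ) : ∀ b : Fin 10 →₀ ℕ, b ∈ UU (GG h) l ↔ b ∈ UU (HG h) (l - b 9) := by
  induction l with
  | zero => intro b; rw [Nat.zero_sub]; exact Iff.rfl
  | succ l ih =>
    intro b
    have hins : ∀ (m : ℕ), (b - Finsupp.single 9 1 : Fin 10 →₀ ℕ) ∈ UU (HG h) m ↔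
        b ∈ UU (HG h) m := by
      intro m
      have hj : ∀ j : Fin 10, j ≠ 9 → (b - Finsupp.single 9 1 : Fin 10 →₀ ℕ) j = b j := by
        intro j hj
        rw [Finsupp.tsub_apply, Finsupp.single_apply, if_neg (Ne.symm hj), Nat.sub_zero]
      exact ⟨HG_insens h m _ _ hj, HG_insens h m _ _ (fun j h1 => (hj j h1).symm)⟩
    constructor
    · rintro ⟨g, hg | hg, hgb, hmem⟩
      · rw [ih, Finsupp.tsub_apply, hg.1, Nat.sub_zero] at hmem
        rcases le_or_gt (b 9) l with h1 | h1
        · rw [show l + 1 - b 9 = (l - b 9) + 1 by omega]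
          exact ⟨g, hg, hgb, hmem⟩
        · rw [show l + 1 - b 9 = 0 by omega]
          trivial
      · rw [Set.mem_singleton_iff] at hg
        subst hg
        have h1 := hgb 9
        rw [Finsupp.single_eq_same] at h1
        rw [ih, hins, Finsupp.tsub_apply, Finsupp.single_eq_same] at hmem
        rwa [show l + 1 - b 9 = l - (b 9 - 1) by omega]
    · intro hmem
      rcases Nat.eq_zero_or_pos (b 9) with h1 | h1
      · rw [h1, Nat.sub_zero] at hmem
        obtain ⟨g, hg, hgb, hmem⟩ := hmem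
        refine ⟨g, Or.inl hg, hgb, ?_⟩
        rwa [ih, Finsupp.tsub_apply, h1, Nat.zero_sub, Nat.sub_zero]
      · refine ⟨Finsupp.single 9 1, Or.inr rfl, ?_, ?_⟩
        · intro j
          rw [Finsupp.single_apply]
          split_ifs with hj
          · rw [← hj]; exact h1
          · exact Nat.zero_le _
        · rw [ih, hins, Finsupp.tsub_apply, Finsupp.single_eq_same]
          rwa [show l - (b 9 - 1) = l + 1 - b 9 by omega]

/-! ### independence -/

lemma Kb_GG_iff (l : ℕ) (b : Fin 10 →₀ ℕ) (τ : Finset (Fin 10)) :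
    τ ∈ Kb (UU (GG h) l) b ↔ τ ∈ PP h (l - b 9) b ∅ ∨ τ ∈ PP h (l - (b 9 - 1)) b {9} := by
  constructor
  · rintro ⟨h1, h2⟩
    rw [GG_iff, Finsupp.tsub_apply, ind_apply] at h2
    by_cases h9 : (9 : Fin 10) ∈ τ
    · rw [if_pos h9] at h2
      exact Or.inr ⟨Finset.inter_singleton_of_mem h9, h1, h2⟩
    · rw [if_neg h9, Nat.sub_zero] at h2
      exact Or.inl ⟨Finset.inter_singleton_of_notMem h9, h1, h2⟩
  · rintro (⟨h0, h1, h2⟩ | ⟨h0, h1, h2⟩)
    · refine ⟨h1, ?_⟩
      rw [GG_iff, Finsupp.tsub_apply, ind_nine h0, Finset.card_empty, Nat.sub_zero]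
      exact h2
    · refine ⟨h1, ?_⟩
      rw [GG_iff, Finsupp.tsub_apply, ind_nine h0, Finset.card_singleton]
      exact h2

lemma rk_indep {l : ℕ} (hl1 : 1 ≤ l) (hlh : l < h) (b : Fin 10 →₀ ℕ) (k k' : Type) [Field k]
    [Field k'] (i : ℕ) :
    rk k (Kb (UU (GG h) l) b) i = rk k' (Kb (UU (GG h) l) b) i := by
  have hord : (Kb (UU (GG h) l) b).OrdConnected := (Kb_lower (UU_upper _ l) b).ordConnected
  rcases Nat.eq_zero_or_pos i with rfl | hi
  · rw [rk_zero, rk_zero]
  have hDpos := bD_pos h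
  rcases lt_or_ge l (b 9) with hA | hA
  · -- closed under toggling `9`
    have hEx : ∀ (F : Type) [Field F] (i : ℕ), Ex F (Kb (UU (GG h) l) b) i := by
      intro F _ i
      apply Ex_of_toggle 9
      intro τ hτ
      have hall : ∀ σ : Finset (Fin 10), ind σ ≤ b → σ ∈ Kb (UU (GG h) l) b := by
        intro σ hσ
        refine ⟨hσ, ?_⟩
        rw [GG_iff, Finsupp.tsub_apply]
        have h1 : ind σ 9 ≤ 1 := by rw [ind_apply]; split_ifs <;> omega
        rw [show l - (b 9 - ind σ 9) = 0 by omega]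
        trivial
      refine ⟨hall _ ?_, hall _ ?_⟩
      · rw [ind_le_iff]
        intro j hj
        rcases Finset.mem_insert.1 hj with rfl | hj
        · omega
        · exact ind_le_iff.1 hτ.1 j hj
      · exact (ind_mono (Finset.erase_subset _ _)).trans hτ.1
    exact rk_eq_of_concentrated hord 0 k k' (fun i _ => hEx k i) (fun i _ => hEx k' i) i
  -- the two pieces
  have hP0 : (PP h (l - b 9) b ∅).OrdConnected := PP_ordConnected h _ b ∅
  have hP1 : (PP h (l - (b 9 - 1)) b {9}).OrdConnected := PP_ordConnected h _ b {9}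
  have hEx1 : ∀ (F : Type) [Field F] (i : ℕ),
      i + (bD h + 3) * (l - (b 9 - 1)) ≠ 1 + xdeg b + zdeg b →
      Ex F (PP h (l - (b 9 - 1)) b {9}) i := by
    intro F _ i hi
    rcases Nat.eq_zero_or_pos (b 9) with h9 | h9
    · apply Ex_of_empty
      rintro τ ⟨h1, h2, -⟩
      have h3 := ind_nine h1
      have h4 := h2 9
      rw [Finset.card_singleton] at h3
      omega
    · exact Ex_PP h (by omega) (by omega) b {9} (by rw [Finset.card_singleton]; exact hi)
  have hrk1 : ∀ i, rk k (PP h (l - (b 9 - 1)) b {9}) i =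
      rk k' (PP h (l - (b 9 - 1)) b {9}) i := by
    intro i
    by_cases hex : ∃ N, N + (bD h + 3) * (l - (b 9 - 1)) = 1 + xdeg b + zdeg b
    · obtain ⟨N, hN⟩ := hex
      exact rk_eq_of_concentrated hP1 N k k' (fun i hi => hEx1 k i (by omega))
        (fun i hi => hEx1 k' i (by omega)) i
    · exact rk_eq_of_concentrated hP1 0 k k' (fun i hi => hEx1 k i (fun hc => hex ⟨i, hc⟩))
        (fun i hi => hEx1 k' i (fun hc => hex ⟨i, hc⟩)) i
  have hdisj : ∀ τ ∈ PP h (l - b 9) b ∅, τ ∉ PP h (l - (b 9 - 1)) b {9} := by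
    rintro τ ⟨h1, -, -⟩ ⟨h2, -, -⟩
    rw [h1] at h2
    exact absurd h2 (by decide)
  have hlow : ∀ σ ∈ Kb (UU (GG h) l) b, ∀ τ ∈ PP h (l - b 9) b ∅, σ ⊆ τ →
      σ ∈ PP h (l - b 9) b ∅ := by
    intro σ hσ τ hτ hστ
    rcases (Kb_GG_iff h l b σ).1 hσ with h1 | h1
    · exact h1
    · exfalso
      have h2 := ind_nine h1.1
      have h3 := ind_nine hτ.1
      have h4 := ind_mono hστ 9
      rw [Finset.card_singleton] at h2
      rw [Finset.card_empty] at h3
      omega
  have main : (∀ i, rk k (PP h (l - b 9) b ∅) i = rk k' (PP h (l - b 9) b ∅) i) ∧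
      ∀ (F : Type) [Field F] (i : ℕ), 1 ≤ i → (Ex F (PP h (l - (b 9 - 1)) b {9}) i ∨
        ∃ j, j + 1 = i ∧ Ex F (PP h (l - b 9) b ∅) j) := by
    rcases hA.lt_or_eq with hB | hB
    · -- both concentrated
      have hEx0 : ∀ (F : Type) [Field F] (i : ℕ),
          i + (bD h + 3) * (l - b 9) ≠ xdeg b + zdeg b → Ex F (PP h (l - b 9) b ∅) i := by
        intro F _ i hi
        exact Ex_PP h (by omega) (by omega) b ∅ (by rw [Finset.card_empty, zero_add]; exact hi)
      constructor
      · intro i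
        by_cases hex : ∃ N, N + (bD h + 3) * (l - b 9) = xdeg b + zdeg b
        · obtain ⟨N, hN⟩ := hex
          exact rk_eq_of_concentrated hP0 N k k' (fun i hi => hEx0 k i (by omega))
            (fun i hi => hEx0 k' i (by omega)) i
        · exact rk_eq_of_concentrated hP0 0 k k' (fun i hi => hEx0 k i (fun hc => hex ⟨i, hc⟩))
            (fun i hi => hEx0 k' i (fun hc => hex ⟨i, hc⟩)) i
      · intro F _ i hi
        rcases Nat.eq_zero_or_pos (b 9) with h9 | h9
        · left
          apply Ex_of_empty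
          rintro τ ⟨h1, h2, -⟩
          have h3 := ind_nine h1
          have h4 := h2 9
          rw [Finset.card_singleton] at h3
          omega
        by_cases hc : i + (bD h + 3) * (l - (b 9 - 1)) = 1 + xdeg b + zdeg b
        · right
          refine ⟨i - 1, by omega, hEx0 F _ ?_⟩
          have h1 : l - (b 9 - 1) = (l - b 9) + 1 := by omega
          rw [h1, mul_add, mul_one] at hc
          omega
        · exact Or.inl (hEx1 F i hc)
    · -- `b 9 = l`
      have hP0' : ∀ τ : Finset (Fin 10), τ ∈ PP h (l - b 9) b ∅ ↔ τ ∩ {9} = ∅ ∧ ind τ ≤ b := by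
        intro τ
        rw [hB, Nat.sub_self]
        exact ⟨fun h1 => ⟨h1.1, h1.2.1⟩, fun h1 => ⟨h1.1, h1.2, trivial⟩⟩
      by_cases hv : ∃ v : Fin 10, v ≠ 9 ∧ 1 ≤ b v
      · obtain ⟨v, hv9, hbv⟩ := hv
        have hEx0 : ∀ (F : Type) [Field F] (i : ℕ), Ex F (PP h (l - b 9) b ∅) i := by
          intro F _ i
          apply Ex_of_toggle v
          intro τ hτ
          rw [hP0'] at hτ
          rw [hP0', hP0']
          refine ⟨⟨?_, ?_⟩, ?_, ?_⟩
          · rw [Finset.insert_inter_of_notMem (by simpa using hv9), hτ.1]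
          · rw [ind_le_iff]
            intro j hj
            rcases Finset.mem_insert.1 hj with rfl | hj
            · exact hbv
            · exact ind_le_iff.1 hτ.2 j hj
          · rw [Finset.erase_inter, hτ.1]; rfl
          · exact (ind_mono (Finset.erase_subset _ _)).trans hτ.2
        exact ⟨fun i => rk_eq_of_concentrated hP0 0 k k' (fun i _ => hEx0 k i)
          (fun i _ => hEx0 k' i) i, fun F _ i hi => Or.inr ⟨i - 1, by omega, hEx0 F _⟩⟩
      · push Not at hv
        have hb0 : ∀ v : Fin 10, v ≠ 9 → b v = 0 := fun v hv9 => by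
          have := hv v hv9; omega
        have hxz : xdeg b = 0 ∧ zdeg b = 0 := by
          unfold xdeg zdeg
          rw [hb0 0 (by decide), hb0 1 (by decide), hb0 2 (by decide), hb0 3 (by decide),
            hb0 4 (by decide), hb0 5 (by decide), hb0 6 (by decide), hb0 7 (by decide),
            hb0 8 (by decide)]
          exact ⟨rfl, rfl⟩
        have hEx0 : ∀ (F : Type) [Field F] (i : ℕ), i ≠ 0 → Ex F (PP h (l - b 9) b ∅) i := by
          intro F _ i hi
          apply Ex_of_empty
          intro τ hτ hcard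
          rw [hP0'] at hτ
          have h1 := card_eq τ
          have h2 := ind_nine hτ.1
          have h3 := xdeg_mono hτ.2
          have h4 := zdeg_mono hτ.2
          rw [Finset.card_empty] at h2
          omega
        have hEx1' : ∀ (F : Type) [Field F] (i : ℕ), Ex F (PP h (l - (b 9 - 1)) b {9}) i := by
          intro F _ i
          apply Ex_of_empty
          intro τ hτ hcard
          have h1 := PP_bound h hτ
          rw [Finset.card_singleton, hxz.1, hxz.2] at h1
          have h2 : 1 ≤ l - (b 9 - 1) := by omega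
          have h3 : (bD h + 3) * 1 ≤ (bD h + 3) * (l - (b 9 - 1)) := Nat.mul_le_mul_left _ h2
          omega
        exact ⟨fun i => rk_eq_of_concentrated hP0 0 k k' (fun i hi => hEx0 k i hi)
          (fun i hi => hEx0 k' i hi) i, fun F _ i _ => Or.inl (hEx1' F i)⟩
  rw [rk_add hord (Kb_GG_iff h l b) hdisj hlow i (main.2 k i hi),
    rk_add hord (Kb_GG_iff h l b) hdisj hlow i (main.2 k' i hi), main.1 i, hrk1 i]

end Pool.Agent.Helper16.Koszul
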