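import Mathlib
import Pool.Agent.Helper16.FieldDepIndep

set_option linter.unusedSectionVars false

namespace Pool.Agent.Helper16.Koszul

open Finset MvPolynomial CategoryTheory
open Pool.Agent.Helper16.FieldDep

variable (h : ℕ) {k : Type} [Field k]

/-! ### the critical strand: a six vertex projective plane -/

lemma sum_e1_mul (q : Fin 10) (f : Fin 10 → ℕ) : ∑ x, e1 q x * f x = f q := by
  simp [e1_apply]

lemma rho_special (q j : Fin 10) : rho (e1 q) (fun i => (h - 1) * e1 q i) j =
    (if j ∈ Tset q then 1 else 0) + (h - 1) * (if j = 0 then 3 else 0) := by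
  unfold rho
  have h1 := sum_e1_mul q (fun x => if j ∈ Tset x then 1 else 0)
  have h2 := sum_e1_mul q (fun _ => 1)
  simp only [mul_one] at h2
  rw [← Finset.mul_sum, h1, h2, mul_one]

/-- membership in the six vertex projective plane -/
def RPmem (τ : Finset (Fin 10)) : Prop :=
  (∀ j ∈ τ, j ≠ 0 ∧ j ≠ 7 ∧ j ≠ 8 ∧ j ≠ 9) ∧ ∃ q, Disjoint τ (Tset q)

instance : DecidablePred RPmem := fun τ => by unfold RPmem; infer_instance

/-- the degree of the critical strand -/
noncomputable def bcrit (l : ℕ) : Fin 10 →₀ ℕ :=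
  mkE ![3 * (h - 1), 1, 1, 1, 1, 1, 1, bK h ^ 10, bD h * h - bK h ^ 10, l - h]

lemma Kb_crit (hh : 1 ≤ h) (l : ℕ) (hl : h ≤ l) :
    Kb (UU (GG h) l) (bcrit h l) = {τ | RPmem τ} := by
  have c0 : bcrit h l 0 = 3 * (h - 1) := rfl
  have c1 : bcrit h l 1 = 1 := rfl
  have c2 : bcrit h l 2 = 1 := rfl
  have c3 : bcrit h l 3 = 1 := rfl
  have c4 : bcrit h l 4 = 1 := rfl
  have c5 : bcrit h l 5 = 1 := rfl
  have c6 : bcrit h l 6 = 1 := rfl
  have c7 : bcrit h l 7 = bK h ^ 10 := rfl
  have c8 : bcrit h l 8 = bD h * h - bK h ^ 10 := rfl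
  have c9 : bcrit h l 9 = l - h := rfl
  have hDpos := bD_pos h
  have hKD : bK h ^ 10 ≤ bD h := Nat.pow_le_pow_right (bK_pos h) (by omega)
  have hDh : bD h ≤ bD h * h := Nat.le_mul_of_pos_right _ hh
  have hz : zdeg (bcrit h l) = bD h * h := by
    unfold zdeg; rw [c7, c8]; omega
  have hx : xdeg (bcrit h l) = 3 * (h - 1) + 6 := by
    unfold xdeg; rw [c0, c1, c2, c3, c4, c5, c6]
  ext τ
  rw [Kb_GG_iff, c9]
  constructor
  · rintro (⟨h1, h2, h3⟩ | ⟨h1, h2, h3⟩)
    · rw [show l - (l - h) = h by omega] at h3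
      have h4 := (low_bound h _ _ h3).1
      rw [zdeg_sub h2, hz] at h4
      have h5 : zdeg (ind τ) = 0 := by
        have := zdeg_mono h2
        omega
      have h6 : ind τ 7 = 0 ∧ ind τ 8 = 0 := by
        unfold zdeg at h5; omega
      have hz' : zdeg (bcrit h l - ind τ) = bD h * h := by
        rw [zdeg_sub h2, hz, h5, Nat.sub_zero]
      obtain ⟨m, A, C, hprof, hρ, hxx⟩ := (mem_exact h _ _ hz').1 h3
      rw [Finsupp.tsub_apply, c7, h6.1, Nat.sub_zero] at hprof
      obtain ⟨-, q, rfl, rfl⟩ := (prof_special h hh).1 hprof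
      have hρ0 := rho_special h q
      have hτ0 : (0 : Fin 10) ∉ τ := by
        intro hc
        have h7 := hρ 0 (by decide)
        have h8 := ind_le_iff.1 h2 0 hc
        rw [hρ0, Finsupp.tsub_apply, c0, ind_apply, if_pos hc, if_pos rfl] at h7
        omega
      refine ⟨fun j hj => ⟨?_, ?_, ?_, ?_⟩, q, ?_⟩
      · rintro rfl; exact hτ0 hj
      · rintro rfl
        rw [ind_apply, if_pos hj] at h6; omega
      · rintro rfl
        rw [ind_apply _ 8, if_pos hj] at h6; omega
      · rintro rfl
        have := Finset.mem_inter.2 ⟨hj, Finset.mem_singleton_self (9 : Fin 10)⟩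
        rw [h1] at this
        exact absurd this (Finset.notMem_empty _)
      · rw [Finset.disjoint_left]
        intro j hj hjT
        obtain ⟨hj7, hj0⟩ := Tset_lt q j hjT
        have h7 := hρ j hj7
        rw [hρ0, if_pos hjT, if_neg hj0, mul_zero, add_zero, Finsupp.tsub_apply, ind_apply,
          if_pos hj] at h7
        have h8 : bcrit h l j = 1 := by
          clear h7 hjT hj
          fin_cases j <;> first | exact absurd rfl hj0 | rfl | exact absurd hj7 (by decide)
        omega
    · have h4 := (low_bound h _ _ h3).1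
      have h5 := h2 9
      have h6 := ind_nine h1
      rw [Finset.card_singleton] at h6
      rw [h6, c9] at h5
      rw [zdeg_sub h2, hz, show l - (l - h - 1) = h + 1 by omega, mul_add, mul_one] at h4
      omega
  · rintro ⟨h1, q, h2⟩
    left
    have hle : ind τ ≤ bcrit h l := by
      rw [ind_le_iff]
      intro j hj
      obtain ⟨g0, g7, g8, g9⟩ := h1 j hj
      clear hj
      fin_cases j <;> first | exact absurd rfl g0 | exact absurd rfl g7 | exact absurd rfl g8 |
        exact absurd rfl g9 | exact le_refl 1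
    have h7 : (7 : Fin 10) ∉ τ := fun hc => (h1 7 hc).2.1 rfl
    have h8 : (8 : Fin 10) ∉ τ := fun hc => (h1 8 hc).2.2.1 rfl
    have h9 : (9 : Fin 10) ∉ τ := fun hc => (h1 9 hc).2.2.2 rfl
    have h0 : (0 : Fin 10) ∉ τ := fun hc => (h1 0 hc).1 rfl
    refine ⟨Finset.inter_singleton_of_notMem h9, hle, ?_⟩
    rw [show l - (l - h) = h by omega]
    have hz5 : zdeg (ind τ) = 0 := by
      unfold zdeg
      rw [ind_apply, ind_apply, if_neg h7, if_neg h8]
    have hz' : zdeg (bcrit h l - ind τ) = bD h * h := by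
      rw [zdeg_sub hle, hz, hz5, Nat.sub_zero]
    have hcard : τ.card ≤ 3 := by
      have hsub : τ ⊆ ({1, 2, 3, 4, 5, 6} : Finset (Fin 10)) \ Tset q := by
        intro j hj
        rw [Finset.mem_sdiff]
        refine ⟨?_, Finset.disjoint_left.1 h2 hj⟩
        obtain ⟨g0, g7, g8, g9⟩ := h1 j hj
        clear hj
        fin_cases j <;> first | exact absurd rfl g0 | exact absurd rfl g7 | exact absurd rfl g8 |
          exact absurd rfl g9 | decide
      refine (Finset.card_le_card hsub).trans ?_
      clear hsub h2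
      revert q
      decide
    refine (mem_exact h _ _ hz').2 ⟨0, e1 q, fun i => (h - 1) * e1 q i, ?_, ?_, ?_⟩
    · rw [Finsupp.tsub_apply, c7, ind_apply, if_neg h7, Nat.sub_zero]
      exact (prof_special h hh).2 ⟨rfl, q, rfl, rfl⟩
    · intro j hj
      have hρ0 := rho_special h q j
      rw [hρ0, Finsupp.tsub_apply, ind_apply]
      by_cases hjT : j ∈ Tset q
      · have hjτ : j ∉ τ := Finset.disjoint_right.1 h2 hjT
        obtain ⟨-, hj0⟩ := Tset_lt q j hjT
        rw [if_pos hjT, if_neg hj0, if_neg hjτ, mul_zero, add_zero, Nat.sub_zero]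
        have h8 : bcrit h l j = 1 := by
          clear hjT hjτ
          fin_cases j <;> first | exact absurd rfl hj0 | rfl | exact absurd hj (by decide)
        omega
      · rw [if_neg hjT]
        by_cases hj0 : j = 0
        · subst hj0
          rw [if_pos rfl, if_neg h0, c0]
          omega
        · rw [if_neg hj0, mul_zero, add_zero]
          exact Nat.zero_le _
    · rw [xdeg_sub hle, hx]
      have h10 := card_eq τ
      omega

end Pool.Agent.Helper16.Koszul
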