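import Mathlib
import Pool.Agent.Helper16.FieldDepCrit

set_option linter.unusedSectionVars false

namespace Pool.Agent.Helper16.Koszul

open Finset MvPolynomial CategoryTheory
open Pool.Agent.Helper16.FieldDep

/-! ### homology of the six vertex projective plane -/

lemma RPmem_subset {σ τ : Finset (Fin 10)} (hτ : RPmem τ) (h : σ ⊆ τ) : RPmem σ := by
  obtain ⟨h1, q, h2⟩ := hτ
  exact ⟨fun j hj => h1 j (h hj), q, Finset.disjoint_of_subset_left h h2⟩

lemma RP_ordConnected : ({τ | RPmem τ} : Set (Finset (Fin 10))).OrdConnected := by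
  have : IsLowerSet ({τ | RPmem τ} : Set (Finset (Fin 10))) := fun _ _ h hτ => RPmem_subset hτ h
  exact this.ordConnected

lemma RP_sub {τ : Finset (Fin 10)} (hτ : RPmem τ) : τ ⊆ ({1, 2, 3, 4, 5, 6} : Finset (Fin 10)) := by
  intro j hj
  obtain ⟨g0, g7, g8, g9⟩ := hτ.1 j hj
  clear hj hτ
  fin_cases j <;> first | exact absurd rfl g0 | exact absurd rfl g7 | exact absurd rfl g8 |
    exact absurd rfl g9 | decide

lemma RP_card_le {τ : Finset (Fin 10)} (hτ : RPmem τ) : τ.card ≤ 3 := by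
  have h1 := RP_sub hτ
  obtain ⟨-, q, h2⟩ := hτ
  have hsub : τ ⊆ ({1, 2, 3, 4, 5, 6} : Finset (Fin 10)) \ Tset q := by
    intro j hj
    rw [Finset.mem_sdiff]
    exact ⟨h1 hj, Finset.disjoint_left.1 h2 hj⟩
  refine (Finset.card_le_card hsub).trans ?_
  clear hsub h2
  revert q
  decide

lemma RP_facet {τ : Finset (Fin 10)} (hτ : RPmem τ) (h3 : τ.card = 3) : ∃ q, τ = Fset q := by
  have h1 := RP_sub hτ
  obtain ⟨-, q, h2⟩ := hτ
  have hsub : τ ⊆ ({1, 2, 3, 4, 5, 6} : Finset (Fin 10)) \ Tset q := by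
    intro j hj
    rw [Finset.mem_sdiff]
    exact ⟨h1 hj, Finset.disjoint_left.1 h2 hj⟩
  have h4 : τ = ({1, 2, 3, 4, 5, 6} : Finset (Fin 10)) \ Tset q := by
    apply Finset.eq_of_subset_of_card_le hsub
    rw [h3]
    clear hsub h2
    revert q
    decide
  refine ⟨q, ?_⟩
  rw [h4]
  clear hsub h2 h4
  revert q
  decide

lemma RP_F (q : Fin 10) : RPmem (Fset q) ∧ (Fset q).card = 3 := by
  revert q
  decide

section Edge

variable {k : Type} [Field k]

lemma RP_edge {c : Finset (Fin 10) → k} (hc : c ∈ CC k {τ | RPmem τ} 3)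
    (hbd : bd k {τ | RPmem τ} c = 0) (σ : Finset (Fin 10)) (u v q r : Fin 10) (su sv : ℤ)
    (hall : (RPmem σ ∧ u ∉ σ ∧ v ∉ σ ∧ u ≠ v ∧
      (∀ j, j ∉ σ → j ≠ u → j ≠ v → ¬ RPmem (insert j σ))) ∧
      insert u σ = Fset q ∧ insert v σ = Fset r ∧ sgn u σ = su ∧ sgn v σ = sv) :
    su • c (Fset q) + sv • c (Fset r) = 0 := by
  obtain ⟨⟨h1, hu, hv, huv, ho⟩, h2, h3, h4, h5⟩ := hall
  have h0 : bdT (Fin 10) k c σ = 0 := by
    rw [← bd_of_mem (P := {τ | RPmem τ}) h1, hbd]; rfl
  rw [bdT_apply, ← Finset.add_sum_erase _ _ (Finset.mem_compl.2 hu),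
    ← Finset.add_sum_erase _ _ (Finset.mem_erase.2 ⟨Ne.symm huv, Finset.mem_compl.2 hv⟩),
    Finset.sum_eq_zero, add_zero] at h0
  · rwa [h2, h3, h4, h5] at h0
  · intro j hj
    rw [Finset.mem_erase, Finset.mem_erase, Finset.mem_compl] at hj
    have h6 : c (insert j σ) = 0 := by
      by_contra hne
      exact ho j hj.2.2 hj.2.1 hj.1 (hc _ hne).1
    rw [h6, smul_zero]

end Edge

lemma RP_rat_Ex : Ex ℚ {τ | RPmem τ} 3 := by
  intro c hc hbd
  have e01 := RP_edge hc hbd {1, 2} 3 4 0 1 1 1 (by decide)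
  have e02 := RP_edge hc hbd {1, 3} 2 5 0 2 (-1) 1 (by decide)
  have e13 := RP_edge hc hbd {1, 4} 2 6 1 3 (-1) 1 (by decide)
  have e24 := RP_edge hc hbd {1, 5} 3 6 2 4 (-1) 1 (by decide)
  have e05 := RP_edge hc hbd {2, 3} 1 6 0 5 1 1 (by decide)
  have e16 := RP_edge hc hbd {2, 4} 1 5 1 6 1 1 (by decide)
  have e67 := RP_edge hc hbd {2, 5} 4 6 6 7 (-1) 1 (by decide)
  have e28 := RP_edge hc hbd {3, 5} 1 4 2 8 1 (-1) (by decide)
  have e59 := RP_edge hc hbd {3, 6} 2 4 5 9 1 (-1) (by decide)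
  have e68 := RP_edge hc hbd {4, 5} 2 3 6 8 1 1 (by decide)
  simp only [one_smul, neg_smul] at e01 e02 e13 e24 e05 e16 e67 e28 e59 e68
  have h0 : c (Fset 0) = 0 := by linarith
  have hall : ∀ q, c (Fset q) = 0 := by
    intro q
    fin_cases q
    · exact h0
    · change c (Fset 1) = 0; linarith
    · change c (Fset 2) = 0; linarith
    · change c (Fset 3) = 0; linarith
    · change c (Fset 4) = 0; linarith
    · change c (Fset 5) = 0; linarith
    · change c (Fset 6) = 0; linarith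
    · change c (Fset 7) = 0; linarith
    · change c (Fset 8) = 0; linarith
    · change c (Fset 9) = 0; linarith
  have hc0 : c = 0 := by
    funext τ
    by_contra hne
    obtain ⟨h1, h2⟩ := hc τ hne
    obtain ⟨q, rfl⟩ := RP_facet h1 h2
    exact hne (hall q)
  exact ⟨0, zero_mem _, by rw [map_zero, hc0]⟩

/-- the fundamental cycle modulo two -/
def fund : Finset (Fin 10) → ZMod 2 := fun τ => if ∃ q, τ = Fset q then 1 else 0

lemma fund_mem : fund ∈ ZZ (ZMod 2) {τ | RPmem τ} 3 := by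
  constructor
  · intro τ hτ
    unfold fund at hτ
    by_cases h1 : ∃ q, τ = Fset q
    · obtain ⟨q, rfl⟩ := h1
      exact RP_F q
    · rw [if_neg h1] at hτ
      exact absurd rfl hτ
  · change bd (ZMod 2) {τ | RPmem τ} fund = 0
    funext σ
    rw [Pi.zero_apply]
    by_cases hσ : RPmem σ
    · rw [bd_of_mem hσ, bdT_apply]
      have hsg : ∀ j, (sgn j σ : ℤ) • fund (insert j σ) = fund (insert j σ) := by
        intro j
        unfold sgn
        rcases neg_one_pow_eq_or ℤ (σ.filter (fun l => l < j)).card with h1 | h1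
        · rw [h1, one_smul]
        · rw [h1, neg_smul, one_smul]
          exact CharTwo.neg_eq _
      simp only [hsg]
      by_cases h2 : σ.card = 2
      · have h3 : σ ∈ Finset.powersetCard 2 ({1, 2, 3, 4, 5, 6} : Finset (Fin 10)) :=
          Finset.mem_powersetCard.2 ⟨RP_sub hσ, h2⟩
        have key : ∀ σ ∈ Finset.powersetCard 2 ({1, 2, 3, 4, 5, 6} : Finset (Fin 10)),
            ∑ j ∈ σᶜ, fund (insert j σ) = 0 := by
          decide +kernel
        exact key σ h3
      · apply Finset.sum_eq_zero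
        intro j hj
        rw [Finset.mem_compl] at hj
        unfold fund
        rw [if_neg]
        rintro ⟨q, hq⟩
        have h3 := (RP_F q).2
        rw [← hq, Finset.card_insert_of_notMem hj] at h3
        omega
    · exact bd_of_notMem hσ

lemma hd_two_pos : 0 < hd (ZMod 2) {τ | RPmem τ} 3 := by
  have h1 := hd_add (k := ZMod 2) RP_ordConnected 3
  have h2 := finrank_ZZ_add (k := ZMod 2) {τ | RPmem τ} 3
  have h3 : rk (ZMod 2) {τ | RPmem τ} (3 + 1) = 0 := by
    apply rk_eq_zero_of_large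
    intro τ hτ hc
    have := RP_card_le hτ
    omega
  have h4 : 0 < Module.finrank (ZMod 2) (ZZ (ZMod 2) {τ | RPmem τ} 3) := by
    have : Nontrivial (ZZ (ZMod 2) {τ | RPmem τ} 3) := by
      refine ⟨⟨⟨fund, fund_mem⟩, 0, ?_⟩⟩
      intro hc
      have h5 := congrFun (congrArg Subtype.val hc) (Fset 0)
      have h6 : fund (Fset 0) = 1 := if_pos ⟨0, rfl⟩
      change fund (Fset 0) = 0 at h5
      rw [h6] at h5
      exact one_ne_zero h5
    exact Module.finrank_pos
  omega

lemma hd_rat_zero : hd ℚ {τ | RPmem τ} 3 = 0 := hd_eq_zero_of_Ex RP_rat_Ex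

end Pool.Agent.Helper16.Koszul
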