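import Mathlib
import Pool.Agent.Helper16.FieldDepPlane

set_option linter.unusedSectionVars false

namespace Pool.Agent.Helper16.Koszul

open Finset MvPolynomial CategoryTheory
open Pool.Agent.Helper16.FieldDep

variable (h : ℕ)

lemma GG_le {g : Fin 10 →₀ ℕ} (hg : g ∈ GG h) (j : Fin 10) : g j ≤ bD h + 3 := by
  rcases hg with hg | hg
  · obtain ⟨h9, h1, -, -⟩ := hg
    unfold xdeg zdeg at h1
    fin_cases j
    · change g 0 ≤ _; omega
    · change g 1 ≤ _; omega
    · change g 2 ≤ _; omega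
    · change g 3 ≤ _; omega
    · change g 4 ≤ _; omega
    · change g 5 ≤ _; omega
    · change g 6 ≤ _; omega
    · change g 7 ≤ _; omega
    · change g 8 ≤ _; omega
    · change g 9 ≤ _; omega
  · rw [Set.mem_singleton_iff] at hg
    rw [hg, Finsupp.single_apply]
    split_ifs <;> omega

open Classical in
/-- the generators as a finite set -/
noncomputable def GF : Finset (Fin 10 →₀ ℕ) := (box (Fin 10) (bD h + 3)).filter (· ∈ GG h)

lemma coe_GF : (GF h : Set (Fin 10 →₀ ℕ)) = GG h := by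
  ext g
  rw [GF, Finset.coe_filter, Set.mem_ofPred_eq, mem_box]
  exact ⟨fun h1 => h1.2, fun h1 => ⟨GG_le h h1, h1⟩⟩

lemma betti_GF (k : Type) [Field k] (l i : ℕ) :
    bettiNumber k (monomialIdeal k (GF h) ^ l) i =
      ∑ b ∈ box (Fin 10) (l * (bD h + 3)), hd k (Kb (UU (GG h) l) b) i := by
  rw [monomialIdeal_pow, coe_GF]
  exact bettiNumber_eq (UU_upper _ l) i _ fun b hb =>
    Ex_outside_box (UU_upper _ l) (UU_bounded (fun g hg j => GG_le h hg j) l) hb i

theorem indep {l : ℕ} (hl1 : 1 ≤ l) (hlh : l < h) : ¬ PowerDependsOnField (GF h) l := by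
  rintro ⟨k, k', _, _, i, hne⟩
  apply hne
  rw [betti_GF, betti_GF]
  refine Finset.sum_congr rfl fun b _ => ?_
  exact hd_eq_of_rk_eq (Kb_lower (UU_upper _ l) b).ordConnected
    (fun i => rk_indep h hl1 hlh b k k' i) i

theorem dep (hh : 1 ≤ h) {l : ℕ} (hl : h ≤ l) : PowerDependsOnField (GF h) l := by
  refine ⟨ℚ, ZMod 2, inferInstance, inferInstance, 3, ?_⟩
  rw [betti_GF, betti_GF]
  apply ne_of_lt
  have hpos : 0 < hd (ZMod 2) (Kb (UU (GG h) l) (bcrit h l)) 3 := by
    rw [Kb_crit h hh l hl]; exact hd_two_pos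
  apply Finset.sum_lt_sum
  · intro b _
    exact hd_rat_le _ _ (Kb_lower (UU_upper _ l) b).ordConnected 2
  · refine ⟨bcrit h l, ?_, ?_⟩
    · by_contra hb
      have := hd_eq_zero_of_Ex (Ex_outside_box (k := ZMod 2) (UU_upper _ l)
        (UU_bounded (fun g hg j => GG_le h hg j) l) hb 3)
      omega
    · rw [show hd ℚ (Kb (UU (GG h) l) (bcrit h l)) 3 = 0 by
        rw [Kb_crit h hh l hl]; exact hd_rat_zero]
      exact hpos

end Pool.Agent.Helper16.Koszul
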