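import Mathlib

set_option linter.unusedSectionVars false

namespace Pool.Agent.Helper16.Semi

/-- The data from which the ring is built. -/
structure Datum (B K : Type) [CommRing B] [Field K] [Algebra B K] where
  /-- the derivation -/
  δ : K → K
  δ_add : ∀ a b, δ (a + b) = δ a + δ b
  δ_mul : ∀ a b, δ (a * b) = a * δ b + b * δ a
  δδ : ∀ a, δ (δ a) = 0
  two : (2 : K) = 0
  /-- the variables used to make poles -/
  g : ℕ → B
  /-- units -/
  u : ℕ → B
  /-- the primes (or ones) -/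
  z : ℕ → B
  isUnit_u : ∀ m, IsUnit (u m)
  δ_uz : ∀ m, δ (algebraMap B K (u m * z m)) = 0
  δ_g : ∀ m, δ (algebraMap B K (g m)) * algebraMap B K (∏ j ∈ Finset.range m, u j * z j) = 1
  exists_P : ∀ b : B, ∃ m, ∃ c : B,
    algebraMap B K (∏ j ∈ Finset.range m, u j * z j) * δ (algebraMap B K b) = algebraMap B K c
  δ_z : ∀ m, ∃ c : B,
    algebraMap B K (∏ j ∈ Finset.range m, u j * z j) * δ (algebraMap B K (z m)) = algebraMap B K c
  z_eq : ∀ m, z m = 1 ∨ Prime (z m)
  not_dvd : ∀ i j, i ≠ j → Prime (z i) → Prime (z j) → ¬ z i ∣ z j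
  exists_z : ∀ p : B, Prime p → ∃ m, Associated p (z m)

namespace Datum

variable {B K : Type} [CommRing B] [IsDomain B] [Field K] [Algebra B K] [IsFractionRing B K]
  (X : Datum B K)

/-- The products `P m`. -/
def P (m : ℕ) : B := ∏ j ∈ Finset.range m, X.u j * X.z j

lemma P_zero : X.P 0 = 1 := by simp [P]

lemma P_succ (m : ℕ) : X.P (m + 1) = X.P m * (X.u m * X.z m) := by
  simp [P, Finset.prod_range_succ]

lemma P_dvd {m n : ℕ} (h : m ≤ n) : X.P m ∣ X.P n := by
  induction n, h using Nat.le_induction with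
  | base => exact dvd_rfl
  | succ n _ ih => exact ih.trans ⟨_, X.P_succ n⟩

include X in
lemma add_self' (a : K) : a + a = 0 := by
  have := X.two
  linear_combination a * this

include X in
lemma neg_eq' (a : K) : -a = a := by
  have := X.add_self' a
  linear_combination -this

lemma δ_zero : X.δ 0 = 0 := by
  have := X.δ_add 0 0
  rw [add_zero] at this
  linear_combination -this

lemma δ_one : X.δ 1 = 0 := by
  have := X.δ_mul 1 1
  rw [mul_one, one_mul] at this
  linear_combination -this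

lemma δ_sq (a : K) : X.δ (a ^ 2) = 0 := by
  rw [pow_two, X.δ_mul]
  exact X.add_self' _

lemma δ_neg (a : K) : X.δ (-a) = -X.δ a := by
  rw [X.neg_eq', X.neg_eq']

lemma δ_P (m : ℕ) : X.δ (algebraMap B K (X.P m)) = 0 := by
  induction m with
  | zero => rw [P_zero, map_one, X.δ_one]
  | succ m ih => rw [P_succ, map_mul, X.δ_mul, ih, X.δ_uz]; simp

lemma z_ne_zero (m : ℕ) : X.z m ≠ 0 := by
  rcases X.z_eq m with h | h
  · rw [h]; exact one_ne_zero
  · exact h.ne_zero

lemma P_ne_zero (m : ℕ) : X.P m ≠ 0 := by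
  unfold P
  rw [Finset.prod_ne_zero_iff]
  intro j _
  exact mul_ne_zero (X.isUnit_u j).ne_zero (X.z_ne_zero j)

lemma algebraMap_P_ne_zero (m : ℕ) : algebraMap B K (X.P m) ≠ 0 := by
  rw [Ne, FaithfulSMul.algebraMap_eq_zero_iff]
  exact X.P_ne_zero m

/-- `b` is `δ`-integral at level `m`. -/
lemma exists_P_ge (b : B) : ∃ m, ∀ n, m ≤ n → ∃ c : B,
    algebraMap B K (X.P n) * X.δ (algebraMap B K b) = algebraMap B K c := by
  obtain ⟨m, c, hc⟩ := X.exists_P b
  refine ⟨m, fun n hn => ?_⟩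
  obtain ⟨d, hd⟩ := X.P_dvd hn
  refine ⟨d * c, ?_⟩
  rw [hd, map_mul, map_mul, ← hc]
  change algebraMap B K (∏ j ∈ Finset.range m, X.u j * X.z j) * _ * _ = _
  ring

/-- The subring of constants of `B`. -/
def D : Subring B where
  carrier := {b | X.δ (algebraMap B K b) = 0}
  mul_mem' := by
    intro a b ha hb
    change X.δ _ = 0 at ha hb ⊢
    rw [map_mul, X.δ_mul, ha, hb]; simp
  one_mem' := by
    change X.δ _ = 0
    rw [map_one, X.δ_one]
  add_mem' := by
    intro a b ha hb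
    change X.δ _ = 0 at ha hb ⊢
    rw [map_add, X.δ_add, ha, hb]; simp
  zero_mem' := by
    change X.δ _ = 0
    rw [map_zero, X.δ_zero]
  neg_mem' := by
    intro a ha
    change X.δ _ = 0 at ha ⊢
    rw [map_neg, X.δ_neg, ha, neg_zero]

lemma mem_D {b : B} : b ∈ X.D ↔ X.δ (algebraMap B K b) = 0 := Iff.rfl

/-- The subring `R` of elements `b` with `δ b` integral. -/
def R : Subring B where
  carrier := {b | ∃ c : B, X.δ (algebraMap B K b) = algebraMap B K c}
  mul_mem' := by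
    rintro a b ⟨c, hc⟩ ⟨d, hd⟩
    exact ⟨a * d + b * c, by rw [map_mul, X.δ_mul, hc, hd]; simp⟩
  one_mem' := ⟨0, by rw [map_one, X.δ_one, map_zero]⟩
  add_mem' := by
    rintro a b ⟨c, hc⟩ ⟨d, hd⟩
    exact ⟨c + d, by rw [map_add, X.δ_add, hc, hd]; simp⟩
  zero_mem' := ⟨0, by rw [map_zero, X.δ_zero]⟩
  neg_mem' := by
    rintro a ⟨c, hc⟩
    exact ⟨-c, by rw [map_neg, X.δ_neg, hc, map_neg]⟩

lemma mem_R {b : B} : b ∈ X.R ↔ ∃ c : B, X.δ (algebraMap B K b) = algebraMap B K c := Iff.rfl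

lemma D_le_R : X.D ≤ X.R := fun b hb => ⟨0, by rw [X.mem_D.1 hb, map_zero]⟩

lemma sq_mem_D (b : B) : b ^ 2 ∈ X.D := by
  rw [mem_D, map_pow]; exact X.δ_sq _

lemma sq_mem_R (b : B) : b ^ 2 ∈ X.R := X.D_le_R (X.sq_mem_D b)

lemma P_mem_D (m : ℕ) : X.P m ∈ X.D := X.δ_P m

lemma δ_g' (m : ℕ) : X.δ (algebraMap B K (X.g m)) * algebraMap B K (X.P m) = 1 := X.δ_g m

/-- Decomposition of an element of `B` along `1, g n`. -/
lemma exists_decomp (b : B) : ∃ m, ∀ n, m ≤ n → ∃ α ∈ X.D, ∃ β ∈ X.D, b = α + β * X.g n := by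
  obtain ⟨m, hm⟩ := X.exists_P_ge b
  refine ⟨m, fun n hn => ?_⟩
  obtain ⟨β, hβ⟩ := hm n hn
  have hβD : β ∈ X.D := by
    rw [mem_D, ← hβ, X.δ_mul, X.δ_P, X.δδ]; simp
  refine ⟨b - β * X.g n, ?_, β, hβD, by ring⟩
  rw [mem_D, sub_eq_add_neg, map_add, X.δ_add, map_neg, X.δ_neg, map_mul, X.δ_mul, X.mem_D.1 hβD,
    ← hβ]
  have := X.δ_g' n
  linear_combination (-X.δ (algebraMap B K b)) * this

lemma decomp_zero {n : ℕ} {α β : B} (hα : α ∈ X.D) (hβ : β ∈ X.D) (h : α + β * X.g n = 0) :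
    α = 0 ∧ β = 0 := by
  have h1 : X.δ (algebraMap B K (α + β * X.g n)) = 0 := by rw [h, map_zero, X.δ_zero]
  rw [map_add, X.δ_add, map_mul, X.δ_mul, X.mem_D.1 hα, X.mem_D.1 hβ] at h1
  have h2 := X.δ_g' n
  have h3 : algebraMap B K β = 0 := by
    have : algebraMap B K β * X.δ (algebraMap B K (X.g n)) = 0 := by linear_combination h1
    rcases mul_eq_zero.1 this with h4 | h4
    · exact h4
    · rw [h4] at h2; simp at h2
  have h4 : β = 0 := by
    rwa [FaithfulSMul.algebraMap_eq_zero_iff] at h3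
  refine ⟨?_, h4⟩
  rw [h4] at h
  simpa using h

/-- Elements of the extension of an ideal of `D` to `B`. -/
lemma mem_map_D (I : Ideal X.D) {y : B} (hy : y ∈ I.map X.D.subtype) :
    ∃ m, ∀ n, m ≤ n → ∃ α ∈ I, ∃ β ∈ I, y = (α : B) + (β : B) * X.g n := by
  induction hy using Submodule.span_induction with
  | mem x hx =>
    obtain ⟨a, ha, rfl⟩ := hx
    exact ⟨0, fun n _ => ⟨a, ha, 0, I.zero_mem, by simp⟩⟩
  | zero => exact ⟨0, fun n _ => ⟨0, I.zero_mem, 0, I.zero_mem, by simp⟩⟩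
  | add x y _ _ hx hy =>
    obtain ⟨m₁, h₁⟩ := hx
    obtain ⟨m₂, h₂⟩ := hy
    refine ⟨max m₁ m₂, fun n hn => ?_⟩
    obtain ⟨α, hα, β, hβ, rfl⟩ := h₁ n (le_trans (le_max_left _ _) hn)
    obtain ⟨α', hα', β', hβ', rfl⟩ := h₂ n (le_trans (le_max_right _ _) hn)
    exact ⟨α + α', I.add_mem hα hα', β + β', I.add_mem hβ hβ', by push_cast; ring⟩
  | smul b x _ hx =>
    obtain ⟨m₁, h₁⟩ := hx
    obtain ⟨m₂, h₂⟩ := X.exists_decomp b
    refine ⟨max m₁ m₂, fun n hn => ?_⟩
    obtain ⟨α, hα, β, hβ, rfl⟩ := h₁ n (le_trans (le_max_left _ _) hn)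
    obtain ⟨α', hα', β', hβ', rfl⟩ := h₂ n (le_trans (le_max_right _ _) hn)
    refine ⟨⟨α', hα'⟩ * α + (⟨β', hβ'⟩ * ⟨X.g n ^ 2, X.sq_mem_D _⟩) * β, ?_,
      ⟨α', hα'⟩ * β + ⟨β', hβ'⟩ * α, ?_, ?_⟩
    · exact I.add_mem (I.mul_mem_left _ hα) (I.mul_mem_left _ hβ)
    · exact I.add_mem (I.mul_mem_left _ hβ) (I.mul_mem_left _ hα)
    · push_cast
      rw [smul_eq_mul]
      ring

lemma comap_map_D (I : Ideal X.D) {x : X.D} (hx : (x : B) ∈ I.map X.D.subtype) : x ∈ I := by
  obtain ⟨m, hm⟩ := X.mem_map_D I hx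
  obtain ⟨α, hα, β, hβ, h⟩ := hm m le_rfl
  have h1 : ((α - x : X.D) : B) + (β : B) * X.g m = 0 := by
    push_cast; rw [h]; ring
  have h2 := (X.decomp_zero (α - x).2 β.2 h1).1
  have h3 : α - x = 0 := Subtype.ext h2
  rw [sub_eq_zero] at h3
  rw [← h3]; exact hα

lemma isNoetherianRing_D [IsNoetherianRing B] : IsNoetherianRing X.D := by
  have h1 : StrictMono (fun I : Ideal X.D => I.map X.D.subtype) := by
    intro I J hIJ
    refine lt_of_le_of_ne (Ideal.map_mono hIJ.le) ?_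
    intro h
    apply hIJ.not_ge
    intro x hx
    apply X.comap_map_D
    change (x : B) ∈ (fun I : Ideal X.D => I.map X.D.subtype) I
    rw [h]
    exact Ideal.mem_map_of_mem _ hx
  have h2 : WellFoundedGT (Ideal B) := isNoetherian_iff'.1 inferInstance
  exact isNoetherian_iff'.2 h1.wellFoundedGT


/-! ### `R` is Noetherian -/

lemma g_zero_δ : X.δ (algebraMap B K (X.g 0)) = 1 := by
  have := X.δ_g' 0
  rwa [P_zero, map_one, mul_one] at this

lemma g_zero_mem_R : X.g 0 ∈ X.R := ⟨1, by rw [X.g_zero_δ, map_one]⟩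

lemma R_decomp {b : B} (hb : b ∈ X.R) : ∃ α ∈ X.D, ∃ β ∈ X.D, b = α + β * X.g 0 := by
  obtain ⟨β, hβ⟩ := hb
  have hβD : β ∈ X.D := by
    rw [mem_D, ← hβ, X.δδ]
  refine ⟨b - β * X.g 0, ?_, β, hβD, by ring⟩
  rw [mem_D, sub_eq_add_neg, map_add, X.δ_add, map_neg, X.δ_neg, map_mul, X.δ_mul, X.mem_D.1 hβD,
    ← hβ, X.g_zero_δ]
  ring

lemma isNoetherianRing_R [IsNoetherianRing B] : IsNoetherianRing X.R := by
  have hD := X.isNoetherianRing_D
  let _ : Algebra X.D X.R := (Subring.inclusion X.D_le_R).toAlgebra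
  have hfin : Module.Finite X.D X.R := by
    classical
    refine ⟨⟨{1, ⟨X.g 0, X.g_zero_mem_R⟩}, ?_⟩⟩
    rw [eq_top_iff]
    rintro ⟨b, hb⟩ -
    obtain ⟨α, hα, β, hβ, h⟩ := X.R_decomp hb
    rw [Finset.coe_insert, Finset.coe_singleton, Submodule.mem_span_pair]
    refine ⟨⟨α, hα⟩, ⟨β, hβ⟩, ?_⟩
    apply Subtype.ext
    change α * 1 + β * X.g 0 = b
    rw [h]
    ring
  have h2 : IsNoetherian X.D X.R := isNoetherian_of_isNoetherianRing_of_finite _ _
  exact isNoetherian_of_tower X.D h2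

/-! ### `B` is integral over `R` and `R` has fraction field `K` -/

/-- The inclusion of `R` in `K`. -/
noncomputable instance : Algebra X.R K := ((algebraMap B K).comp X.R.subtype).toAlgebra

lemma algebraMap_R (r : X.R) : algebraMap X.R K r = algebraMap B K (r : B) := rfl

lemma algebraMap_R_injective : Function.Injective (algebraMap X.R K) := by
  intro a b h
  rw [algebraMap_R, algebraMap_R] at h
  exact Subtype.ext (FaithfulSMul.algebraMap_injective B K h)

lemma P_mul_mem_R (b : B) : ∃ m, X.P m * b ∈ X.R := by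
  obtain ⟨m, c, hc⟩ := X.exists_P b
  refine ⟨m, c, ?_⟩
  rw [map_mul, X.δ_mul, X.δ_P, ← hc]
  change _ = algebraMap B K (X.P m) * _
  ring

instance isFractionRing_R : IsFractionRing X.R K := by
  have hinj := X.algebraMap_R_injective
  have : FaithfulSMul X.R K := (faithfulSMul_iff_algebraMap_injective _ _).2 hinj
  refine IsFractionRing.of_field X.R K fun z ↦ ?_
  obtain ⟨a, b, hb, rfl⟩ := IsFractionRing.div_surjective (A := B) z
  obtain ⟨m, hm⟩ := X.P_mul_mem_R a
  obtain ⟨n, hn⟩ := X.P_mul_mem_R b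
  have hb0 : b ≠ 0 := nonZeroDivisors.ne_zero hb
  have hP : ∀ m, X.P m ∈ X.R := fun m => X.D_le_R (X.P_mem_D m)
  refine ⟨⟨X.P n * (X.P m * a), mul_mem (hP n) hm⟩, ⟨X.P m * (X.P n * b), mul_mem (hP m) hn⟩, ?_⟩
  rw [algebraMap_R, algebraMap_R]
  have h1 := X.algebraMap_P_ne_zero m
  have h2 := X.algebraMap_P_ne_zero n
  have h3 : algebraMap B K b ≠ 0 := by
    rwa [Ne, FaithfulSMul.algebraMap_eq_zero_iff]
  simp only [map_mul]
  field_simp

lemma isIntegral_algebraMap (b : B) : IsIntegral X.R (algebraMap B K b) := by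
  refine ⟨Polynomial.X ^ 2 - Polynomial.C ⟨b ^ 2, X.sq_mem_R b⟩, ?_, ?_⟩
  · exact Polynomial.monic_X_pow_sub_C _ two_ne_zero
  · simp [algebraMap_R]

lemma isIntegral_iff [IsIntegrallyClosed B] (x : K) :
    IsIntegral X.R x ↔ ∃ b : B, algebraMap B K b = x := by
  constructor
  · intro h
    have h1 : IsIntegral B x := by
      obtain ⟨p, hp, hx⟩ := h
      refine ⟨p.map X.R.subtype, hp.map _, ?_⟩
      rw [Polynomial.eval₂_map]
      exact hx
    exact IsIntegrallyClosed.isIntegral_iff.1 h1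
  · rintro ⟨b, rfl⟩
    exact X.isIntegral_algebraMap b


/-! ### Prime ideals -/

include X in
lemma add_sq' (a b : B) : (a + b) ^ 2 = a ^ 2 + b ^ 2 := by
  apply FaithfulSMul.algebraMap_injective B K
  simp only [map_pow, map_add]
  have := X.add_self' (algebraMap B K a * algebraMap B K b)
  linear_combination this

lemma sq_eq (r : X.R) : (⟨(r : B) ^ 2, X.sq_mem_R r⟩ : X.R) = r ^ 2 := Subtype.ext rfl

/-- The prime of `B` over a prime of `R`. -/
def primeOver (q : Ideal X.R) (hq : q.IsPrime) : Ideal B where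
  carrier := {b | (⟨b ^ 2, X.sq_mem_R b⟩ : X.R) ∈ q}
  add_mem' := by
    intro a b ha hb
    have h1 : (⟨(a + b) ^ 2, X.sq_mem_R (a + b)⟩ : X.R) =
        ⟨a ^ 2, X.sq_mem_R a⟩ + ⟨b ^ 2, X.sq_mem_R b⟩ := Subtype.ext (X.add_sq' a b)
    change (⟨(a + b) ^ 2, X.sq_mem_R (a + b)⟩ : X.R) ∈ q
    rw [h1]
    exact q.add_mem ha hb
  zero_mem' := by
    have h1 : (⟨(0 : B) ^ 2, X.sq_mem_R 0⟩ : X.R) = 0 := Subtype.ext (by simp)
    change (⟨(0 : B) ^ 2, X.sq_mem_R 0⟩ : X.R) ∈ q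
    rw [h1]
    exact q.zero_mem
  smul_mem' := by
    intro a b hb
    have h1 : (⟨(a • b) ^ 2, X.sq_mem_R (a • b)⟩ : X.R) =
        ⟨a ^ 2, X.sq_mem_R a⟩ * ⟨b ^ 2, X.sq_mem_R b⟩ := Subtype.ext (by simp [mul_pow])
    change (⟨(a • b) ^ 2, X.sq_mem_R (a • b)⟩ : X.R) ∈ q
    rw [h1]
    exact q.mul_mem_left _ hb

lemma mem_primeOver {q : Ideal X.R} {hq : q.IsPrime} {b : B} :
    b ∈ X.primeOver q hq ↔ (⟨b ^ 2, X.sq_mem_R b⟩ : X.R) ∈ q := Iff.rfl

lemma primeOver_isPrime (q : Ideal X.R) (hq : q.IsPrime) : (X.primeOver q hq).IsPrime := by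
  refine ⟨?_, ?_⟩
  · intro h
    have : (1 : B) ∈ X.primeOver q hq := by rw [h]; trivial
    rw [mem_primeOver] at this
    apply hq.ne_top
    rw [Ideal.eq_top_iff_one]
    convert this using 1
    exact Subtype.ext (by simp)
  · intro a b hab
    rw [mem_primeOver] at hab ⊢
    rw [mem_primeOver]
    have h1 : (⟨(a * b) ^ 2, X.sq_mem_R (a * b)⟩ : X.R) =
        ⟨a ^ 2, X.sq_mem_R a⟩ * ⟨b ^ 2, X.sq_mem_R b⟩ := Subtype.ext (by simp [mul_pow])
    rw [h1] at hab
    exact hq.mem_or_mem hab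

lemma comap_primeOver (q : Ideal X.R) (hq : q.IsPrime) :
    (X.primeOver q hq).comap X.R.subtype = q := by
  ext r
  rw [Ideal.mem_comap, mem_primeOver]
  change (⟨(r : B) ^ 2, X.sq_mem_R r⟩ : X.R) ∈ q ↔ r ∈ q
  rw [X.sq_eq]
  exact ⟨fun h => hq.mem_of_pow_mem 2 h, fun h => Ideal.pow_mem_of_mem q h 2 (by norm_num)⟩

lemma le_of_comap_le {P Q : Ideal B} (hQ : Q.IsPrime)
    (h : P.comap X.R.subtype ≤ Q.comap X.R.subtype) : P ≤ Q := by
  intro b hb
  have h1 : (⟨b ^ 2, X.sq_mem_R b⟩ : X.R) ∈ P.comap X.R.subtype := by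
    rw [Ideal.mem_comap]
    exact Ideal.pow_mem_of_mem P hb 2 (by norm_num)
  exact hQ.mem_of_pow_mem 2 (h h1)

/-- The spectra of `B` and `R` are isomorphic as ordered sets. -/
def specIso : PrimeSpectrum B ≃o PrimeSpectrum X.R where
  toFun P := ⟨P.asIdeal.comap X.R.subtype, inferInstance⟩
  invFun q := ⟨X.primeOver q.asIdeal q.isPrime, X.primeOver_isPrime _ _⟩
  left_inv P := by
    apply PrimeSpectrum.ext
    have hP := P.isPrime
    change X.primeOver (P.asIdeal.comap X.R.subtype) inferInstance = P.asIdeal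
    apply le_antisymm
    · apply X.le_of_comap_le P.isPrime
      rw [X.comap_primeOver]
    · apply X.le_of_comap_le (X.primeOver_isPrime _ _)
      rw [X.comap_primeOver]
  right_inv q := by
    apply PrimeSpectrum.ext
    change (X.primeOver q.asIdeal q.isPrime).comap X.R.subtype = q.asIdeal
    exact X.comap_primeOver _ _
  map_rel_iff' := by
    intro P Q
    constructor
    · intro h
      exact X.le_of_comap_le Q.isPrime h
    · intro h
      exact Ideal.comap_mono h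

lemma ringKrullDim_R : ringKrullDim X.R = ringKrullDim B :=
  (Order.krullDim_eq_of_orderIso X.specIso).symm

/-! ### Height one primes -/

lemma isPrime_z_comap {m : ℕ} (h : Prime (X.z m)) :
    ((Ideal.span {X.z m}).comap X.R.subtype).IsPrime := by
  have := (Ideal.span_singleton_prime h.ne_zero).2 h
  infer_instance

lemma exists_z_of_height_one [UniqueFactorizationMonoid B] (p : Ideal X.R) (hp : p.IsPrime)
    (hh : p.height = 1) :
    ∃ m, Prime (X.z m) ∧ p = (Ideal.span {X.z m}).comap X.R.subtype := by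
  have hbot : p ≠ ⊥ := by
    rintro rfl
    rw [Ideal.height_bot] at hh
    exact zero_ne_one hh
  have hP := X.primeOver_isPrime p hp
  have hPbot : X.primeOver p hp ≠ ⊥ := by
    intro h
    apply hbot
    rw [← X.comap_primeOver p hp, h, eq_bot_iff]
    intro r hr
    rw [Ideal.mem_comap] at hr
    exact Subtype.ext hr
  obtain ⟨e, he, hpe⟩ := hP.exists_mem_prime_of_ne_bot hPbot
  obtain ⟨m, hm⟩ := X.exists_z e hpe
  have hzm : Prime (X.z m) := hm.prime_iff.1 hpe
  refine ⟨m, hzm, ?_⟩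
  have hle : (Ideal.span {X.z m}).comap X.R.subtype ≤ p := by
    rw [← X.comap_primeOver p hp]
    apply Ideal.comap_mono
    rw [Ideal.span_singleton_le_iff_mem]
    exact (Ideal.mem_iff_of_associated hm).1 he
  have hprime := X.isPrime_z_comap hzm
  by_contra hne
  have hlt : (Ideal.span {X.z m}).comap X.R.subtype < p := lt_of_le_of_ne hle (Ne.symm hne)
  have hfin : ((Ideal.span {X.z m}).comap X.R.subtype).FiniteHeight := by
    refine ⟨Or.inr fun h => ?_⟩
    have h1 := Ideal.height_mono hle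
    rw [h, hh] at h1
    exact absurd h1 (by decide)
  have hfin' : p.FiniteHeight := ⟨Or.inr (by rw [hh]; decide)⟩
  have h1 := Ideal.height_strict_mono_of_isPrime_of_isPrime hlt
  rw [hh, Order.lt_one_iff, Ideal.height_eq_zero_iff_eq_bot] at h1
  have h2 : (⟨X.z m ^ 2, X.sq_mem_R _⟩ : X.R) ∈ (Ideal.span {X.z m}).comap X.R.subtype := by
    rw [Ideal.mem_comap]
    change X.z m ^ 2 ∈ Ideal.span {X.z m}
    rw [Ideal.mem_span_singleton]
    exact dvd_pow_self _ two_ne_zero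
  rw [h1] at h2
  have h3 : X.z m ^ 2 = 0 := congrArg (Subtype.val) (h2 : (⟨X.z m ^ 2, X.sq_mem_R _⟩ : X.R) = 0)
  exact hzm.ne_zero (pow_eq_zero_iff two_ne_zero |>.1 h3)

/-! ### Seminormality -/

lemma not_dvd_prod {j : ℕ} (hj : Prime (X.z j)) {s : Finset ℕ} (hs : j ∉ s) :
    ¬ X.z j ∣ ∏ i ∈ s, X.u i * X.z i := by
  intro h
  rw [hj.dvd_finsetProd_iff] at h
  obtain ⟨i, hi, h⟩ := h
  rcases hj.dvd_or_dvd h with h | h
  · exact hj.not_isUnit (isUnit_of_dvd_unit h (X.isUnit_u i))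
  · rcases X.z_eq i with h' | h'
    · rw [h'] at h
      exact hj.not_isUnit (isUnit_of_dvd_one h)
    · exact X.not_dvd j i (fun e => hs (e ▸ hi)) hj h' h

lemma P_split {m n : ℕ} (h : m ≤ n) :
    X.P n = X.P m * ∏ i ∈ Finset.Ico m n, X.u i * X.z i := by
  unfold P
  rw [Finset.range_eq_Ico, Finset.range_eq_Ico, Finset.prod_Ico_consecutive _ (Nat.zero_le _) h]

lemma exists_δz_dvd {j n : ℕ} (h : j < n) : ∃ c : B,
    algebraMap B K (X.P n) * X.δ (algebraMap B K (X.z j)) = algebraMap B K (X.z j * c) := by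
  obtain ⟨c, hc⟩ := X.δ_z j
  obtain ⟨e, he⟩ := X.P_dvd (Nat.succ_le_of_lt h)
  rw [Nat.succ_eq_add_one, P_succ] at he
  refine ⟨X.u j * e * c, ?_⟩
  rw [he]
  simp only [map_mul]
  rw [← hc]
  change _ = _ * (_ * _ * (algebraMap B K (X.P j) * _))
  ring

lemma δ_cube (a : K) : X.δ (a ^ 3) = a ^ 2 * X.δ a := by
  rw [pow_succ, X.δ_mul, X.δ_sq]; ring

lemma z_dvd_of_cube [UniqueFactorizationMonoid B] {b c d : B} {m j : ℕ} (hjm : j < m)
    (hj : Prime (X.z j)) (hc : algebraMap B K (X.P m) * X.δ (algebraMap B K b) = algebraMap B K c)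
    (hd : X.δ (algebraMap B K (b ^ 3)) = algebraMap B K d) : X.z j ∣ c := by
  have hinj := FaithfulSMul.algebraMap_injective B K
  have hzP : X.z j ∣ X.P m := by
    rw [P]
    exact (dvd_mul_left _ _).trans (Finset.dvd_prod_of_mem _ (Finset.mem_range.2 hjm))
  by_cases hb : X.z j ∣ b
  · obtain ⟨b', rfl⟩ := hb
    obtain ⟨m', hm'⟩ := X.exists_P_ge b'
    set n := max m m' with hn
    obtain ⟨c', hc'⟩ := hm' n (le_max_right _ _)
    obtain ⟨e, he⟩ := X.exists_δz_dvd (lt_of_lt_of_le hjm (le_max_left m m'))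
    rw [← hn] at he
    have hs := X.P_split (le_max_left m m')
    rw [← hn] at hs
    have key : X.z j ∣ (∏ i ∈ Finset.Ico m n, X.u i * X.z i) * c := by
      refine ⟨c' + b' * e, ?_⟩
      apply hinj
      rw [map_mul, ← hc]
      have h1 : algebraMap B K (X.P n) * X.δ (algebraMap B K (X.z j * b')) =
          algebraMap B K (X.z j * (c' + b' * e)) := by
        rw [map_mul, X.δ_mul, map_mul, map_add, map_mul, ← hc']
        rw [map_mul] at he
        linear_combination (algebraMap B K b') * he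
      rw [← h1, hs, map_mul (algebraMap B K) (X.P m)]
      ring
    rcases hj.dvd_or_dvd key with h | h
    · exact absurd h (X.not_dvd_prod hj (by simp [hjm]))
    · exact h
  · have h1 : X.P m * d = b ^ 2 * c := by
      apply hinj
      rw [map_mul, map_mul, ← hd, ← hc, map_pow, X.δ_cube, map_pow]
      ring
    have h2 : X.z j ∣ b ^ 2 * c := by
      rw [← h1]; exact hzP.mul_right _
    rcases hj.dvd_or_dvd h2 with h | h
    · exact absurd (hj.dvd_of_dvd_pow h) hb
    · exact h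

lemma P_dvd_of_cube [UniqueFactorizationMonoid B] {b c d : B} {m : ℕ}
    (hc : algebraMap B K (X.P m) * X.δ (algebraMap B K b) = algebraMap B K c)
    (hd : X.δ (algebraMap B K (b ^ 3)) = algebraMap B K d) : X.P m ∣ c := by
  unfold P
  apply Finset.prod_dvd_of_isRelPrime
  · intro i _ j _ hij
    change IsRelPrime (X.u i * X.z i) (X.u j * X.z j)
    have hi : IsRelPrime (X.z i) (X.z j) := by
      rcases X.z_eq i with h | h
      · rw [h]; exact isRelPrime_one_left
      rcases X.z_eq j with h' | h'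
      · rw [h']; exact isRelPrime_one_right
      exact (h.irreducible.isRelPrime_iff_not_dvd).2 (X.not_dvd i j hij h h')
    have h1 : Associated (X.z i) (X.u i * X.z i) := by
      rw [mul_comm]
      exact (associated_mul_unit_right _ _ (X.isUnit_u i))
    have h2 : Associated (X.z j) (X.u j * X.z j) := by
      rw [mul_comm]
      exact (associated_mul_unit_right _ _ (X.isUnit_u j))
    exact (hi.of_dvd_left h1.dvd').of_dvd_right h2.dvd'
  · intro j hj
    rw [Finset.mem_range] at hj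
    rw [(X.isUnit_u j).mul_left_dvd]
    rcases X.z_eq j with h | h
    · rw [h]; exact one_dvd _
    · exact X.z_dvd_of_cube hj h hc hd

lemma seminormal [UniqueFactorizationMonoid B] (x : K)
    (h2 : x ^ 2 ∈ (algebraMap X.R K).range) (h3 : x ^ 3 ∈ (algebraMap X.R K).range) :
    x ∈ (algebraMap X.R K).range := by
  have hx : IsIntegral X.R x := by
    obtain ⟨r, hr⟩ := h2
    refine ⟨Polynomial.X ^ 2 - Polynomial.C r, Polynomial.monic_X_pow_sub_C _ two_ne_zero, ?_⟩
    simp [hr]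
  obtain ⟨b, rfl⟩ := (X.isIntegral_iff x).1 hx
  obtain ⟨r, hr⟩ := h3
  rw [algebraMap_R, ← map_pow] at hr
  obtain ⟨d, hd⟩ := r.2
  rw [hr] at hd
  obtain ⟨m, c, hc⟩ := X.exists_P b
  obtain ⟨e, he⟩ := X.P_dvd_of_cube hc hd
  refine ⟨⟨b, e, ?_⟩, rfl⟩
  apply mul_left_cancel₀ (X.algebraMap_P_ne_zero m)
  rw [← map_mul, ← he, ← hc]
  rfl

/-! ### The associated primes -/

lemma δ_y (m : ℕ) : X.δ (algebraMap B K (X.P m * X.g (m + 1))) *
    algebraMap B K (X.u m * X.z m) = 1 := by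
  have := X.δ_g' (m + 1)
  rw [P_succ, map_mul] at this
  rw [map_mul, X.δ_mul, X.δ_P]
  linear_combination this

lemma mem_comap_iff (m : ℕ) (r : X.R) :
    r ∈ (Ideal.span {X.z m}).comap X.R.subtype ↔ (r : B) * (X.P m * X.g (m + 1)) ∈ X.R := by
  have hinj := FaithfulSMul.algebraMap_injective B K
  rw [Ideal.mem_comap, Ideal.mem_span_singleton]
  change X.z m ∣ (r : B) ↔ _
  obtain ⟨d, hd⟩ := r.2
  have h1 := X.δ_y m
  have h2 : algebraMap B K (X.u m * X.z m) ≠ 0 := by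
    intro h; rw [h] at h1; simp at h1
  constructor
  · rintro ⟨c, hc⟩
    obtain ⟨v, hv⟩ := (X.isUnit_u m).exists_right_inv
    refine ⟨c * v + X.P m * X.g (m + 1) * d, ?_⟩
    apply mul_right_cancel₀ h2
    rw [map_mul, X.δ_mul, hd, add_mul, mul_assoc, h1, hc]
    have hv' := congrArg (algebraMap B K) hv
    simp only [map_mul, map_add, map_one] at hv' ⊢
    linear_combination (-(algebraMap B K (X.z m)) * algebraMap B K c) * hv'
  · rintro ⟨e, he⟩
    rw [map_mul, X.δ_mul, hd] at he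
    have h3 : algebraMap B K (r : B) =
        algebraMap B K (X.z m * (X.u m * (e - X.P m * X.g (m + 1) * d))) := by
      simp only [map_mul, map_sub] at he h1 ⊢
      linear_combination (algebraMap B K (X.u m) * algebraMap B K (X.z m)) * he -
        (algebraMap B K (r : B)) * h1
    exact ⟨_, hinj h3⟩

end Datum
end Pool.Agent.Helper16.Semi
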