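import Mathlib

namespace Pool.Agent.Helper16.SemiDefs

/-- For a domain `R` with fraction field `K`: the ring `R` is seminormal, i.e. every `x` in `K`
with `x ^ 2` and `x ^ 3` in `R` lies in `R`. -/
def IsSeminormalIn (R K : Type) [CommRing R] [Field K] [Algebra R K] : Prop :=
  ∀ x : K, x ^ 2 ∈ (algebraMap R K).range → x ^ 3 ∈ (algebraMap R K).range →
    x ∈ (algebraMap R K).range

/-- For a domain `R` with fraction field `K`: the ideal `p` is the annihilator of an element of
the `R`-module `Rⁿ / R`, where `Rⁿ` is the integral closure of `R` in `K`. -/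
def IsAnnihilatorInNormalizationQuotient (R K : Type) [CommRing R] [Field K] [Algebra R K]
    (p : Ideal R) : Prop :=
  ∃ m : (integralClosure R K) ⧸ LinearMap.range (Algebra.linearMap R (integralClosure R K)),
    ∀ r : R, r ∈ p ↔ r • m = 0

end Pool.Agent.Helper16.SemiDefs
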