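import Mathlib
import Pool.Agent.Helper16.SemiCore

set_option linter.unusedSectionVars false

namespace Pool.Agent.Helper16.Semi

/-- A ring `B` with fraction field `K`, variables `X i` and derivations of `K` with prescribed
values at the variables. -/
structure Frame (B K : Type) [CommRing B] [Field K] [Algebra B K] where
  der : (ℕ ⊕ ℕ → K) → K → K
  der_add : ∀ v a b, der v (a + b) = der v a + der v b
  der_mul : ∀ v a b, der v (a * b) = a * der v b + b * der v a
  two : (2 : K) = 0
  X : ℕ ⊕ ℕ → B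
  isUnit_X : ∀ j, IsUnit (X (Sum.inr j))
  der_X : ∀ v i, der v (algebraMap B K (X i)) = v i
  S : Set B
  der_S : ∀ v, ∀ x ∈ S, der v (algebraMap B K x) = 0
  gen : ∀ b : B, ∃ m, ∃ s ∈ Subring.closure (S ∪ X '' {i | Sum.elim id id i < m}),
    IsUnit s ∧ s * b ∈ Subring.closure (S ∪ X '' {i | Sum.elim id id i < m})

namespace Frame

variable {B K : Type} [CommRing B] [IsDomain B] [Field K] [Algebra B K] [IsFractionRing B K]
  (F : Frame B K)

/-- The subring of elements of level `m`. -/
def A (m : ℕ) : Subring B :=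
  Subring.closure (F.S ∪ F.X '' {i | Sum.elim id id i < m})

lemma A_mono {m n : ℕ} (h : m ≤ n) : F.A m ≤ F.A n := by
  apply Subring.closure_mono
  apply Set.union_subset_union_right
  apply Set.image_mono
  intro i hi
  exact lt_of_lt_of_le hi h

lemma gen' (b : B) : ∃ m, ∃ s ∈ F.A m, IsUnit s ∧ s * b ∈ F.A m := F.gen b

lemma X_inl_mem {j m : ℕ} (h : j < m) : F.X (Sum.inl j) ∈ F.A m :=
  Subring.subset_closure (Or.inr ⟨Sum.inl j, h, rfl⟩)

lemma X_inr_mem {j m : ℕ} (h : j < m) : F.X (Sum.inr j) ∈ F.A m :=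
  Subring.subset_closure (Or.inr ⟨Sum.inr j, h, rfl⟩)

/-- Induction principle. -/
lemma A_induction {m : ℕ} {p : B → Prop} (hS : ∀ x ∈ F.S, p x)
    (hl : ∀ j < m, p (F.X (Sum.inl j))) (hr : ∀ j < m, p (F.X (Sum.inr j)))
    (h0 : p 0) (h1 : p 1) (hadd : ∀ a b, a ∈ F.A m → b ∈ F.A m → p a → p b → p (a + b))
    (hneg : ∀ a, p a → p (-a))
    (hmul : ∀ a b, a ∈ F.A m → b ∈ F.A m → p a → p b → p (a * b)) {b : B} (hb : b ∈ F.A m) :
    p b := by
  induction hb using Subring.closure_induction with
  | mem x hx =>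
    rcases hx with hx | ⟨i, hi, rfl⟩
    · exact hS x hx
    · rcases i with j | j
      · exact hl j hi
      · exact hr j hi
  | zero => exact h0
  | one => exact h1
  | add a b ha hb iha ihb => exact hadd a b ha hb iha ihb
  | neg a _ iha => exact hneg a iha
  | mul a b ha hb iha ihb => exact hmul a b ha hb iha ihb

/-! ### basic facts on derivations -/

include F in
lemma add_self' (a : K) : a + a = 0 := by
  have := F.two
  linear_combination a * this

include F in
lemma neg_eq' (a : K) : -a = a := by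
  have := F.add_self' a
  linear_combination -this

lemma der_zero (v) : F.der v 0 = 0 := by
  have := F.der_add v 0 0
  rw [add_zero] at this
  linear_combination -this

lemma der_one (v) : F.der v 1 = 0 := by
  have := F.der_mul v 1 1
  rw [mul_one, one_mul] at this
  linear_combination -this

lemma der_neg (v) (a : K) : F.der v (-a) = -F.der v a := by
  rw [F.neg_eq', F.neg_eq']

lemma der_sq (v) (a : K) : F.der v (a ^ 2) = 0 := by
  rw [pow_two, F.der_mul]
  exact F.add_self' _

lemma der_inv (v) (a : K) (ha : a ≠ 0) (h : F.der v a = 0) : F.der v a⁻¹ = 0 := by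
  have h1 := F.der_mul v a a⁻¹
  rw [mul_inv_cancel₀ ha, F.der_one, h, mul_zero, add_zero] at h1
  rcases mul_eq_zero.1 h1.symm with h2 | h2
  · exact absurd h2 ha
  · exact h2

/-- Locality. -/
lemma der_congr {m : ℕ} {v w : ℕ ⊕ ℕ → K} (h : ∀ i, Sum.elim id id i < m → v i = w i)
    {b : B} (hb : b ∈ F.A m) : F.der v (algebraMap B K b) = F.der w (algebraMap B K b) := by
  refine F.A_induction (p := fun b => F.der v (algebraMap B K b) = F.der w (algebraMap B K b))
    ?_ ?_ ?_ ?_ ?_ ?_ ?_ ?_ hb
  · intro x hx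
    rw [F.der_S v x hx, F.der_S w x hx]
  · intro j hj
    rw [F.der_X, F.der_X, h (Sum.inl j) hj]
  · intro j hj
    rw [F.der_X, F.der_X, h (Sum.inr j) hj]
  · rw [map_zero, F.der_zero, F.der_zero]
  · rw [map_one, F.der_one, F.der_one]
  · intro a b _ _ ha hb
    rw [map_add, F.der_add, F.der_add, ha, hb]
  · intro a ha
    rw [map_neg, F.der_neg, F.der_neg, ha]
  · intro a b _ _ ha hb
    rw [map_mul, F.der_mul, F.der_mul, ha, hb]

/-! ### the primes -/

section Primes

variable [Countable B]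

/-- Chosen generators of the primes. -/
def Rep (b : B) : Prop := Prime b ∧ Quot.out (Associates.mk b) = b

lemma exists_rep {p : B} (hp : Prime p) : ∃ b, Rep b ∧ Associated p b := by
  have h1 : Associated (Quot.out (Associates.mk p)) p := Associates.mk_quot_out p
  refine ⟨Quot.out (Associates.mk p), ⟨h1.symm.prime hp, ?_⟩, h1.symm⟩
  rw [Associates.mk_eq_mk_iff_associated.2 h1]

lemma Rep.eq {b c : B} (hb : Rep b) (hc : Rep c) (h : Associated b c) : b = c := by
  rw [← hb.2, ← hc.2, Associates.mk_eq_mk_iff_associated.2 h]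

/-- level -/
noncomputable def lev (b : B) : ℕ := (F.gen' b).choose

/-- associate of `b` of finite level -/
noncomputable def rep (b : B) : B := (F.gen' b).choose_spec.choose * b

lemma rep_mem (b : B) : F.rep b ∈ F.A (F.lev b) := (F.gen' b).choose_spec.choose_spec.2.2

lemma rep_assoc (b : B) : Associated b (F.rep b) := by
  rw [rep, mul_comm]
  exact associated_mul_unit_right _ _ (F.gen' b).choose_spec.choose_spec.2.1

/-- an injection of `B` to the naturals -/
noncomputable def enc : B → ℕ := (exists_injective_nat B).choose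

omit [CommRing B] [IsDomain B] in
lemma enc_injective : Function.Injective (enc : B → ℕ) := (exists_injective_nat B).choose_spec

/-- time of appearance -/
noncomputable def tau (b : B) : ℕ := Nat.pair (enc b) (F.lev b)

lemma tau_injective : Function.Injective F.tau := by
  intro b c h
  rw [tau, tau, Nat.pair_eq_pair] at h
  exact enc_injective h.1

lemma lev_le_tau (b : B) : F.lev b ≤ F.tau b := Nat.right_le_pair _ _

open Classical in
/-- The sequence of primes. -/
noncomputable def z (m : ℕ) : B := if h : ∃ b, Rep b ∧ F.tau b = m then F.rep h.choose else 1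

lemma z_cases (m : ℕ) : (∃ b, Rep b ∧ F.tau b = m ∧ F.z m = F.rep b) ∨ F.z m = 1 := by
  classical
  by_cases h : ∃ b, Rep b ∧ F.tau b = m
  · left
    refine ⟨h.choose, h.choose_spec.1, h.choose_spec.2, ?_⟩
    rw [z, dif_pos h]
  · right
    rw [z, dif_neg h]

lemma z_mem (m : ℕ) : F.z m ∈ F.A m := by
  rcases F.z_cases m with ⟨b, hb, h1, h2⟩ | h
  · rw [h2, ← h1]
    exact F.A_mono (F.lev_le_tau b) (F.rep_mem b)
  · rw [h]; exact one_mem _

lemma z_eq (m : ℕ) : F.z m = 1 ∨ Prime (F.z m) := by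
  rcases F.z_cases m with ⟨b, hb, h1, h2⟩ | h
  · right
    rw [h2]
    exact (F.rep_assoc b).prime hb.1
  · left; exact h

lemma z_not_dvd (i j : ℕ) (hij : i ≠ j) (hi : Prime (F.z i)) (hj : Prime (F.z j)) :
    ¬ F.z i ∣ F.z j := by
  intro h
  have h0 : Associated (F.z i) (F.z j) := hi.associated_of_dvd hj h
  rcases F.z_cases i with ⟨b, hb, h1, h2⟩ | h1
  · rcases F.z_cases j with ⟨c, hc, h3, h4⟩ | h3
    · rw [h2, h4] at h0
      have h5 : Associated b c := (F.rep_assoc b).trans (h0.trans (F.rep_assoc c).symm)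
      have := hb.eq hc h5
      apply hij
      rw [← h1, ← h3, this]
    · rw [h3] at hj; exact not_prime_one hj
  · rw [h1] at hi; exact not_prime_one hi

lemma exists_z (p : B) (hp : Prime p) : ∃ m, Associated p (F.z m) := by
  obtain ⟨b, hb, hpb⟩ := exists_rep hp
  refine ⟨F.tau b, ?_⟩
  classical
  have h : ∃ c, Rep c ∧ F.tau c = F.tau b := ⟨b, hb, rfl⟩
  have h1 : h.choose = b := F.tau_injective h.choose_spec.2
  rw [z, dif_pos h, h1]
  exact hpb.trans (F.rep_assoc b)

lemma z_ne_zero (m : ℕ) : F.z m ≠ 0 := by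
  rcases F.z_eq m with h | h
  · rw [h]; exact one_ne_zero
  · exact h.ne_zero

/-! ### the recursion -/

/-- The products. -/
noncomputable def P (m : ℕ) : B := ∏ j ∈ Finset.range m, F.X (Sum.inr j) * F.z j

lemma P_zero : F.P 0 = 1 := by simp [P]

lemma P_succ (m : ℕ) : F.P (m + 1) = F.P m * (F.X (Sum.inr m) * F.z m) := by
  simp [P, Finset.prod_range_succ]

lemma P_dvd {m n : ℕ} (h : m ≤ n) : F.P m ∣ F.P n := by
  induction n, h using Nat.le_induction with
  | base => exact dvd_rfl
  | succ n _ ih => exact ih.trans ⟨_, F.P_succ n⟩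

lemma P_ne_zero (m : ℕ) : F.P m ≠ 0 := by
  unfold P
  rw [Finset.prod_ne_zero_iff]
  intro j _
  exact mul_ne_zero (F.isUnit_X j).ne_zero (F.z_ne_zero j)

lemma algebraMap_ne_zero {b : B} (hb : b ≠ 0) : algebraMap B K b ≠ 0 := by
  rwa [Ne, FaithfulSMul.algebraMap_eq_zero_iff]

open Classical in
/-- The values of the derivation at the primes. -/
noncomputable def w (m : ℕ) : K :=
  F.der (Sum.elim (fun j => (algebraMap B K (F.P j))⁻¹)
    (fun j => if _h : j < m then
      algebraMap B K (F.X (Sum.inr j)) * w j / algebraMap B K (F.z j) else 0))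
    (algebraMap B K (F.z m))
termination_by m

/-- The values of the derivation at the variables. -/
noncomputable def v : ℕ ⊕ ℕ → K := Sum.elim (fun j => (algebraMap B K (F.P j))⁻¹)
    (fun j => algebraMap B K (F.X (Sum.inr j)) * F.w j / algebraMap B K (F.z j))

/-- The derivation. -/
noncomputable def del : K → K := F.der F.v

lemma del_z (m : ℕ) : F.del (algebraMap B K (F.z m)) = F.w m := by
  rw [w, del]
  apply F.der_congr _ (F.z_mem m)
  rintro (j | j) hj
  · rfl
  · change j < m at hj
    simp only [v, Sum.elim_inr, dif_pos hj]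

lemma del_add (a b : K) : F.del (a + b) = F.del a + F.del b := F.der_add _ a b
lemma del_mul (a b : K) : F.del (a * b) = a * F.del b + b * F.del a := F.der_mul _ a b
lemma del_zero : F.del 0 = 0 := F.der_zero _
lemma del_one : F.del 1 = 0 := F.der_one _
lemma del_neg (a : K) : F.del (-a) = -F.del a := F.der_neg _ a
lemma del_sq (a : K) : F.del (a ^ 2) = 0 := F.der_sq _ a

lemma del_g (m : ℕ) : F.del (algebraMap B K (F.X (Sum.inl m))) = (algebraMap B K (F.P m))⁻¹ := by
  rw [del, F.der_X, v, Sum.elim_inl]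

lemma del_u (m : ℕ) : F.del (algebraMap B K (F.X (Sum.inr m))) =
    algebraMap B K (F.X (Sum.inr m)) * F.del (algebraMap B K (F.z m)) /
      algebraMap B K (F.z m) := by
  rw [del_z, del, F.der_X, v, Sum.elim_inr]

lemma del_uz (m : ℕ) : F.del (algebraMap B K (F.X (Sum.inr m) * F.z m)) = 0 := by
  have h1 := algebraMap_ne_zero (K := K) (F.z_ne_zero m)
  rw [map_mul, del_mul, del_u]
  rw [mul_div_cancel₀ _ h1]
  exact F.add_self' _

lemma del_P (m : ℕ) : F.del (algebraMap B K (F.P m)) = 0 := by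
  induction m with
  | zero => rw [P_zero, map_one, F.del_one]
  | succ m ih => rw [P_succ, map_mul, F.del_mul, ih, F.del_uz]; simp

lemma P_mul_del (m : ℕ) : ∀ b ∈ F.A m, ∃ c : B,
    algebraMap B K (F.P m) * F.del (algebraMap B K b) = algebraMap B K c := by
  induction m using Nat.strong_induction_on with
  | _ m ih =>
  intro b hb
  refine F.A_induction (p := fun b => ∃ c : B,
    algebraMap B K (F.P m) * F.del (algebraMap B K b) = algebraMap B K c)
    ?_ ?_ ?_ ?_ ?_ ?_ ?_ ?_ hb
  · intro x hx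
    refine ⟨0, ?_⟩
    rw [del, F.der_S _ x hx, mul_zero, map_zero]
  · intro j hj
    obtain ⟨e, he⟩ := F.P_dvd hj.le
    refine ⟨e, ?_⟩
    have h1 := algebraMap_ne_zero (K := K) (F.P_ne_zero j)
    rw [del_g, he, map_mul]
    field_simp
  · intro j hj
    obtain ⟨c, hc⟩ := ih j hj (F.z j) (F.z_mem j)
    obtain ⟨e, he⟩ := F.P_dvd (Nat.succ_le_of_lt hj)
    rw [Nat.succ_eq_add_one, P_succ] at he
    have h1 := algebraMap_ne_zero (K := K) (F.z_ne_zero j)
    refine ⟨e * F.X (Sum.inr j) ^ 2 * c, ?_⟩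
    rw [del_u, he, map_mul _ _ c, ← hc]
    simp only [map_mul, map_pow]
    field_simp
  · exact ⟨0, by rw [map_zero, del_zero, mul_zero]⟩
  · exact ⟨0, by rw [map_one, del_one, mul_zero, map_zero]⟩
  · rintro a b _ _ ⟨c, hc⟩ ⟨d, hd⟩
    exact ⟨c + d, by rw [map_add, del_add, mul_add, hc, hd, map_add]⟩
  · rintro a ⟨c, hc⟩
    exact ⟨-c, by rw [map_neg, del_neg, mul_neg, hc, map_neg]⟩
  · rintro a b _ _ ⟨c, hc⟩ ⟨d, hd⟩
    refine ⟨a * d + b * c, ?_⟩
    rw [map_mul, del_mul, map_add, map_mul, map_mul, ← hc, ← hd]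
    ring

lemma del_del_mul (a b : K) : F.del (F.del (a * b)) =
    a * F.del (F.del b) + b * F.del (F.del a) := by
  rw [del_mul, del_add, del_mul, del_mul]
  have := F.add_self' (F.del a * F.del b)
  linear_combination this

lemma del_del_A (m : ℕ) : ∀ b ∈ F.A m, F.del (F.del (algebraMap B K b)) = 0 := by
  induction m using Nat.strong_induction_on with
  | _ m ih =>
  intro b hb
  refine F.A_induction (p := fun b => F.del (F.del (algebraMap B K b)) = 0)
    ?_ ?_ ?_ ?_ ?_ ?_ ?_ ?_ hb
  · intro x hx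
    rw [del, F.der_S _ x hx, F.der_zero]
  · intro j hj
    rw [del_g]
    exact F.der_inv _ _ (algebraMap_ne_zero (F.P_ne_zero j)) (F.del_P j)
  · intro j hj
    have h1 := algebraMap_ne_zero (K := K) (F.z_ne_zero j)
    have h2 : F.del (algebraMap B K (F.X (Sum.inr j))) =
        (algebraMap B K (F.X (Sum.inr j) * F.z j) * (algebraMap B K (F.z j) ^ 2)⁻¹) *
          F.del (algebraMap B K (F.z j)) := by
      rw [del_u, map_mul]
      field_simp
    rw [h2, del_mul, ih j hj (F.z j) (F.z_mem j), del_mul, del_uz]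
    have h3 : F.del ((algebraMap B K (F.z j) ^ 2)⁻¹) = 0 :=
      F.der_inv _ _ (pow_ne_zero 2 h1) (F.del_sq _)
    rw [h3]
    simp
  · rw [map_zero, del_zero, del_zero]
  · rw [map_one, del_one, del_zero]
  · intro a b _ _ ha hb
    rw [map_add, del_add, del_add, ha, hb, add_zero]
  · intro a ha
    rw [map_neg, del_neg, del_neg, ha, neg_zero]
  · intro a b _ _ ha hb
    rw [map_mul, del_del_mul, ha, hb]; simp

lemma del_del_B (b : B) : F.del (F.del (algebraMap B K b)) = 0 := by
  obtain ⟨m, s, hs, hu, hb⟩ := F.gen' b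
  have h1 := F.del_del_A m _ hb
  rw [map_mul, del_del_mul, F.del_del_A m s hs, mul_zero, add_zero] at h1
  rcases mul_eq_zero.1 h1 with h2 | h2
  · exact absurd h2 (algebraMap_ne_zero hu.ne_zero)
  · exact h2

lemma del_del (a : K) : F.del (F.del a) = 0 := by
  obtain ⟨x, y, hy, rfl⟩ := IsFractionRing.div_surjective (A := B) a
  have hy0 : y ≠ 0 := nonZeroDivisors.ne_zero hy
  have h0 := algebraMap_ne_zero (K := K) hy0
  have h1 := F.del_del_mul (algebraMap B K x / algebraMap B K y) (algebraMap B K y)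
  rw [div_mul_cancel₀ _ h0, F.del_del_B, F.del_del_B, mul_zero, zero_add] at h1
  rcases mul_eq_zero.1 h1.symm with h2 | h2
  · exact absurd h2 h0
  · exact h2

lemma exists_P_del (b : B) : ∃ m, ∃ c : B,
    algebraMap B K (F.P m) * F.del (algebraMap B K b) = algebraMap B K c := by
  obtain ⟨m, s, hs, hu, hb⟩ := F.gen' b
  refine ⟨m, ?_⟩
  obtain ⟨c, hc⟩ := F.P_mul_del m _ hb
  obtain ⟨d, hd⟩ := F.P_mul_del m _ hs
  obtain ⟨t, ht⟩ := hu.exists_right_inv
  refine ⟨t * (c - b * d), ?_⟩
  rw [map_mul, del_mul] at hc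
  have ht' := congrArg (algebraMap B K) ht
  simp only [map_mul, map_sub, map_one] at ht' ⊢
  rw [← hc, ← hd]
  linear_combination (-algebraMap B K (F.P m) * F.del (algebraMap B K b)) * ht'

/-- The datum. -/
noncomputable def datum : Datum B K where
  δ := F.del
  δ_add := F.del_add
  δ_mul := F.del_mul
  δδ := F.del_del
  two := F.two
  g m := F.X (Sum.inl m)
  u m := F.X (Sum.inr m)
  z := F.z
  isUnit_u := F.isUnit_X
  δ_uz := F.del_uz
  δ_g m := by
    rw [del_g]
    exact inv_mul_cancel₀ (algebraMap_ne_zero (F.P_ne_zero m))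
  exists_P := F.exists_P_del
  δ_z m := F.P_mul_del m _ (F.z_mem m)
  z_eq := F.z_eq
  not_dvd := F.z_not_dvd
  exists_z := F.exists_z

end Primes

end Frame
end Pool.Agent.Helper16.Semi
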