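import Mathlib
import Pool.Agent.Helper16.SemiFrame

set_option linter.unusedSectionVars false

namespace Pool.Agent.Helper16.Semi

/-- The polynomial ring in countably many variables over the field with two elements. -/
abbrev C0 : Type := MvPolynomial (ℕ ⊕ ℕ) (ZMod 2)

section

variable {K0 : Type} [Field K0] [Algebra C0 K0] [IsFractionRing C0 K0] {d : ℕ}
  {K : Type} [Field K] [Algebra (MvPolynomial (Fin d) K0) K]
  [IsFractionRing (MvPolynomial (Fin d) K0) K]

/-- the canonical map `C0 → K` -/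
noncomputable def iota : C0 →+* K :=
  ((algebraMap (MvPolynomial (Fin d) K0) K).comp MvPolynomial.C).comp (algebraMap C0 K0)

lemma iota_injective : Function.Injective (iota (K0 := K0) (d := d) (K := K)) := by
  rw [iota]
  exact ((FaithfulSMul.algebraMap_injective _ _).comp (MvPolynomial.C_injective _ _)).comp
    (FaithfulSMul.algebraMap_injective _ _)

/-- first step -/
noncomputable def phi0 (v : ℕ ⊕ ℕ → K) : C0 →+* TrivSqZeroExt K K :=
  MvPolynomial.eval₂Hom ((TrivSqZeroExt.inlHom K K).comp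
    ((iota (K0 := K0) (d := d) (K := K)).comp MvPolynomial.C))
    (fun i => TrivSqZeroExt.inl (iota (K0 := K0) (d := d) (MvPolynomial.X i)) +
      TrivSqZeroExt.inr (v i))

lemma fst_phi0 (v : ℕ ⊕ ℕ → K) (a : C0) :
    (phi0 (K0 := K0) (d := d) v a).fst = iota (K0 := K0) (d := d) a := by
  have h : ((TrivSqZeroExt.fstHom K K K).toRingHom).comp (phi0 (K0 := K0) (d := d) v) =
      iota (K0 := K0) (d := d) := by
    apply MvPolynomial.ringHom_ext
    · intro r
      simp [phi0]
    · intro i
      simp [phi0]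
  exact congrArg (fun f => f a) h

lemma isUnit_of_fst {t : TrivSqZeroExt K K} (h : t.fst ≠ 0) : IsUnit t := by
  rw [TrivSqZeroExt.isUnit_iff_isUnit_fst]
  exact isUnit_iff_ne_zero.2 h

/-- second step -/
noncomputable def phi1 (v : ℕ ⊕ ℕ → K) : K0 →+* TrivSqZeroExt K K :=
  IsLocalization.lift (M := nonZeroDivisors C0) (g := phi0 (K0 := K0) (d := d) v) (by
    intro y
    apply isUnit_of_fst
    rw [fst_phi0]
    intro h
    exact nonZeroDivisors.coe_ne_zero y
      (iota_injective (K0 := K0) (d := d) (K := K) (h.trans (map_zero _).symm)))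

lemma phi1_algebraMap (v : ℕ ⊕ ℕ → K) (a : C0) :
    phi1 (K0 := K0) (d := d) v (algebraMap C0 K0 a) = phi0 (K0 := K0) (d := d) v a :=
  IsLocalization.lift_eq _ _

lemma fst_phi1 (v : ℕ ⊕ ℕ → K) (a : K0) :
    (phi1 (K0 := K0) (d := d) v a).fst =
      algebraMap (MvPolynomial (Fin d) K0) K (MvPolynomial.C a) := by
  have h : ((TrivSqZeroExt.fstHom K K K).toRingHom).comp (phi1 (K0 := K0) (d := d) v) =
      (algebraMap (MvPolynomial (Fin d) K0) K).comp MvPolynomial.C := by
    apply IsLocalization.ringHom_ext (nonZeroDivisors C0)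
    apply RingHom.ext
    intro a
    change (phi1 (K0 := K0) (d := d) v (algebraMap C0 K0 a)).fst = _
    rw [phi1_algebraMap, fst_phi0]
    rfl
  exact congrArg (fun f => f a) h

/-- third step -/
noncomputable def phi2 (v : ℕ ⊕ ℕ → K) : MvPolynomial (Fin d) K0 →+* TrivSqZeroExt K K :=
  MvPolynomial.eval₂Hom (phi1 (K0 := K0) (d := d) v)
    (fun i => TrivSqZeroExt.inl (algebraMap (MvPolynomial (Fin d) K0) K (MvPolynomial.X i)))

lemma fst_phi2 (v : ℕ ⊕ ℕ → K) (b : MvPolynomial (Fin d) K0) :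
    (phi2 (K0 := K0) (d := d) v b).fst = algebraMap (MvPolynomial (Fin d) K0) K b := by
  have h : ((TrivSqZeroExt.fstHom K K K).toRingHom).comp (phi2 (K0 := K0) (d := d) v) =
      algebraMap (MvPolynomial (Fin d) K0) K := by
    apply MvPolynomial.ringHom_ext
    · intro r
      change (phi2 (K0 := K0) (d := d) v (MvPolynomial.C r)).fst = _
      rw [phi2, MvPolynomial.coe_eval₂Hom, MvPolynomial.eval₂_C, fst_phi1]
    · intro i
      change (phi2 (K0 := K0) (d := d) v (MvPolynomial.X i)).fst = _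
      rw [phi2, MvPolynomial.coe_eval₂Hom, MvPolynomial.eval₂_X, TrivSqZeroExt.fst_inl]
  exact congrArg (fun f => f b) h

/-- fourth step -/
noncomputable def phi3 (v : ℕ ⊕ ℕ → K) : K →+* TrivSqZeroExt K K :=
  IsLocalization.lift (M := nonZeroDivisors (MvPolynomial (Fin d) K0))
    (g := phi2 (K0 := K0) (d := d) v) (by
    intro y
    apply isUnit_of_fst
    rw [fst_phi2]
    intro h
    exact nonZeroDivisors.coe_ne_zero y
      (FaithfulSMul.algebraMap_injective (MvPolynomial (Fin d) K0) K (h.trans (map_zero _).symm)))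

lemma phi3_algebraMap (v : ℕ ⊕ ℕ → K) (b : MvPolynomial (Fin d) K0) :
    phi3 (K0 := K0) (d := d) v (algebraMap _ K b) = phi2 (K0 := K0) (d := d) v b :=
  IsLocalization.lift_eq _ _

lemma fst_phi3 (v : ℕ ⊕ ℕ → K) (a : K) :
    (phi3 (K0 := K0) (d := d) v a).fst = a := by
  have h : ((TrivSqZeroExt.fstHom K K K).toRingHom).comp (phi3 (K0 := K0) (d := d) v) =
      RingHom.id K := by
    apply IsLocalization.ringHom_ext (nonZeroDivisors (MvPolynomial (Fin d) K0))
    apply RingHom.ext
    intro a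
    change (phi3 (K0 := K0) (d := d) v (algebraMap _ K a)).fst = _
    rw [phi3_algebraMap, fst_phi2]
    rfl
  exact congrArg (fun f => f a) h

/-- The variables as elements of `B`. -/
noncomputable def XB (i : ℕ ⊕ ℕ) : MvPolynomial (Fin d) K0 :=
  MvPolynomial.C (algebraMap C0 K0 (MvPolynomial.X i))

lemma XB_isUnit (i : ℕ ⊕ ℕ) : IsUnit (XB (K0 := K0) (d := d) i) := by
  apply IsUnit.map
  rw [isUnit_iff_ne_zero, Ne, FaithfulSMul.algebraMap_eq_zero_iff]
  exact MvPolynomial.X_ne_zero i

/-- levels -/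
noncomputable def AA (m : ℕ) : Subring (MvPolynomial (Fin d) K0) :=
  Subring.closure (Set.range MvPolynomial.X ∪
    (XB (K0 := K0) (d := d)) '' {i | Sum.elim id id i < m})

lemma AA_mono {m n : ℕ} (h : m ≤ n) : AA (K0 := K0) (d := d) m ≤ AA n := by
  apply Subring.closure_mono
  apply Set.union_subset_union_right
  apply Set.image_mono
  intro i hi
  exact lt_of_lt_of_le hi h

lemma exists_AA_C0 (a : C0) : ∃ m, MvPolynomial.C (algebraMap C0 K0 a) ∈
    AA (K0 := K0) (d := d) m := by
  induction a using MvPolynomial.induction_on with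
  | C a =>
    refine ⟨0, ?_⟩
    fin_cases a
    · change MvPolynomial.C (algebraMap C0 K0 (MvPolynomial.C 0)) ∈ _
      rw [map_zero, map_zero, map_zero]; exact zero_mem _
    · change MvPolynomial.C (algebraMap C0 K0 (MvPolynomial.C 1)) ∈ _
      rw [map_one, map_one, map_one]; exact one_mem _
  | add p q hp hq =>
    obtain ⟨m, hm⟩ := hp
    obtain ⟨n, hn⟩ := hq
    refine ⟨max m n, ?_⟩
    rw [map_add, map_add]
    exact add_mem (AA_mono (le_max_left _ _) hm) (AA_mono (le_max_right _ _) hn)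
  | mul_X p i hp =>
    obtain ⟨m, hm⟩ := hp
    refine ⟨max m (Sum.elim id id i + 1), ?_⟩
    rw [map_mul, map_mul]
    refine mul_mem (AA_mono (le_max_left _ _) hm) ?_
    apply AA_mono (le_max_right m _)
    exact Subring.subset_closure (Or.inr ⟨i, Nat.lt_succ_self _, rfl⟩)

lemma exists_AA (b : MvPolynomial (Fin d) K0) :
    ∃ m, ∃ s ∈ AA (K0 := K0) (d := d) m, IsUnit s ∧ s * b ∈ AA (K0 := K0) (d := d) m := by
  induction b using MvPolynomial.induction_on with
  | C a =>
    obtain ⟨x, y, hy, rfl⟩ := IsFractionRing.div_surjective (A := C0) a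
    have hy0 : algebraMap C0 K0 y ≠ 0 := by
      rw [Ne, FaithfulSMul.algebraMap_eq_zero_iff]
      exact nonZeroDivisors.ne_zero hy
    obtain ⟨m, hm⟩ := exists_AA_C0 (K0 := K0) (d := d) x
    obtain ⟨n, hn⟩ := exists_AA_C0 (K0 := K0) (d := d) y
    refine ⟨max m n, MvPolynomial.C (algebraMap C0 K0 y), AA_mono (le_max_right _ _) hn,
      (isUnit_iff_ne_zero.2 hy0).map _, ?_⟩
    rw [← map_mul, mul_div_cancel₀ _ hy0]
    exact AA_mono (le_max_left _ _) hm
  | add p q hp hq =>
    obtain ⟨m, s, hs, hsu, hm⟩ := hp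
    obtain ⟨n, t, ht, htu, hn⟩ := hq
    refine ⟨max m n, s * t, mul_mem (AA_mono (le_max_left _ _) hs) (AA_mono (le_max_right _ _) ht),
      hsu.mul htu, ?_⟩
    have : s * t * (p + q) = t * (s * p) + s * (t * q) := by ring
    rw [this]
    exact add_mem (mul_mem (AA_mono (le_max_right _ _) ht) (AA_mono (le_max_left _ _) hm))
      (mul_mem (AA_mono (le_max_left _ _) hs) (AA_mono (le_max_right _ _) hn))
  | mul_X p i hp =>
    obtain ⟨m, s, hs, hsu, hm⟩ := hp
    refine ⟨m, s, hs, hsu, ?_⟩
    rw [← mul_assoc]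
    exact mul_mem hm (Subring.subset_closure (Or.inl ⟨i, rfl⟩))

variable (K0 d K) in
/-- The frame. -/
noncomputable def frame : Frame (MvPolynomial (Fin d) K0) K where
  der v a := (phi3 (K0 := K0) (d := d) v a).snd
  der_add v a b := by rw [map_add, TrivSqZeroExt.snd_add]
  der_mul v a b := by
    rw [map_mul, TrivSqZeroExt.snd_mul, fst_phi3, fst_phi3]
    simp [mul_comm]
  two := by
    have : (2 : ZMod 2) = 0 := rfl
    have h := congrArg ((iota (K0 := K0) (d := d) (K := K)).comp MvPolynomial.C) this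
    rwa [map_ofNat, map_zero] at h
  X := XB
  isUnit_X j := XB_isUnit _
  der_X v i := by
    rw [phi3_algebraMap, XB, phi2, MvPolynomial.coe_eval₂Hom, MvPolynomial.eval₂_C,
      phi1_algebraMap, phi0, MvPolynomial.coe_eval₂Hom, MvPolynomial.eval₂_X]
    simp
  S := Set.range MvPolynomial.X
  der_S := by
    rintro v _ ⟨i, rfl⟩
    rw [phi3_algebraMap, phi2, MvPolynomial.coe_eval₂Hom, MvPolynomial.eval₂_X]
    simp
  gen := exists_AA

end

lemma countable_C0 : Countable C0 := by
  rw [← Cardinal.mk_le_aleph0_iff]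
  refine MvPolynomial.cardinalMk_le_max.trans ?_
  simp

lemma countable_K0 : Countable (FractionRing C0) := by
  have := countable_C0
  rw [← Cardinal.mk_le_aleph0_iff]
  refine (IsLocalization.cardinalMk_le (R := C0) (nonZeroDivisors C0)).trans ?_
  simp

lemma countable_B (d : ℕ) : Countable (MvPolynomial (Fin d) (FractionRing C0)) := by
  have := countable_K0
  rw [← Cardinal.mk_le_aleph0_iff]
  refine MvPolynomial.cardinalMk_le_max.trans ?_
  simp

end Pool.Agent.Helper16.Semi
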