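import Mathlib

/-!
# Truncated double quotients `K₁ \ C^{≤ μ} / K₁` for `SL₂`: definitions
-/

open CategoryTheory AlgebraicGeometry Opposite

universe u

namespace Pool.Agent.Helper16.Trunc

noncomputable section

/-! ## Definitions -/

/-- Coefficientwise application of a ring homomorphism to a Laurent series:
the ring homomorphism `R((t)) → S((t))` induced by `f : R → S`. -/
def laurentMap {R S : Type u} [CommRing R] [CommRing S] (f : R →+* S) :
    LaurentSeries R →+* LaurentSeries S where
  toFun x := x.map f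
  map_one' := by
    have := HahnSeries.map_one (Γ := ℤ) (f.toMonoidWithZeroHom)
    exact this
  map_mul' x y := HahnSeries.map_mul (f : R →ₙ+* S)
  map_zero' := by ext; simp
  map_add' x y := by ext; simp

/-- The loop group of `SL₂`: `LG(R) = SL₂(R((t)))`. -/
abbrev LG (R : Type u) [CommRing R] : Type u :=
  Matrix.SpecialLinearGroup (Fin 2) (LaurentSeries R)

/-- Functoriality of the loop group in the ring. -/
def LG.map {R S : Type u} [CommRing R] [CommRing S] (f : R →+* S) : LG R →* LG S :=
  Matrix.SpecialLinearGroup.map (laurentMap f)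

/-- The inclusion `SL₂(R[[t]]) → SL₂(R((t)))`. -/
def incl (R : Type u) [CommRing R] :
    Matrix.SpecialLinearGroup (Fin 2) (PowerSeries R) →* LG R :=
  Matrix.SpecialLinearGroup.map (HahnSeries.ofPowerSeries ℤ R)

/-- The positive loop group `L⁺G(R) = SL₂(R[[t]])`, as a subgroup of `LG(R)`. -/
def LplusG (R : Type u) [CommRing R] : Subgroup (LG R) := (incl R).range

/-- The first congruence subgroup `K₁(R)`: the kernel of `SL₂(R[[t]]) → SL₂(R)`, `t ↦ 0`, seen
as a subgroup of `LG(R)`. -/
def K1 (R : Type u) [CommRing R] : Subgroup (LG R) :=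
  (Matrix.SpecialLinearGroup.map (n := Fin 2) (PowerSeries.constantCoeff (R := R))).ker.map (incl R)

/-- The element `t^μ = diag(t^m, t⁻ᵐ)` of `LG(R)`. -/
def tmu (m : ℕ) (R : Type u) [CommRing R] : LG R :=
  ⟨!![HahnSeries.single (m : ℤ) 1, 0; 0, HahnSeries.single (-(m : ℤ)) 1], by
    simp [Matrix.det_fin_two_of]⟩

/-- The double coset `L⁺G(R) t^μ L⁺G(R)`. -/
def cell (m : ℕ) (R : Type u) [CommRing R] : Set (LG R) :=
  {g | ∃ a ∈ LplusG R, ∃ b ∈ LplusG R, g = a * tmu m R * b}

/-- The coordinates on the loop group: the coordinate with index `(i, j, n)` is the coefficient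
of `t^n` in the `(i, j)` entry. -/
def coord {R : Type u} [CommRing R] (g : LG R) (i : Fin 2 × Fin 2 × ℤ) : R :=
  (g.1 i.1 i.2.1).coeff i.2.2

/-- The `R`-points of the closure `C^{≤ μ}` of `C^μ = L⁺G t^μ L⁺G` in `LG`: those points of
`LG(R)` which satisfy every polynomial equation (with coefficients in `k`, in the coordinates of
the loop group) that holds on `L⁺G(S) t^μ L⁺G(S)` for all `k`-algebras `S`. -/
def Cle (k : Type u) [Field k] (m : ℕ) (R : Type u) [CommRing R] [Algebra k R] : Set (LG R) :=
  {g | ∀ p : MvPolynomial (Fin 2 × Fin 2 × ℤ) k,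
    (∀ (S : Type u) [CommRing S] [Algebra k S], ∀ h ∈ cell m S,
      MvPolynomial.aeval (coord h) p = 0) → MvPolynomial.aeval (coord g) p = 0}

/-- The fpqc topology on (the opposite of) the category of `k`-algebras, that is, on the category
of affine `k`-schemes: it is induced by Mathlib's fpqc topology on schemes via `R ↦ Spec R`.
See `mem_fpqc_iff` below: a sieve is covering if and only if its image under `Spec` generates an
fpqc covering sieve. -/
def fpqc (k : Type u) [Field k] : GrothendieckTopology (CommAlgCat.{u} k)ᵒᵖ :=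
  (algSpec (CommRingCat.of k)).inducedTopology
    (Scheme.fpqcTopology.{u}.over (Spec (CommRingCat.of k)))

/-- The functor of points `R ↦ Hom_k(Spec R, Y)` of a `k`-scheme `Y` on the category of
`k`-algebras (with values in `Type (u + 1)`, by `ULift`). -/
def pointsOf (k : Type u) [Field k] (Y : Over (Spec (CommRingCat.of k))) :
    (CommAlgCat.{u} k)ᵒᵖᵒᵖ ⥤ Type (u + 1) :=
  (algSpec (CommRingCat.of k)).op ⋙ yoneda.obj Y ⋙ uliftFunctor.{u + 1, u}

/-- The orbit relation on `C^{≤ μ}(R)` of the action of `K₁(R) × K₁(R)` by left and right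
multiplication. -/
def quotRel (k : Type u) [Field k] (m : ℕ) (R : Type u) [CommRing R] [Algebra k R] :
    Setoid (Cle k m R) where
  r g h := ∃ a ∈ K1 R, ∃ b ∈ K1 R, (h : LG R) = a * g * b
  iseqv :=
    { refl := fun g => ⟨1, one_mem _, 1, one_mem _, by simp⟩
      symm := by
        rintro g h ⟨a, ha, b, hb, hab⟩
        exact ⟨a⁻¹, inv_mem ha, b⁻¹, inv_mem hb, by rw [hab]; group⟩
      trans := by
        rintro g h l ⟨a, ha, b, hb, hab⟩ ⟨c, hc, d, hd, hcd⟩
        exact ⟨c * a, mul_mem hc ha, b * d, mul_mem hb hd, by rw [hcd, hab]; group⟩ }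

/-! ## Basic properties -/

section basic
variable {R S T : Type u} [CommRing R] [CommRing S] [CommRing T]

@[simp] lemma laurentMap_coeff (f : R →+* S)
    (x : LaurentSeries R) (n : ℤ) : (laurentMap f x).coeff n = f (x.coeff n) := rfl

lemma laurentMap_single (f : R →+* S)
    (n : ℤ) (r : R) : laurentMap f (HahnSeries.single n r) = HahnSeries.single n (f r) := by
  ext m
  simp only [laurentMap_coeff, HahnSeries.coeff_single]
  split_ifs <;> simp

lemma laurentMap_ofPowerSeries (f : R →+* S)
    (x : PowerSeries R) :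
    laurentMap f (HahnSeries.ofPowerSeries ℤ R x) =
      HahnSeries.ofPowerSeries ℤ S (PowerSeries.map f x) := by
  ext m
  rw [laurentMap_coeff]
  rw [PowerSeries.coeff_coe, PowerSeries.coeff_coe]
  split_ifs
  · simp
  · simp

lemma LG.map_apply (f : R →+* S) (g : LG R) (i j : Fin 2) :
    (LG.map f g).1 i j = laurentMap f (g.1 i j) := rfl

lemma incl_apply (g : Matrix.SpecialLinearGroup (Fin 2) (PowerSeries R)) (i j : Fin 2) :
    (incl R g).1 i j = HahnSeries.ofPowerSeries ℤ R (g.1 i j) := rfl

lemma LG.map_id (g : LG R) : LG.map (RingHom.id R) g = g := by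
  ext i j n
  simp [LG.map_apply]

lemma LG.map_map (f : R →+* S) (f' : S →+* T) (g : LG R) :
    LG.map f' (LG.map f g) = LG.map (f'.comp f) g := by
  ext i j n
  simp [LG.map_apply]

lemma map_incl (f : R →+* S) (g : Matrix.SpecialLinearGroup (Fin 2) (PowerSeries R)) :
    LG.map f (incl R g) = incl S (Matrix.SpecialLinearGroup.map (PowerSeries.map f) g) := by
  ext i j
  rw [LG.map_apply, incl_apply, incl_apply, laurentMap_ofPowerSeries]
  rfl

lemma incl_injective : Function.Injective (incl R) := by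
  intro g h hgh
  ext i j : 1
  have := congrArg (fun x : LG R => x.1 i j) hgh
  simp only [incl_apply] at this
  have h2 := HahnSeries.ofPowerSeries_injective this
  exact h2

lemma map_mem_LplusG (f : R →+* S) {g : LG R} (hg : g ∈ LplusG R) : LG.map f g ∈ LplusG S := by
  obtain ⟨a, rfl⟩ := hg
  rw [map_incl]
  exact ⟨_, rfl⟩

lemma mem_K1 {g : LG R} : g ∈ K1 R ↔ ∃ a : Matrix.SpecialLinearGroup (Fin 2) (PowerSeries R),
    Matrix.SpecialLinearGroup.map (PowerSeries.constantCoeff (R := R)) a = 1 ∧ incl R a = g := by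
  unfold K1
  simp only [Subgroup.mem_map, MonoidHom.mem_ker]

lemma map_mem_K1 (f : R →+* S) {g : LG R} (hg : g ∈ K1 R) : LG.map f g ∈ K1 S := by
  rw [mem_K1] at hg ⊢
  obtain ⟨a, ha, rfl⟩ := hg
  refine ⟨_, ?_, (map_incl f a).symm⟩
  ext i j
  have h1 := congrArg (fun x : Matrix.SpecialLinearGroup (Fin 2) R => f (x.1 i j)) ha
  simp only [Matrix.SpecialLinearGroup.map_apply_coe, RingHom.mapMatrix_apply,
    Matrix.map_apply, Matrix.SpecialLinearGroup.coe_one] at h1 ⊢
  rw [← PowerSeries.coeff_zero_eq_constantCoeff_apply, PowerSeries.coeff_map,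
    PowerSeries.coeff_zero_eq_constantCoeff_apply, h1]
  by_cases hij : i = j
  · subst hij; simp
  · simp [Matrix.one_apply_ne hij]

lemma map_tmu (m : ℕ) (f : R →+* S) : LG.map f (tmu m R) = tmu m S := by
  ext i j : 2
  rw [LG.map_apply]
  fin_cases i <;> fin_cases j <;> simp [tmu, laurentMap_single]

lemma map_mem_cell {m : ℕ} (f : R →+* S) {g : LG R} (hg : g ∈ cell m R) :
    LG.map f g ∈ cell m S := by
  obtain ⟨a, ha, b, hb, rfl⟩ := hg
  refine ⟨_, map_mem_LplusG f ha, _, map_mem_LplusG f hb, ?_⟩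
  rw [map_mul, map_mul, map_tmu]

end basic

section closure
variable {k : Type u} [Field k] {m : ℕ} {R S : Type u} [CommRing R] [CommRing S]
  [Algebra k R] [Algebra k S]

lemma aeval_coord_map (f : R →ₐ[k] S) (g : LG R) (p : MvPolynomial (Fin 2 × Fin 2 × ℤ) k) :
    MvPolynomial.aeval (coord (LG.map (f : R →+* S) g)) p = f (MvPolynomial.aeval (coord g) p) := by
  have h : coord (LG.map (f : R →+* S) g) = fun i => f (coord g i) := by
    funext i
    rfl
  rw [h, ← MvPolynomial.comp_aeval_apply]

lemma map_mem_Cle (f : R →ₐ[k] S) {g : LG R} (hg : g ∈ Cle k m R) :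
    LG.map (f : R →+* S) g ∈ Cle k m S := by
  intro p hp
  rw [aeval_coord_map, hg p hp, map_zero]

/-- `C^μ` is contained in its closure. -/
lemma cell_subset_Cle {g : LG R} (hg : g ∈ cell m R) : g ∈ Cle k m R := by
  intro p hp
  exact hp R g hg

lemma mem_Cle_of_injective (f : R →ₐ[k] S) (hf : Function.Injective f) {g : LG R}
    (hg : LG.map (f : R →+* S) g ∈ Cle k m S) : g ∈ Cle k m R := by
  intro p hp
  apply hf
  rw [← aeval_coord_map, hg p hp, map_zero]

end closure

/-! ## The quotient presheaf and its fpqc sheafification -/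

section functor
variable (k : Type u) [Field k] (m : ℕ)

variable {k m} in
/-- Functoriality of `R ↦ C^{≤ μ}(R)`. -/
def CleMap {R S : Type u} [CommRing R] [CommRing S] [Algebra k R] [Algebra k S] (f : R →ₐ[k] S)
    (g : Cle k m R) : Cle k m S := ⟨LG.map (f : R →+* S) g.1, map_mem_Cle f g.2⟩

lemma CleMap_id {R : Type u} [CommRing R] [Algebra k R] (g : Cle k m R) :
    CleMap (AlgHom.id k R) g = g := Subtype.ext (LG.map_id g.1)

variable {k m} in
lemma CleMap_comp {R S T : Type u} [CommRing R] [CommRing S] [CommRing T] [Algebra k R]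
    [Algebra k S] [Algebra k T] (f : R →ₐ[k] S) (f' : S →ₐ[k] T) (g : Cle k m R) :
    CleMap (f'.comp f) g = CleMap f' (CleMap f g) :=
  Subtype.ext (LG.map_map (f : R →+* S) (f' : S →+* T) g.1).symm

variable {k m} in
/-- Functoriality of the quotient `R ↦ K₁(R) \ C^{≤ μ}(R) / K₁(R)`. -/
def quotMap {R S : Type u} [CommRing R] [CommRing S] [Algebra k R] [Algebra k S] (f : R →ₐ[k] S) :
    Quotient (quotRel k m R) → Quotient (quotRel k m S) :=
  Quotient.map (CleMap f) (by
    rintro g h ⟨a, ha, b, hb, hab⟩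
    refine ⟨_, map_mem_K1 (f : R →+* S) ha, _, map_mem_K1 (f : R →+* S) hb, ?_⟩
    change LG.map (f : R →+* S) h.1 = _ * LG.map (f : R →+* S) g.1 * _
    rw [hab, map_mul, map_mul])

lemma quotMap_id {R : Type u} [CommRing R] [Algebra k R] (g : Quotient (quotRel k m R)) :
    quotMap (AlgHom.id k R) g = g := by
  induction g using Quotient.inductionOn with
  | _ g => exact congrArg _ (CleMap_id k m g)

variable {k m} in
lemma quotMap_comp {R S T : Type u} [CommRing R] [CommRing S] [CommRing T] [Algebra k R]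
    [Algebra k S] [Algebra k T] (f : R →ₐ[k] S) (f' : S →ₐ[k] T) (g : Quotient (quotRel k m R)) :
    quotMap (f'.comp f) g = quotMap f' (quotMap f g) := by
  induction g using Quotient.inductionOn with
  | _ g => exact congrArg _ (CleMap_comp f f' g)

/-- The presheaf quotient `R ↦ K₁(R) \ C^{≤ μ}(R) / K₁(R)` on the category of `k`-algebras. -/
def quotFunctor : CommAlgCat.{u} k ⥤ Type u where
  obj R := Quotient (quotRel k m R)
  map f := ↾(quotMap f.hom)
  map_id R := by
    ext g
    exact quotMap_id k m g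
  map_comp f g := by
    ext x
    exact quotMap_comp f.hom g.hom x

/-- The presheaf quotient `R ↦ K₁(R) \ C^{≤ μ}(R) / K₁(R)`, as a presheaf on the site of affine
`k`-schemes (with values in `Type (u + 1)`, by `ULift`, so that fpqc sheafifications exist). -/
def quotPresheaf : (CommAlgCat.{u} k)ᵒᵖᵒᵖ ⥤ Type (u + 1) :=
  unopUnop (CommAlgCat.{u} k) ⋙ quotFunctor k m ⋙ uliftFunctor.{u + 1, u}

/-- The fpqc sheaf quotient `K₁ \ C^{≤ μ} / K₁`: the fpqc sheafification of the presheaf
quotient. -/
def truncatedQuotient : Sheaf (fpqc k) (Type (u + 1)) :=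
  (presheafToSheaf (fpqc k) (Type (u + 1))).obj (quotPresheaf k m)

end functor

end

end Pool.Agent.Helper16.Trunc
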