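import Pool.Agent.Helper16.TruncDefs

/-!
# Truncated double quotients of Cartan stratum closures are not representable

Let `k` be any field, `G = SL₂`, `B` the upper triangular Borel, `T` the diagonal torus and
`μ : t ↦ diag(t^m, t⁻ᵐ)` with `m ≥ 1` (these are all the dominant cocharacters of `SL₂` which are
not minuscule, that is, all the nontrivial ones).

We show that the fpqc sheaf quotient `K₁ \ C^{≤ μ} / K₁` on the category of `k`-algebras is not
isomorphic to the functor of points of any `k`-scheme.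

## Idea

Let `x(a)` be the upper triangular unipotent matrix with upper right entry `a`. Over the discrete
valuation ring `A = k[[X]]` consider the two points `x((X² + X t) / t^m)` and `x(X² / t^m)` of
`C^{≤ μ}`. Over the fraction field of `A` they lie in the same `K₁`-double coset, and at the closed
point of `Spec A` both are the identity matrix. A morphism from the spectrum of a local domain to a
scheme is determined by its restriction to the generic point together with the image of the closed
point, so the two points have the same image in any scheme representing the quotient. Reducing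
modulo `X²` shows that `x(X t / t^m)` and `1` are fpqc-locally in the same `K₁`-double coset over
`k[X] / X²`, which forces `X = 0` in `k[X] / X²`, a contradiction.
-/

open CategoryTheory AlgebraicGeometry Opposite

universe u

namespace Pool.Agent.Helper16.Trunc

noncomputable section

/-! ## Special elements of the loop group -/

section elements
variable {R S : Type u} [CommRing R] [CommRing S]

/-- A `2 × 2` matrix of determinant one from its entries. -/
def mk2 {A : Type u} [CommRing A] (a b c d : A) (h : a * d - b * c = 1) :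
    Matrix.SpecialLinearGroup (Fin 2) A :=
  ⟨!![a, b; c, d], by rw [Matrix.det_fin_two_of, h]⟩

lemma mk2_mul {A : Type u} [CommRing A] (a b c d a' b' c' d' : A) (h : a * d - b * c = 1)
    (h' : a' * d' - b' * c' = 1) :
    mk2 a b c d h * mk2 a' b' c' d' h' =
      mk2 (a * a' + b * c') (a * b' + b * d') (c * a' + d * c') (c * b' + d * d')
        (by linear_combination (a' * d' - b' * c') * h + h') := by
  apply Subtype.ext
  exact Matrix.mul_fin_two a b c d a' b' c' d'

lemma mk2_ext {A : Type u} [CommRing A] {a b c d a' b' c' d' : A} {h : a * d - b * c = 1}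
    {h' : a' * d' - b' * c' = 1} (ha : a = a') (hb : b = b') (hc : c = c') (hd : d = d') :
    mk2 a b c d h = mk2 a' b' c' d' h' := by
  subst ha hb hc hd; rfl

lemma map_mk2 {A B : Type u} [CommRing A] [CommRing B] (f : A →+* B) (a b c d : A)
    (h : a * d - b * c = 1) :
    Matrix.SpecialLinearGroup.map f (mk2 a b c d h) =
      mk2 (f a) (f b) (f c) (f d) (by rw [← map_mul, ← map_mul, ← map_sub, h, map_one]) := by
  apply Matrix.SpecialLinearGroup.ext
  intro i j
  fin_cases i <;> fin_cases j <;> rfl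

lemma one_eq_mk2 {A : Type u} [CommRing A] :
    (1 : Matrix.SpecialLinearGroup (Fin 2) A) = mk2 1 0 0 1 (by ring) := by
  ext i j
  fin_cases i <;> fin_cases j <;> simp [mk2]

lemma t_mul_tinv (m : ℕ) :
    (HahnSeries.single (m : ℤ) (1 : R)) * HahnSeries.single (-(m : ℤ)) (1 : R) = 1 := by
  simp

lemma tmu_eq (m : ℕ) : tmu m R = mk2 (HahnSeries.single (m : ℤ) 1) 0 0
    (HahnSeries.single (-(m : ℤ)) 1) (by simp) := rfl

/-- The unipotent element `x(σ / t^m)` for a power series `σ`. -/
def xs (m : ℕ) (σ : PowerSeries R) : LG R :=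
  mk2 1 (HahnSeries.ofPowerSeries ℤ R σ * HahnSeries.single (-(m : ℤ)) 1) 0 1 (by simp)

lemma map_xs (m : ℕ) (f : R →+* S) (σ : PowerSeries R) :
    LG.map f (xs m σ) = xs m (PowerSeries.map f σ) := by
  unfold LG.map xs
  rw [map_mk2]
  apply mk2_ext <;> simp [laurentMap_single, laurentMap_ofPowerSeries]

lemma xs_zero (m : ℕ) : xs m (0 : PowerSeries R) = 1 := by
  rw [xs, one_eq_mk2]
  apply mk2_ext <;> simp

lemma incl_mk2 (a b c d : PowerSeries R) (h : a * d - b * c = 1) :
    incl R (mk2 a b c d h) = mk2 (HahnSeries.ofPowerSeries ℤ R a) (HahnSeries.ofPowerSeries ℤ R b)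
      (HahnSeries.ofPowerSeries ℤ R c) (HahnSeries.ofPowerSeries ℤ R d)
      (by rw [← map_mul, ← map_mul, ← map_sub, h, map_one]) := map_mk2 _ _ _ _ _ _

/-- For a unit `σ` of `R[[t]]` the element `x(σ / t^m)` lies in `C^μ`. -/
lemma xs_mem_cell (m : ℕ) (σ : (PowerSeries R)ˣ) : xs m (σ : PowerSeries R) ∈ cell m R := by
  refine ⟨_, ⟨mk2 0 (σ : PowerSeries R) (-((σ⁻¹ : (PowerSeries R)ˣ) : PowerSeries R))
      (PowerSeries.X ^ m) (by simp), rfl⟩, _,
    ⟨mk2 1 0 (PowerSeries.X ^ m * ((σ⁻¹ : (PowerSeries R)ˣ) : PowerSeries R)) 1 (by simp),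
      rfl⟩, ?_⟩
  have h1 : HahnSeries.ofPowerSeries ℤ R (σ : PowerSeries R) *
      HahnSeries.ofPowerSeries ℤ R ((σ⁻¹ : (PowerSeries R)ˣ) : PowerSeries R) = 1 := by
    rw [← map_mul, Units.mul_inv, map_one]
  have h2 := t_mul_tinv (R := R) m
  rw [incl_mk2, incl_mk2, tmu_eq, mk2_mul, mk2_mul, xs]
  simp only [map_zero, map_one, map_neg, map_mul, HahnSeries.ofPowerSeries_X_pow]
  apply mk2_ext
  · generalize HahnSeries.ofPowerSeries ℤ R (σ : PowerSeries R) = s at *
    generalize HahnSeries.ofPowerSeries ℤ R ((σ⁻¹ : (PowerSeries R)ˣ) : PowerSeries R) = s' at *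
    generalize (HahnSeries.single (m : ℤ) (1 : R)) = t at *
    generalize (HahnSeries.single (-(m : ℤ)) (1 : R)) = t' at *
    linear_combination -h1 - s * s' * h2
  · ring
  · generalize HahnSeries.ofPowerSeries ℤ R (σ : PowerSeries R) = s at *
    generalize HahnSeries.ofPowerSeries ℤ R ((σ⁻¹ : (PowerSeries R)ˣ) : PowerSeries R) = s' at *
    generalize (HahnSeries.single (m : ℤ) (1 : R)) = t at *
    generalize (HahnSeries.single (-(m : ℤ)) (1 : R)) = t' at *
    linear_combination (-t * s') * h2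
  · linear_combination -h2

/-- Two units `σ, τ` of `R[[t]]` with the same constant coefficient give elements `x(σ / t^m)`
and `x(τ / t^m)` in the same `K₁`-double coset. -/
lemma xs_equiv (m : ℕ) (σ τ : (PowerSeries R)ˣ)
    (h0 : PowerSeries.constantCoeff (σ : PowerSeries R) =
      PowerSeries.constantCoeff (τ : PowerSeries R)) :
    ∃ a ∈ K1 R, ∃ b ∈ K1 R, xs m (σ : PowerSeries R) = a * xs m (τ : PowerSeries R) * b := by
  obtain ⟨lam, hlam⟩ : ∃ lam : (PowerSeries R)ˣ, lam = σ * τ⁻¹ := ⟨_, rfl⟩
  set c : PowerSeries R := (1 - (lam : PowerSeries R)) * PowerSeries.X ^ m *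
    ((σ⁻¹ : (PowerSeries R)ˣ) : PowerSeries R) with hc
  have hl0 : PowerSeries.constantCoeff (lam : PowerSeries R) = 1 := by
    rw [hlam, Units.val_mul, map_mul, h0, ← map_mul, ← Units.val_mul, mul_inv_cancel]
    simp
  have hl0' : PowerSeries.constantCoeff ((lam⁻¹ : (PowerSeries R)ˣ) : PowerSeries R) = 1 := by
    have := congrArg (PowerSeries.constantCoeff (R := R)) (Units.mul_inv lam)
    rw [map_mul, hl0, one_mul, map_one] at this
    exact this
  refine ⟨_, mem_K1.2 ⟨mk2 (lam : PowerSeries R) 0 (-c)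
      ((lam⁻¹ : (PowerSeries R)ˣ) : PowerSeries R) (by simp), ?_, rfl⟩, _,
    mem_K1.2 ⟨mk2 1 0 c 1 (by simp), ?_, rfl⟩, ?_⟩
  · rw [map_mk2, one_eq_mk2]
    apply mk2_ext <;> simp [hl0, hl0', hc]
  · rw [map_mk2, one_eq_mk2]
    apply mk2_ext <;> simp [hc, hl0]
  have h1 : HahnSeries.ofPowerSeries ℤ R (σ : PowerSeries R) *
      HahnSeries.ofPowerSeries ℤ R ((σ⁻¹ : (PowerSeries R)ˣ) : PowerSeries R) = 1 := by
    rw [← map_mul, Units.mul_inv, map_one]
  have h3 : HahnSeries.ofPowerSeries ℤ R (lam : PowerSeries R) *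
      HahnSeries.ofPowerSeries ℤ R ((lam⁻¹ : (PowerSeries R)ˣ) : PowerSeries R) = 1 := by
    rw [← map_mul, Units.mul_inv, map_one]
  have h4 : HahnSeries.ofPowerSeries ℤ R (lam : PowerSeries R) *
      HahnSeries.ofPowerSeries ℤ R (τ : PowerSeries R) =
      HahnSeries.ofPowerSeries ℤ R (σ : PowerSeries R) := by
    rw [← map_mul, hlam, ← Units.val_mul, inv_mul_cancel_right]
  have h2 := t_mul_tinv (R := R) m
  rw [incl_mk2, incl_mk2, xs, xs, mk2_mul, mk2_mul, hc]
  simp only [map_zero, map_one, map_neg, map_mul, map_sub, HahnSeries.ofPowerSeries_X_pow]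
  have key : ∀ (s s' r l l' t t' : LaurentSeries R), s * s' = 1 → l * l' = 1 → l * r = s →
      t * t' = 1 →
      (1 = (l * 1 + 0 * 0) * 1 + (l * (r * t') + 0 * 1) * ((1 - l) * t * s')) ∧
      (s * t' = (l * 1 + 0 * 0) * 0 + (l * (r * t') + 0 * 1) * 1) ∧
      (0 = (-((1 - l) * t * s') * 1 + l' * 0) * 1 +
        (-((1 - l) * t * s') * (r * t') + l' * 1) * ((1 - l) * t * s')) ∧
      (1 = (-((1 - l) * t * s') * 1 + l' * 0) * 0 +
        (-((1 - l) * t * s') * (r * t') + l' * 1) * 1) := by
    intro s s' r l l' t t' h1 h3 h4 h2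
    have hr : r = l' * s := by linear_combination l' * h4 - r * h3
    subst hr
    refine ⟨?_, ?_, ?_, ?_⟩
    · linear_combination (-(1 - l) * l * l' * t * t') * h1 - (1 - l) * t * t' * h3 - (1 - l) * h2
    · linear_combination (-s * t') * h3
    · linear_combination ((1 - l) * t * s') *
        (((1 - l) * l' * t * t') * h1 + ((1 - l) * l') * h2 - h3)
    · linear_combination ((1 - l) * l' * t * t') * h1 + ((1 - l) * l') * h2 - h3
  obtain ⟨k1, k2, k3, k4⟩ := key _ _ _ _ _ _ _ h1 h3 h4 h2
  exact mk2_ext k1 k2 k3 k4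

/-- If the unipotent element `x(r t / t^m)` with `r ∈ R` lies in the `K₁`-double coset of `1`,
then `r = 0`. -/
lemma eq_zero_of_xs_mem {m : ℕ} (hm : 1 ≤ m) (r : R) (h : ∃ a ∈ K1 R, ∃ b ∈ K1 R,
    (1 : LG R) = a * xs m (PowerSeries.C r * PowerSeries.X) * b) : r = 0 := by
  obtain ⟨a, ha, b, hb, hab⟩ := h
  have h1 : xs m (PowerSeries.C r * PowerSeries.X) ∈ K1 R := by
    have : xs m (PowerSeries.C r * PowerSeries.X) = a⁻¹ * b⁻¹ := by
      rw [eq_comm, mul_assoc] at hab
      have := eq_inv_of_mul_eq_one_right hab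
      rw [← this]; group
    rw [this]
    exact mul_mem (inv_mem ha) (inv_mem hb)
  obtain ⟨g, hg, hg'⟩ := mem_K1.1 h1
  have h2 : HahnSeries.ofPowerSeries ℤ R (g.1 0 1) =
      HahnSeries.ofPowerSeries ℤ R (PowerSeries.C r * PowerSeries.X) *
        HahnSeries.single (-(m : ℤ)) 1 := by
    have := congrArg (fun x : LG R => x.1 0 1) hg'
    exact this
  have h3 : PowerSeries.constantCoeff (g.1 0 1) = 0 := by
    have := congrArg (fun x : Matrix.SpecialLinearGroup (Fin 2) R => x.1 0 1) hg
    simpa using this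
  have h4 : (HahnSeries.ofPowerSeries ℤ R (g.1 0 1)).coeff ((1 : ℤ) + (-(m : ℤ))) =
      (HahnSeries.ofPowerSeries ℤ R (PowerSeries.C r * PowerSeries.X) *
        HahnSeries.single (-(m : ℤ)) 1).coeff ((1 : ℤ) + (-(m : ℤ))) := by rw [h2]
  rw [HahnSeries.coeff_mul_single_add] at h4
  have h5 : (HahnSeries.ofPowerSeries ℤ R (PowerSeries.C r * PowerSeries.X)).coeff (1 : ℤ) = r := by
    rw [PowerSeries.coeff_coe]
    simp
  rw [h5, mul_one, PowerSeries.coeff_coe] at h4
  rw [← h4]
  split_ifs with h
  · rfl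
  · have : m = 1 := by omega
    subst this
    simpa using h3

end elements

/-! ## Morphisms from the spectrum of a local ring -/

section schemes

/-- Two morphisms from the spectrum of a local ring to a scheme which agree at the closed point and
after an injective ring extension are equal. -/
lemma spec_local_ext {Y : Scheme.{u}} {A K : CommRingCat.{u}} [IsLocalRing A]
    (ι : A ⟶ K) (hι : Function.Injective ι.hom) (f g : Spec A ⟶ Y)
    (hK : Spec.map ι ≫ f = Spec.map ι ≫ g)
    (hcl : f (IsLocalRing.closedPoint A) = g (IsLocalRing.closedPoint A)) : f = g := by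
  have hf := Scheme.Spec_stalkClosedPointTo_fromSpecStalk f
  obtain ⟨β, hβ⟩ : ∃ β : Y.presheaf.stalk (f (IsLocalRing.closedPoint A)) ⟶ A,
      Spec.map β ≫ Y.fromSpecStalk _ = g := by
    rw [hcl]
    exact ⟨_, Scheme.Spec_stalkClosedPointTo_fromSpecStalk g⟩
  rw [← hf, ← hβ] at hK ⊢
  rw [← Category.assoc, ← Category.assoc, ← Spec.map_comp, ← Spec.map_comp, cancel_mono] at hK
  have h1 := Spec.map_injective hK
  have : Mono ι := ConcreteCategory.mono_of_injective _ hι
  rw [cancel_mono] at h1
  rw [h1]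

/-- Version of `spec_local_ext` where the closed point is seen through a local homomorphism. -/
lemma spec_local_ext' {Y : Scheme.{u}} {A K F : CommRingCat.{u}} [IsLocalRing A]
    (ι : A ⟶ K) (hι : Function.Injective ι.hom) (π : A ⟶ F)
    [IsLocalRing F] [IsLocalHom π.hom] (f g : Spec A ⟶ Y)
    (hK : Spec.map ι ≫ f = Spec.map ι ≫ g)
    (hF : Spec.map π ≫ f = Spec.map π ≫ g) : f = g := by
  apply spec_local_ext ι hι f g hK
  have h1 : Spec.map π (IsLocalRing.closedPoint F) = IsLocalRing.closedPoint A :=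
    Spec_closedPoint
  have h2 : (Spec.map π ≫ f) (IsLocalRing.closedPoint F) =
      (Spec.map π ≫ g) (IsLocalRing.closedPoint F) := by rw [hF]
  have h3 : f (Spec.map π (IsLocalRing.closedPoint F)) =
    g (Spec.map π (IsLocalRing.closedPoint F)) := h2
  rwa [h1] at h3

end schemes

/-! ## The fpqc topology on `k`-algebras -/

section topology
variable {k : Type u} [Field k]

lemma coverByImage_algSpec {R : CommRingCat.{u}}
    (U : Over (Spec (CommRingCat.of k))) (g : Spec R ⟶ U.left) :
    Sieve.coverByImage (algSpec (CommRingCat.of k)) U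
      (Over.homMk g : Over.mk (g ≫ U.hom) ⟶ U) := by
  obtain ⟨φ, hφ⟩ := Spec.map_surjective (g ≫ U.hom)
  let _ : Algebra k R := φ.hom.toAlgebra
  have h1 : ((algSpec (CommRingCat.of k)).obj (op (CommAlgCat.of k R))).hom = g ≫ U.hom := by
    rw [← hφ]; rfl
  let a : Over.mk (g ≫ U.hom) ⟶ (algSpec (CommRingCat.of k)).obj (op (CommAlgCat.of k R)) :=
    Over.homMk (𝟙 (Spec R)) (by rw [h1]; exact Category.id_comp _)
  let b : (algSpec (CommRingCat.of k)).obj (op (CommAlgCat.of k R)) ⟶ U :=
    Over.homMk g h1.symm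
  refine ⟨⟨op (CommAlgCat.of k R), a, b, ?_⟩⟩
  ext1
  exact Category.id_comp g

/-- Affine schemes are dense in the big fpqc site of `k`-schemes. -/
lemma isCoverDense_algSpec (k : Type u) [Field k] :
    (algSpec (CommRingCat.of k)).IsCoverDense
      (Scheme.fpqcTopology.{u}.over (Spec (CommRingCat.of k))) where
  is_cover U := by
    rw [GrothendieckTopology.mem_over_iff]
    apply Scheme.zariskiTopology_le_fpqcTopology
    refine GrothendieckTopology.superset_covering _ ?_
      (Precoverage.generate_mem_toGrothendieck U.left.affineCover.mem₀)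
    rw [Sieve.generate_le_iff]
    rintro _ _ ⟨i⟩
    rw [Sieve.overEquiv_iff]
    exact coverByImage_algSpec U (U.left.affineCover.f i)

/-- Explicit description of the topology `fpqc k`: a sieve is covering if and only if its image
under `Spec` generates a covering sieve of the (big) fpqc site of `k`-schemes. -/
lemma mem_fpqc_iff {X : (CommAlgCat.{u} k)ᵒᵖ} (S : Sieve X) :
    S ∈ fpqc k X ↔ S.functorPushforward (algSpec (CommRingCat.of k)) ∈
      (Scheme.fpqcTopology.{u}.over (Spec (CommRingCat.of k)))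
        ((algSpec (CommRingCat.of k)).obj X) := by
  have := isCoverDense_algSpec k
  have : (algSpec (CommRingCat.of k)).Full := algSpec.instFull
  have : (algSpec (CommRingCat.of k)).Faithful := algSpec.instFaithful
  exact Functor.mem_inducedTopology_iff_of_isCoverDense (G := algSpec (CommRingCat.of k))
    (K := Scheme.fpqcTopology.{u}.over (Spec (CommRingCat.of k))) S

/-- An element of a `k`-algebra which vanishes on an fpqc covering is zero. -/
lemma eq_zero_of_cover {X : (CommAlgCat.{u} k)ᵒᵖ} (S : Sieve X)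
    (hS : S ∈ fpqc k X) (r : X.unop)
    (h : ∀ ⦃Z : (CommAlgCat.{u} k)ᵒᵖ⦄ (f : Z ⟶ X), S f → f.unop.hom r = 0) : r = 0 := by
  let P : CommAlgCat.{u} k := CommAlgCat.of k (Polynomial k)
  have hsub : Presieve.IsSheaf (Scheme.fpqcTopology.{u}.over (Spec (CommRingCat.of k)))
      (yoneda.obj ((algSpec (CommRingCat.of k)).obj (op P))) :=
    GrothendieckTopology.Subcanonical.isSheaf_of_isRepresentable _
  let G : Sheaf (Scheme.fpqcTopology.{u}.over (Spec (CommRingCat.of k))) (Type u) :=
    ⟨yoneda.obj ((algSpec (CommRingCat.of k)).obj (op P)), (isSheaf_iff_isSheaf_of_type _ _).2 hsub⟩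
  have hcont : (algSpec (CommRingCat.of k)).IsContinuous (fpqc k)
    (Scheme.fpqcTopology.{u}.over (Spec (CommRingCat.of k))) := by
    unfold fpqc
    infer_instance
  have hG : Presieve.IsSheaf (fpqc k) ((algSpec (CommRingCat.of k)).op ⋙ G.obj) :=
    Functor.op_comp_isSheaf_of_types (algSpec (CommRingCat.of k)) (fpqc k) _ G
  let α (s : X.unop) : P ⟶ X.unop := CommAlgCat.ofHom (Polynomial.aeval s)
  have key := (hG S hS).isSeparatedFor.ext (t₁ := (algSpec (CommRingCat.of k)).map (α r).op)
    (t₂ := (algSpec (CommRingCat.of k)).map (α 0).op) ?_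
  · have : (algSpec (CommRingCat.of k)).Faithful := algSpec.instFaithful
    have h1 := (algSpec (CommRingCat.of k)).map_injective key
    have h2 : α r = α 0 := Quiver.Hom.op_inj h1
    have h3 := congrArg (fun g : P ⟶ X.unop => g.hom Polynomial.X) h2
    change Polynomial.aeval r Polynomial.X = Polynomial.aeval 0 Polynomial.X at h3
    rwa [Polynomial.aeval_X, Polynomial.aeval_X] at h3
  · intro Z f hf
    change (algSpec (CommRingCat.of k)).map f ≫ (algSpec (CommRingCat.of k)).map (α r).op =
      (algSpec (CommRingCat.of k)).map f ≫ (algSpec (CommRingCat.of k)).map (α 0).op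
    rw [← Functor.map_comp, ← Functor.map_comp]
    congr 1
    apply Quiver.Hom.unop_inj
    change α r ≫ f.unop = α 0 ≫ f.unop
    apply CommAlgCat.hom_ext
    apply Polynomial.algHom_ext
    change f.unop.hom (Polynomial.aeval r Polynomial.X) =
      f.unop.hom (Polynomial.aeval 0 Polynomial.X)
    rw [Polynomial.aeval_X, Polynomial.aeval_X, h f hf, map_zero]

end topology

/-! ## The main argument -/

section main
variable {k : Type u} [Field k] {m : ℕ}

lemma eta_naturality (Y : Over (Spec (CommRingCat.of k))) (η : quotPresheaf k m ⟶ pointsOf k Y)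
    {R S : Type u} [CommRing R] [CommRing S] [Algebra k R] [Algebra k S] (f : R →ₐ[k] S)
    (q : Quotient (quotRel k m R)) :
    (η.app (op (op (CommAlgCat.of k S))) ⟨quotMap f q⟩).down =
      (algSpec (CommRingCat.of k)).map (CommAlgCat.ofHom f).op ≫
        (η.app (op (op (CommAlgCat.of k R))) ⟨q⟩).down := by
  have h := η.naturality (X := op (op (CommAlgCat.of k R))) (Y := op (op (CommAlgCat.of k S)))
    (CommAlgCat.ofHom f).op.op
  have h2 := congrArg (fun g => (g ⟨q⟩).down) h
  exact h2

/-- The abstract form of the argument: there is no locally injective morphism from the presheaf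
quotient to the functor of points of a scheme. -/
lemma no_points (hm : 1 ≤ m) {A K F B : Type u} [CommRing A] [CommRing K] [CommRing F] [CommRing B]
    [Algebra k A] [Algebra k K] [Algebra k F] [Algebra k B] [IsLocalRing A] [IsLocalRing F]
    (ι : A →ₐ[k] K) (hι : Function.Injective ι) (π : A →ₐ[k] F)
    (hπ : IsLocalHom (π : A →+* F))
    (ρ : A →ₐ[k] B) (s x : A) (hs : IsUnit (ι s)) (hπx : π x = 0)
    (hρs : ρ s = 0) (hρx : ρ x ≠ 0) (Y : Over (Spec (CommRingCat.of k)))
    (η : quotPresheaf k m ⟶ pointsOf k Y) (hη : Presheaf.IsLocallyInjective (fpqc k) η) :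
    False := by
  -- the two power series `s + x t` and `s`
  set σ₁ : PowerSeries A := PowerSeries.C s + PowerSeries.C x * PowerSeries.X with hσ₁
  set σ₂ : PowerSeries A := PowerSeries.C s with hσ₂
  have hmap₁ : ∀ {T : Type u} [CommRing T] (f : A →+* T), PowerSeries.map f σ₁ =
      PowerSeries.C (f s) + PowerSeries.C (f x) * PowerSeries.X := by
    intro T _ f
    simp [hσ₁, hσ₂]
  have hmap₂ : ∀ {T : Type u} [CommRing T] (f : A →+* T), PowerSeries.map f σ₂ =
      PowerSeries.C (f s) := by
    intro T _ f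
    simp [hσ₂]
  have hc₁ : PowerSeries.constantCoeff (PowerSeries.map (ι : A →+* K) σ₁) = ι s := by
    rw [hmap₁]; simp
  have hc₂ : PowerSeries.constantCoeff (PowerSeries.map (ι : A →+* K) σ₂) = ι s := by
    rw [hmap₂]; simp
  obtain ⟨u₁, hu₁⟩ : IsUnit (PowerSeries.map (ι : A →+* K) σ₁) := by
    rw [PowerSeries.isUnit_iff_constantCoeff, hc₁]; exact hs
  obtain ⟨u₂, hu₂⟩ : IsUnit (PowerSeries.map (ι : A →+* K) σ₂) := by
    rw [PowerSeries.isUnit_iff_constantCoeff, hc₂]; exact hs
  have hmem₁ : xs m σ₁ ∈ Cle k m A := by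
    apply mem_Cle_of_injective ι hι
    rw [map_xs, ← hu₁]
    exact cell_subset_Cle (xs_mem_cell m u₁)
  have hmem₂ : xs m σ₂ ∈ Cle k m A := by
    apply mem_Cle_of_injective ι hι
    rw [map_xs, ← hu₂]
    exact cell_subset_Cle (xs_mem_cell m u₂)
  let q₁ : Quotient (quotRel k m A) := Quotient.mk _ ⟨xs m σ₁, hmem₁⟩
  let q₂ : Quotient (quotRel k m A) := Quotient.mk _ ⟨xs m σ₂, hmem₂⟩
  -- they agree over `K`
  have hK : quotMap ι q₁ = quotMap ι q₂ := by
    apply Quotient.sound
    obtain ⟨a, ha, b, hb, hab⟩ := xs_equiv m u₂ u₁ (by rw [hu₁, hu₂, hc₁, hc₂])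
    refine ⟨a, ha, b, hb, ?_⟩
    change LG.map (ι : A →+* K) (xs m σ₂) = a * LG.map (ι : A →+* K) (xs m σ₁) * b
    rw [map_xs, map_xs, ← hu₁, ← hu₂, hab]
  -- they agree over `F`
  have hF : quotMap π q₁ = quotMap π q₂ := by
    apply congrArg (Quotient.mk _)
    apply Subtype.ext
    change LG.map (π : A →+* F) (xs m σ₁) = LG.map (π : A →+* F) (xs m σ₂)
    rw [map_xs, map_xs, hmap₁, hmap₂]
    change xs m (PowerSeries.C (π s) + PowerSeries.C (π x) * PowerSeries.X) =
      xs m (PowerSeries.C (π s))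
    rw [hπx]
    simp
  -- hence the images in `Y(A)` agree
  have hY : (η.app (op (op (CommAlgCat.of k A))) ⟨q₁⟩).down =
      (η.app (op (op (CommAlgCat.of k A))) ⟨q₂⟩).down := by
    have hK' := eta_naturality Y η ι q₁
    rw [hK, eta_naturality Y η ι q₂] at hK'
    have hF' := eta_naturality Y η π q₁
    rw [hF, eta_naturality Y η π q₂] at hF'
    have hK'' := congrArg (fun g => g.left) hK'
    have hF'' := congrArg (fun g => g.left) hF'
    apply Over.OverMorphism.ext
    exact spec_local_ext' (A := CommRingCat.of A) (K := CommRingCat.of K) (F := CommRingCat.of F)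
      (CommRingCat.ofHom (ι : A →+* K)) hι (CommRingCat.ofHom (π : A →+* F)) _ _ hK''.symm hF''.symm
  -- hence the images in `Y(B)` agree
  have hB : η.app (op (op (CommAlgCat.of k B))) ⟨quotMap ρ q₁⟩ =
      η.app (op (op (CommAlgCat.of k B))) ⟨quotMap ρ q₂⟩ := by
    have h1 : (η.app (op (op (CommAlgCat.of k B))) ⟨quotMap ρ q₁⟩).down =
      (η.app (op (op (CommAlgCat.of k B))) ⟨quotMap ρ q₂⟩).down := by
      rw [eta_naturality, eta_naturality, hY]
    exact ULift.down_injective h1
  -- local injectivity gives a covering on which the two classes agree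
  have hS := Presheaf.equalizerSieve_mem (fpqc k) η _ _ hB
  apply hρx
  refine eq_zero_of_cover _ hS (ρ x) ?_
  intro Z f hf
  have h1 : (quotPresheaf k m).map f.op ⟨quotMap ρ q₁⟩ =
    (quotPresheaf k m).map f.op ⟨quotMap ρ q₂⟩ := hf
  have h2 : quotMap f.unop.hom (quotMap ρ q₁) = quotMap f.unop.hom (quotMap ρ q₂) :=
    congrArg ULift.down h1
  obtain ⟨a, ha, b, hb, hab⟩ := Quotient.exact h2
  apply eq_zero_of_xs_mem hm
  refine ⟨a, ha, b, hb, ?_⟩
  change LG.map (f.unop.hom : B →+* Z.unop) (LG.map (ρ : A →+* B) (xs m σ₂)) =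
    a * LG.map (f.unop.hom : B →+* Z.unop) (LG.map (ρ : A →+* B) (xs m σ₁)) * b at hab
  rw [map_xs, map_xs, map_xs, map_xs, hmap₁, hmap₂] at hab
  have e1 : (ρ : A →+* B) s = 0 := hρs
  rw [e1, map_add, map_mul, PowerSeries.map_C, PowerSeries.map_C, PowerSeries.map_X, map_zero,
    map_zero, xs_zero, zero_add] at hab
  exact hab

end main

/-- **Main theorem.** Let `k` be a field, `G = SL₂` and `μ = (t ↦ diag(t^m, t⁻ᵐ))` with `m ≥ 1`.
Then the fpqc sheaf quotient `K₁ \ C^{≤ μ} / K₁` on the category of `k`-algebras is not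
representable by a `k`-scheme. -/
theorem not_representable (k : Type u) [Field k] (m : ℕ) (hm : 1 ≤ m) :
    ¬ ∃ Y : Over (Spec (CommRingCat.of k)),
      Nonempty ((truncatedQuotient k m).obj ≅ pointsOf k Y) := by
  rintro ⟨Y, ⟨e⟩⟩
  let η : quotPresheaf k m ⟶ pointsOf k Y := toSheafify (fpqc k) (quotPresheaf k m) ≫ e.hom
  have hη : Presheaf.IsLocallyInjective (fpqc k) η := inferInstance
  let π : PowerSeries k →ₐ[k] k :=
    { (PowerSeries.constantCoeff (R := k)) with
      commutes' := fun r => by simp }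
  have hX : (PowerSeries.X : PowerSeries k) ≠ 0 := PowerSeries.X_ne_zero
  refine no_points hm (A := PowerSeries k) (K := FractionRing (PowerSeries k)) (F := k)
    (B := PowerSeries k ⧸ Ideal.span {(PowerSeries.X : PowerSeries k) ^ 2})
    (Algebra.algHom k (PowerSeries k) (FractionRing (PowerSeries k))) ?_ π ?_
    (Ideal.Quotient.mkₐ k _) (PowerSeries.X ^ 2) PowerSeries.X ?_ ?_ ?_ ?_ Y η hη
  · exact IsFractionRing.injective _ _
  · constructor
    intro a ha
    exact PowerSeries.isUnit_iff_constantCoeff.2 ha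
  · rw [isUnit_iff_ne_zero]
    intro h
    apply pow_ne_zero 2 hX
    apply IsFractionRing.injective (PowerSeries k) (FractionRing (PowerSeries k))
    rw [map_zero]
    exact h
  · exact PowerSeries.constantCoeff_X
  · exact Ideal.Quotient.eq_zero_iff_mem.2 (Ideal.mem_span_singleton_self _)
  · intro h
    have h1 : (PowerSeries.X : PowerSeries k) ∈
        Ideal.span {(PowerSeries.X : PowerSeries k) ^ 2} := Ideal.Quotient.eq_zero_iff_mem.1 h
    rw [Ideal.mem_span_singleton, PowerSeries.X_pow_dvd_iff] at h1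
    have h2 := h1 1 (by norm_num)
    rw [PowerSeries.coeff_one_X] at h2
    exact one_ne_zero h2

end

end Pool.Agent.Helper16.Trunc
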